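import Pool.Agent.Q286.SB.Mono

/-!
The second moment of zeta times a Dirichlet polynomial to the right of the critical line.
-/

set_option autoImplicit false
set_option linter.all false

namespace Pool.Agent.Q286.SB

open Complex Filter Topology Set MeasureTheory
open scoped ComplexConjugate
open Pool.Agent.H306R2.SM (om cl Yf)
open Pool.Agent.H262R4.TM (Rng Ck)
open Pool.Agent.W184.NZ (wz wz_int wz_nonneg)

lemma zsum {a : ℝ} (ha : 1 < a) : ∃ Z : ℝ, 0 < Z ∧ ∀ S : Finset ℕ,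
    ∑ n ∈ S, (n : ℝ) ^ (-a) ≤ Z := by
  have hs : Summable (fun n : ℕ => (n : ℝ) ^ (-a)) := Real.summable_nat_rpow.mpr (by linarith)
  have h0 : ∀ n : ℕ, 0 ≤ (n : ℝ) ^ (-a) := fun n => Real.rpow_nonneg (Nat.cast_nonneg n) _
  refine ⟨(∑' n : ℕ, (n : ℝ) ^ (-a)) + 1, by
    have h1 : 0 ≤ ∑' n : ℕ, (n : ℝ) ^ (-a) := tsum_nonneg h0
    linarith, fun S => ?_⟩
  have := hs.sum_le_tsum S (fun n _ => h0 n)
  linarith

lemma dsum {a Z : ℝ} (hZ : ∀ S : Finset ℕ, ∑ n ∈ S, (n : ℝ) ^ (-a) ≤ Z) (N d : ℕ) (hd : 1 ≤ d) :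
    ∑ h ∈ (Finset.Icc 1 N).filter (fun h => d ∣ h), (h : ℝ) ^ (-a) ≤ (d : ℝ) ^ (-a) * Z := by
  have hd0 : (0:ℝ) < d := by exact_mod_cast hd
  have e1 : ∀ h ∈ (Finset.Icc 1 N).filter (fun h => d ∣ h), (h : ℝ) ^ (-a) =
      (d : ℝ) ^ (-a) * ((h / d : ℕ) : ℝ) ^ (-a) := by
    intro h hh
    rw [Finset.mem_filter] at hh
    obtain ⟨j, rfl⟩ := hh.2
    rw [Nat.mul_div_cancel_left _ hd, Nat.cast_mul, Real.mul_rpow hd0.le (by positivity)]
  rw [Finset.sum_congr rfl e1, ← Finset.mul_sum]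
  refine mul_le_mul_of_nonneg_left ?_ (by positivity)
  have hinj : Set.InjOn (fun h : ℕ => h / d)
      (((Finset.Icc 1 N).filter (fun h => d ∣ h) : Finset ℕ) : Set ℕ) := by
    intro x hx y hy hxy
    rw [Finset.mem_coe, Finset.mem_filter] at hx hy
    obtain ⟨i, rfl⟩ := hx.2
    obtain ⟨j, rfl⟩ := hy.2
    simp only [Nat.mul_div_cancel_left _ hd] at hxy
    rw [hxy]
  rw [← Finset.sum_image (f := fun j : ℕ => (j : ℝ) ^ (-a)) hinj]
  exact hZ _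

/-- sums with the greatest common divisor -/
lemma gcd_sum {a : ℝ} (ha : 1 < a) : ∃ C : ℝ, 0 < C ∧ ∀ N : ℕ,
    ∑ h ∈ Finset.Icc 1 N, ∑ l ∈ Finset.Icc 1 N,
      (Nat.gcd h l : ℝ) * ((h : ℝ) ^ (-a) * (l : ℝ) ^ (-a)) ≤ C := by
  classical
  obtain ⟨Z, hZ0, hZ⟩ := zsum ha
  obtain ⟨Z', hZ'0, hZ'⟩ := zsum (show 1 < 2 * a - 1 by linarith)
  refine ⟨Z' * Z ^ 2, by positivity, fun N => ?_⟩
  have h1 : ∀ h ∈ Finset.Icc 1 N, ∀ l ∈ Finset.Icc 1 N,
      (Nat.gcd h l : ℝ) * ((h : ℝ) ^ (-a) * (l : ℝ) ^ (-a)) ≤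
      ∑ d ∈ Finset.Icc 1 N, (d : ℝ) * ((if d ∣ h then (h : ℝ) ^ (-a) else 0) *
        (if d ∣ l then (l : ℝ) ^ (-a) else 0)) := by
    intro h hh l hl
    rw [Finset.mem_Icc] at hh hl
    have hg : Nat.gcd h l ∈ Finset.Icc 1 N := by
      rw [Finset.mem_Icc]
      exact ⟨Nat.gcd_pos_of_pos_left _ hh.1, (Nat.gcd_le_left _ hh.1).trans hh.2⟩
    have h2 := Finset.single_le_sum (f := fun d : ℕ => (d : ℝ) *
      ((if d ∣ h then (h : ℝ) ^ (-a) else 0) * (if d ∣ l then (l : ℝ) ^ (-a) else 0)))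
      (fun d _ => by
        refine mul_nonneg (Nat.cast_nonneg _) (mul_nonneg ?_ ?_)
        · split_ifs <;> positivity
        · split_ifs <;> positivity) hg
    simp only [Nat.gcd_dvd_left, Nat.gcd_dvd_right, if_true] at h2
    exact h2
  calc ∑ h ∈ Finset.Icc 1 N, ∑ l ∈ Finset.Icc 1 N,
      (Nat.gcd h l : ℝ) * ((h : ℝ) ^ (-a) * (l : ℝ) ^ (-a)) ≤
      ∑ h ∈ Finset.Icc 1 N, ∑ l ∈ Finset.Icc 1 N, ∑ d ∈ Finset.Icc 1 N,
        (d : ℝ) * ((if d ∣ h then (h : ℝ) ^ (-a) else 0) *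
        (if d ∣ l then (l : ℝ) ^ (-a) else 0)) :=
        Finset.sum_le_sum fun h hh => Finset.sum_le_sum fun l hl => h1 h hh l hl
    _ = ∑ d ∈ Finset.Icc 1 N, (d : ℝ) * ((∑ h ∈ (Finset.Icc 1 N).filter (fun h => d ∣ h),
          (h : ℝ) ^ (-a)) * (∑ l ∈ (Finset.Icc 1 N).filter (fun l => d ∣ l), (l : ℝ) ^ (-a))) := by
        have e : ∀ h ∈ Finset.Icc 1 N, ∑ l ∈ Finset.Icc 1 N, ∑ d ∈ Finset.Icc 1 N,
            (d : ℝ) * ((if d ∣ h then (h : ℝ) ^ (-a) else 0) *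
            (if d ∣ l then (l : ℝ) ^ (-a) else 0)) = ∑ d ∈ Finset.Icc 1 N,
              ∑ l ∈ Finset.Icc 1 N, (d : ℝ) * ((if d ∣ h then (h : ℝ) ^ (-a) else 0) *
            (if d ∣ l then (l : ℝ) ^ (-a) else 0)) := fun h _ => Finset.sum_comm
        rw [Finset.sum_congr rfl e, Finset.sum_comm]
        refine Finset.sum_congr rfl fun d _ => ?_
        simp only [Finset.sum_filter]
        rw [Finset.sum_mul_sum, Finset.mul_sum]
        refine Finset.sum_congr rfl fun h _ => ?_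
        rw [Finset.mul_sum]
    _ ≤ ∑ d ∈ Finset.Icc 1 N, Z ^ 2 * (d : ℝ) ^ (-(2 * a - 1)) := by
        refine Finset.sum_le_sum fun d hd => ?_
        rw [Finset.mem_Icc] at hd
        have hd0 : (0:ℝ) < d := by exact_mod_cast hd.1
        have h3 := dsum hZ N d hd.1
        have h4 : 0 ≤ ∑ h ∈ (Finset.Icc 1 N).filter (fun h => d ∣ h), (h : ℝ) ^ (-a) :=
          Finset.sum_nonneg fun _ _ => by positivity
        calc (d : ℝ) * (_ * _) ≤ d * (((d : ℝ) ^ (-a) * Z) * ((d : ℝ) ^ (-a) * Z)) :=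
              mul_le_mul_of_nonneg_left (mul_le_mul h3 h3 h4 (by positivity)) hd0.le
          _ = Z ^ 2 * (d * ((d : ℝ) ^ (-a) * (d : ℝ) ^ (-a))) := by ring
          _ = Z ^ 2 * (d : ℝ) ^ (-(2 * a - 1)) := by
              congr 1
              rw [← Real.rpow_add hd0]
              nth_rw 1 [← Real.rpow_one (d : ℝ)]
              rw [← Real.rpow_add hd0]
              congr 1
              ring
    _ ≤ Z' * Z ^ 2 := by
        rw [← Finset.mul_sum, mul_comm]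
        exact mul_le_mul_of_nonneg_right (hZ' _) (by positivity)

/-- the weighted mean square of a Dirichlet polynomial without small frequencies -/
theorem dir_win {σ1 : ℝ} (h1 : 1 / 2 < σ1) : ∃ C : ℝ, 0 < C ∧ ∀ᶠ Y : ℝ in atTop,
    ∀ k : ℕ, Rng Y k → ∀ N : ℕ, (N : ℝ) ≤ Y ^ (2 / 5 : ℝ) → ∀ M0 : ℕ, 1 ≤ M0 → ∀ c : ℕ → ℂ,
    (∀ n, ‖c n‖ ≤ 1) → (∀ n ≤ M0, c n = 0) → ∀ s : ℂ, σ1 ≤ s.re →
      ∫ t in Ioi (0:ℝ), wz k Y t * ‖∑ n ∈ Finset.Icc 1 N, c n * (n : ℂ) ^ (-(s + t * I))‖ ^ 2 ≤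
        C * (M0 : ℝ) ^ (-(σ1 - 1 / 2)) * Real.log Y + 1 := by
  set κ : ℝ := σ1 - 1 / 2 with hκ
  have hκ0 : 0 < κ := by linarith
  obtain ⟨C, hC, hCs⟩ := gcd_sum (show 1 < 1 + κ / 2 by linarith)
  obtain ⟨η, hη, h⟩ := Pool.Agent.H262R4.TM.f_TSM2 (2 / 5) (by norm_num)
  refine ⟨4 * C, by positivity, ?_⟩
  filter_upwards [h, Real.tendsto_log_atTop.eventually_ge_atTop 2, eventually_ge_atTop 1]
    with Y hY hL hY1 k hk N hN M0 hM0 c hc hc0 s hs
  have hY0 : 0 < Y := by linarith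
  have hk1 := rng_pos (by linarith) hk
  have hk0 : (0:ℝ) < k := by exact_mod_cast hk1
  have hYf : 0 < Yf k Y := by unfold Yf; positivity
  have hM0r : (0:ℝ) < M0 := by exact_mod_cast hM0
  have hsplit : ∀ n : ℕ, 1 ≤ n → ∀ t : ℝ, (n : ℂ) ^ (-(s + t * I)) =
      (n : ℂ) ^ (1 / 2 - s) * (n : ℂ) ^ (-(cl t)) := by
    intro n hn t
    rw [← Complex.cpow_add _ _ (by exact_mod_cast (by omega : n ≠ 0))]
    congr 1
    unfold cl
    ring
  set a : ℕ → ℂ := fun n => if 1 ≤ n then c n * (n : ℂ) ^ (1 / 2 - s) else 0 with ha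
  have hna : ∀ n : ℕ, 1 ≤ n → ‖a n‖ ≤ (M0 : ℝ) ^ (-(κ / 2)) * (n : ℝ) ^ (-(κ / 2)) := by
    intro n hn
    have hn0 : (0:ℝ) < n := by exact_mod_cast hn
    have hn1 : (1:ℝ) ≤ n := by exact_mod_cast hn
    simp only [ha, if_pos hn]
    rcases le_or_gt n M0 with h2 | h2
    · rw [hc0 n h2, zero_mul, norm_zero]
      positivity
    · have h3 : (M0 : ℝ) ≤ n := by exact_mod_cast h2.le
      rw [norm_mul, Complex.norm_natCast_cpow_of_pos hn]
      have e : (1 / 2 - s).re = 1 / 2 - s.re := by simp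
      rw [e]
      calc ‖c n‖ * (n : ℝ) ^ (1 / 2 - s.re) ≤ 1 * (n : ℝ) ^ (-(κ / 2) + -(κ / 2)) := by
            refine mul_le_mul (hc n) ?_ (by positivity) zero_le_one
            exact Real.rpow_le_rpow_of_exponent_le hn1 (by linarith)
        _ = (n : ℝ) ^ (-(κ / 2)) * (n : ℝ) ^ (-(κ / 2)) := by
            rw [one_mul, Real.rpow_add hn0]
        _ ≤ (M0 : ℝ) ^ (-(κ / 2)) * (n : ℝ) ^ (-(κ / 2)) := by
            refine mul_le_mul_of_nonneg_right ?_ (by positivity)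
            exact Real.rpow_le_rpow_of_nonpos hM0r h3 (by linarith)
  have ha1 : ∀ n, ‖a n‖ ≤ 1 := by
    intro n
    rcases Nat.eq_zero_or_pos n with h2 | h2
    · simp only [ha, h2]
      norm_num
    · refine (hna n h2).trans ?_
      have p1 : (M0 : ℝ) ^ (-(κ / 2)) ≤ 1 :=
        Real.rpow_le_one_of_one_le_of_nonpos (by exact_mod_cast hM0) (by linarith)
      have p2 : (n : ℝ) ^ (-(κ / 2)) ≤ 1 :=
        Real.rpow_le_one_of_one_le_of_nonpos (by exact_mod_cast h2) (by linarith)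
      calc _ ≤ (1:ℝ) * 1 := mul_le_mul p1 p2 (by positivity) zero_le_one
        _ = 1 := one_mul 1
  have hT := hY k hk N hN a ha1
  have e1 : ∀ t : ℝ, om k (k / Y) t * ‖riemannZeta (cl t)‖ ^ 2 *
      ‖∑ n ∈ Finset.Icc 1 N, a n * (n : ℂ) ^ (-(cl t))‖ ^ 2 =
      wz k Y t * ‖∑ n ∈ Finset.Icc 1 N, c n * (n : ℂ) ^ (-(s + t * I))‖ ^ 2 := by
    intro t
    have : ∑ n ∈ Finset.Icc 1 N, a n * (n : ℂ) ^ (-(cl t)) =
        ∑ n ∈ Finset.Icc 1 N, c n * (n : ℂ) ^ (-(s + t * I)) := by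
      refine Finset.sum_congr rfl fun n hn => ?_
      rw [Finset.mem_Icc] at hn
      rw [hsplit n hn.1 t]
      simp only [ha, if_pos hn.1]
      ring
    rw [this]
    rfl
  simp only [e1] at hT
  set J := ∫ t in Ioi (0:ℝ), wz k Y t * ‖∑ n ∈ Finset.Icc 1 N, c n * (n : ℂ) ^ (-(s + t * I))‖ ^ 2
    with hJ
  set Q : ℂ := ∑ h ∈ Finset.Icc 1 N, ∑ l ∈ Finset.Icc 1 N, a h * (starRingEnd ℂ) (a l) *
        ((1 / (Nat.lcm h l : ℝ) *
          (Real.log (Yf k Y * (Nat.gcd h l : ℝ) ^ 2 / ((h : ℝ) * l)) + Ck k) : ℝ) : ℂ) with hQ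
  have hyf := Pool.Agent.TH806.yf_bound hk1 hY0
  have hQb : ‖Q‖ ≤ 4 * C * (M0 : ℝ) ^ (-κ) * Real.log Y := by
    have h2 : ∀ h ∈ Finset.Icc 1 N, ∀ l ∈ Finset.Icc 1 N,
        ‖a h * (starRingEnd ℂ) (a l) * ((1 / (Nat.lcm h l : ℝ) *
          (Real.log (Yf k Y * (Nat.gcd h l : ℝ) ^ 2 / ((h : ℝ) * l)) + Ck k) : ℝ) : ℂ)‖ ≤
        (4 * (M0 : ℝ) ^ (-κ) * Real.log Y) * ((Nat.gcd h l : ℝ) *
          ((h : ℝ) ^ (-(1 + κ / 2)) * (l : ℝ) ^ (-(1 + κ / 2)))) := by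
      intro h hh l hl
      rw [Finset.mem_Icc] at hh hl
      have hh0 : (0:ℝ) < h := by exact_mod_cast hh.1
      have hl0 : (0:ℝ) < l := by exact_mod_cast hl.1
      have hh1 : (1:ℝ) ≤ h := by exact_mod_cast hh.1
      have hl1 : (1:ℝ) ≤ l := by exact_mod_cast hl.1
      have g0 : (0:ℝ) < Nat.gcd h l := by exact_mod_cast Nat.gcd_pos_of_pos_left _ hh.1
      have g1 : (1:ℝ) ≤ Nat.gcd h l := by exact_mod_cast Nat.gcd_pos_of_pos_left _ hh.1
      have gh : (Nat.gcd h l : ℝ) ≤ h := by exact_mod_cast Nat.gcd_le_left _ hh.1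
      have gl : (Nat.gcd h l : ℝ) ≤ l := by exact_mod_cast Nat.gcd_le_right _ hl.1
      have hlcm : 1 / (Nat.lcm h l : ℝ) = (Nat.gcd h l : ℝ) / (h * l) := by
        have := Nat.gcd_mul_lcm h l
        have h3 : (Nat.gcd h l : ℝ) * Nat.lcm h l = (h:ℝ) * l := by exact_mod_cast this
        rw [← h3]
        have h4 : (0:ℝ) < Nat.lcm h l := by
          exact_mod_cast Nat.lcm_pos hh.1 hl.1
        field_simp
      have hlogb : |Real.log (Yf k Y * (Nat.gcd h l : ℝ) ^ 2 / ((h : ℝ) * l)) + Ck k| ≤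
          4 * Real.log Y := by
        have e2 : Real.log (Yf k Y * (Nat.gcd h l : ℝ) ^ 2 / ((h : ℝ) * l)) =
            Real.log (Yf k Y) + (2 * Real.log (Nat.gcd h l) - (Real.log h + Real.log l)) := by
          rw [Real.log_div (by positivity) (by positivity), Real.log_mul hYf.ne' (by positivity),
            Real.log_pow, Real.log_mul hh0.ne' hl0.ne']
          push_cast
          ring
        have e3 : Real.log h ≤ 2 / 5 * Real.log Y := by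
          have h5 : (h : ℝ) ≤ Y ^ (2 / 5 : ℝ) := le_trans (by exact_mod_cast hh.2) hN
          have := Real.log_le_log hh0 h5
          rwa [Real.log_rpow hY0] at this
        have e4 : Real.log l ≤ 2 / 5 * Real.log Y := by
          have h5 : (l : ℝ) ≤ Y ^ (2 / 5 : ℝ) := le_trans (by exact_mod_cast hl.2) hN
          have := Real.log_le_log hl0 h5
          rwa [Real.log_rpow hY0] at this
        have e5 : 0 ≤ Real.log (Nat.gcd h l : ℝ) := Real.log_nonneg g1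
        have e6 : Real.log (Nat.gcd h l : ℝ) ≤ Real.log h := Real.log_le_log g0 gh
        have e7 : Real.log (Nat.gcd h l : ℝ) ≤ Real.log l := Real.log_le_log g0 gl
        have e8 := abs_le.1 hyf
        rw [e2, abs_le]
        constructor <;> linarith [e8.1, e8.2]
      rw [norm_mul, norm_mul, RCLike.norm_conj, Complex.norm_real, Real.norm_eq_abs, abs_mul,
        hlcm, abs_of_nonneg (show 0 ≤ (Nat.gcd h l : ℝ) / (h * l) by positivity)]
      calc ‖a h‖ * ‖a l‖ * ((Nat.gcd h l : ℝ) / (h * l) *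
            |Real.log (Yf k Y * (Nat.gcd h l : ℝ) ^ 2 / ((h : ℝ) * l)) + Ck k|) ≤
          (((M0 : ℝ) ^ (-(κ / 2)) * (h : ℝ) ^ (-(κ / 2))) *
            ((M0 : ℝ) ^ (-(κ / 2)) * (l : ℝ) ^ (-(κ / 2)))) *
            ((Nat.gcd h l : ℝ) / (h * l) * (4 * Real.log Y)) := by
            refine mul_le_mul (mul_le_mul (hna h hh.1) (hna l hl.1) (norm_nonneg _) (by positivity))
              (mul_le_mul_of_nonneg_left hlogb (by positivity)) (by positivity) (by positivity)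
        _ = (4 * (M0 : ℝ) ^ (-κ) * Real.log Y) * ((Nat.gcd h l : ℝ) *
          ((h : ℝ) ^ (-(1 + κ / 2)) * (l : ℝ) ^ (-(1 + κ / 2)))) := by
            have p1 : (M0 : ℝ) ^ (-κ) = (M0 : ℝ) ^ (-(κ / 2)) * (M0 : ℝ) ^ (-(κ / 2)) := by
              rw [← Real.rpow_add hM0r]
              congr 1
              ring
            have p2 : ∀ x : ℝ, 0 < x → x ^ (-(1 + κ / 2)) = x ^ (-(κ / 2)) / x := by
              intro x hx
              rw [show -(1 + κ / 2) = -(κ / 2) + -1 by ring, Real.rpow_add hx, Real.rpow_neg_one]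
              exact (div_eq_mul_inv _ _).symm
            rw [p1, p2 _ hh0, p2 _ hl0]
            field_simp
    calc ‖Q‖ ≤ ∑ h ∈ Finset.Icc 1 N, ∑ l ∈ Finset.Icc 1 N,
          (4 * (M0 : ℝ) ^ (-κ) * Real.log Y) * ((Nat.gcd h l : ℝ) *
            ((h : ℝ) ^ (-(1 + κ / 2)) * (l : ℝ) ^ (-(1 + κ / 2)))) := by
          refine (norm_sum_le _ _).trans (Finset.sum_le_sum fun h hh => ?_)
          exact (norm_sum_le _ _).trans (Finset.sum_le_sum fun l hl => h2 h hh l hl)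
      _ = (4 * (M0 : ℝ) ^ (-κ) * Real.log Y) * ∑ h ∈ Finset.Icc 1 N, ∑ l ∈ Finset.Icc 1 N,
          ((Nat.gcd h l : ℝ) *
            ((h : ℝ) ^ (-(1 + κ / 2)) * (l : ℝ) ^ (-(1 + κ / 2)))) := by
          rw [Finset.mul_sum]
          refine Finset.sum_congr rfl fun h _ => ?_
          rw [Finset.mul_sum]
      _ ≤ (4 * (M0 : ℝ) ^ (-κ) * Real.log Y) * C :=
          mul_le_mul_of_nonneg_left (hCs N) (by positivity)
      _ = 4 * C * (M0 : ℝ) ^ (-κ) * Real.log Y := by ring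
  have hJ0 : 0 ≤ J := setIntegral_nonneg measurableSet_Ioi fun t ht =>
    mul_nonneg (wz_nonneg k hY0 (le_of_lt ht)) (by positivity)
  have h3 : J = ‖((J : ℝ) : ℂ)‖ := by
    rw [Complex.norm_real, Real.norm_eq_abs, abs_of_nonneg hJ0]
  have h4 : Y ^ (-η) ≤ 1 := Real.rpow_le_one_of_one_le_of_nonpos hY1 (by linarith)
  rw [h3]
  calc ‖((J : ℝ) : ℂ)‖ = ‖(((J : ℝ) : ℂ) - Q) + Q‖ := by rw [sub_add_cancel]
    _ ≤ ‖((J : ℝ) : ℂ) - Q‖ + ‖Q‖ := norm_add_le _ _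
    _ ≤ 1 + 4 * C * (M0 : ℝ) ^ (-κ) * Real.log Y := add_le_add (hT.trans h4) hQb
    _ = _ := by ring

end Pool.Agent.Q286.SB
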