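import Pool.Agent.Q286.SB.Law

/-!
The converse of weighted universality, and rare returns.
-/

set_option autoImplicit false
set_option linter.all false

namespace Pool.Agent.Q286.SB

open Complex Filter Topology Set MeasureTheory ZU TH803TW
open Pool.Agent.Y834.UT (SS Tgt hull ld exists_hull_rect F_diff)
open Pool.Agent.Q286.UZ

/-- **The converse.** -/
theorem wconv {K : Set ℂ} (hK : IsCompact K) (hKs : ∀ z ∈ K, 1 / 2 < z.re ∧ z.re < 1)
    {f : ℂ → ℂ} (h : ∀ ε : ℝ, 0 < ε → ∃ κ : ℝ, 0 < κ ∧ ∀ T0 : ℝ, ∃ T ≥ T0,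
      κ * (T * Real.log T) ≤ (mu (SS ε K f ∩ Icc 0 T)).toReal) : Tgt K f := by
  obtain ⟨a, b, B, h1, h2, h3, h4, hR⟩ := exists_hull_rect hK hKs
  obtain ⟨C, δ, hC, hδ, hbad⟩ := bad_mu h1 h2 h3 h4 (show (0:ℝ) < 1 by norm_num)
  have hex : ∀ n : ℕ, ∃ t : ℝ, (∀ z ∈ K, ‖riemannZeta (z + t * I) - f z‖ ≤ 1 / ((n : ℝ) + 1)) ∧
      ∀ s ∈ rect a b B, riemannZeta (s + t * I) ≠ 0 := by
    intro n
    obtain ⟨κ, hκ, hk⟩ := h (1 / ((n : ℝ) + 1)) (by positivity)
    obtain ⟨M, hM1, hM⟩ := small_M C hδ (half_pos hκ)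
    obtain ⟨T1, hT1⟩ := eventually_atTop.1 (hbad M hM1)
    obtain ⟨T, hT, hkT⟩ := hk (max T1 2)
    have hTT := hT1 T ((le_max_left _ _).trans hT)
    have hT2 : 2 ≤ T := (le_max_right _ _).trans hT
    have hTL := TL_pos (show 1 < T by linarith)
    by_contra hcon
    push Not at hcon
    have hsub : SS (1 / ((n : ℝ) + 1)) K f ∩ Icc 0 T ⊆ {t : ℝ | t ∈ Icc 0 T ∧ Bad M a b B 1 t} := by
      rintro t ⟨⟨d, hd, ht⟩, htT⟩
      refine ⟨htT, ?_⟩
      obtain ⟨s, hs, h0⟩ := hcon t fun z hz => (ht z hz).trans hd.le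
      refine ⟨s, hs, ?_⟩
      unfold GG
      rw [h0, zero_mul, zero_sub, norm_neg, norm_one]
    have h5 := (measure_mono hsub).trans hTT
    have h6 : (mu (SS (1 / ((n : ℝ) + 1)) K f ∩ Icc 0 T)).toReal ≤
        C * (M : ℝ) ^ (-δ) * (T * Real.log T) :=
      ENNReal.toReal_le_of_le_ofReal (by positivity) h5
    have h7 : C * (M : ℝ) ^ (-δ) * (T * Real.log T) ≤ κ / 2 * (T * Real.log T) :=
      mul_le_mul_of_nonneg_right hM hTL.le
    have h8 : 0 < κ * (T * Real.log T) := by positivity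
    linarith
  choose t htK ht0 using hex
  obtain ⟨g, hgf, hgc, hgd, hgV⟩ := Pool.Agent.Y834.UT.limits hK
    (isOpen_lt continuous_re continuous_const)
    (fun z hz => (hR hz).2.1.trans_lt h3) f (fun n z => riemannZeta (z + t n * I))
    (fun n => F_diff (t n)) (fun n z hz => ht0 n z (hR hz)) htK
  exact ⟨g, hgf, hgc, hgd, fun z hz => hgV _ isOpen_interior.connectedComponentIn
      isPreconnected_connectedComponentIn (connectedComponentIn_subset _ _)⟩

/-- the set of shifts is open -/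
lemma SS_open {K : Set ℂ} (hK : IsCompact K) (hKs : ∀ z ∈ K, z.re < 1) (f : ℂ → ℂ) (ε : ℝ) :
    IsOpen (SS ε K f) := by
  rw [isOpen_iff_mem_nhds]
  rintro t ⟨δ, hδ, ht⟩
  have hc : ContinuousOn (Function.uncurry fun (t : ℝ) (z : ℂ) => riemannZeta (z + t * I))
      (univ ×ˢ K) := by
    rintro ⟨u, z⟩ ⟨-, hz⟩
    have hz1 : z + u * I ≠ 1 := by
      intro h
      have h5 : (z + u * I).re = z.re := by simp
      rw [h, one_re] at h5
      have := hKs z hz
      linarith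
    have h6 : ContinuousAt (fun p : ℝ × ℂ => riemannZeta (p.2 + p.1 * I)) (u, z) :=
      ContinuousAt.comp (g := riemannZeta) (f := fun p : ℝ × ℂ => p.2 + p.1 * I)
        (differentiableAt_riemannZeta hz1).continuousAt (by fun_prop)
    exact h6.continuousWithinAt
  obtain ⟨v, hv, hv2⟩ := hK.mem_uniformity_of_prod hc (mem_univ t)
    (Metric.dist_mem_uniformity (show 0 < (ε - δ) / 2 by linarith))
  rw [nhdsWithin_univ] at hv
  filter_upwards [hv] with u hu
  refine ⟨(ε + δ) / 2, by linarith, fun z hz => ?_⟩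
  have h7 := hv2 u hu z hz
  rw [Set.mem_setOf_eq, dist_eq_norm] at h7
  have e : riemannZeta (z + u * I) - f z = (riemannZeta (z + u * I) - riemannZeta (z + t * I)) +
      (riemannZeta (z + t * I) - f z) := by ring
  rw [e]
  refine (norm_add_le _ _).trans ?_
  have := ht z hz
  linarith

/-- returns near a zero are covered by a small set -/
theorem cover {K : Set ℂ} (hK : IsCompact K) (hKs : ∀ z ∈ K, 1 / 2 < z.re ∧ z.re < 1)
    {z0 : ℂ} (hz0 : z0 ∈ interior (hull K)) (hζ : riemannZeta z0 = 0) {δ : ℝ}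
    (hδ : δ < 4 / 3 * (z0.re - 1 / 2)) : ∃ ε : ℝ, 0 < ε ∧ ∀ᶠ T : ℝ in atTop,
      ∃ E : Set ℝ, MeasurableSet E ∧ SS ε K riemannZeta ∩ Icc 0 T ⊆ E ∧
        volume (E ∩ Icc 0 T) ≤ ENNReal.ofReal (T ^ (1 - δ)) := by
  classical
  obtain ⟨a, b, B, h1, h2, h3, h4, hR⟩ := exists_hull_rect hK hKs
  have hz0h : z0 ∈ hull K := interior_subset hz0
  have hx : 0 < z0.re - 1 / 2 := by
    have := h1.trans_le (hR hz0h).1
    linarith
  have hz01 : z0.re < 1 := (hR hz0h).2.1.trans_lt h3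
  -- constants
  obtain ⟨c, hc1, hc2, hc0⟩ : ∃ c : ℝ, δ < c * (z0.re - 1 / 2) ∧ c < 4 / 3 ∧ 0 < c := by
    have k1 : max (δ / (z0.re - 1 / 2)) 0 < 4 / 3 := by
      apply max_lt _ (by norm_num)
      rw [div_lt_iff₀ hx]
      exact hδ
    obtain ⟨c, hc, hc'⟩ := exists_between k1
    refine ⟨c, ?_, hc', (le_max_right _ _).trans_lt hc⟩
    have := (le_max_left (δ / (z0.re - 1 / 2)) 0).trans_lt hc
    rwa [div_lt_iff₀ hx] at this
  obtain ⟨r0, hr0, hr1, hr2⟩ : ∃ r0 : ℝ, 0 < r0 ∧ r0 ≤ z0.re - 1 / 2 ∧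
      δ < c * (z0.re - r0 - 1 / 2) := by
    refine ⟨min (z0.re - 1 / 2) ((c * (z0.re - 1 / 2) - δ) / (2 * c)), lt_min hx ?_,
      min_le_left _ _, ?_⟩
    · apply div_pos _ (by positivity)
      linarith
    · have k1 : min (z0.re - 1 / 2) ((c * (z0.re - 1 / 2) - δ) / (2 * c)) ≤
        (c * (z0.re - 1 / 2) - δ) / (2 * c) := min_le_right _ _
      have k2 := mul_le_mul_of_nonneg_left k1 hc0.le
      have k3 : c * ((c * (z0.re - 1 / 2) - δ) / (2 * c)) = (c * (z0.re - 1 / 2) - δ) / 2 := by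
        field_simp
      rw [k3] at k2
      have e : c * (z0.re - min (z0.re - 1 / 2) ((c * (z0.re - 1 / 2) - δ) / (2 * c)) - 1 / 2) =
        c * (z0.re - 1 / 2) - c * min (z0.re - 1 / 2) ((c * (z0.re - 1 / 2) - δ) / (2 * c)) := by
        ring
      rw [e]
      linarith
  obtain ⟨ε, hε, hnear⟩ := zero_near hK hKs hz0 hζ hr0
  set σ : ℝ := z0.re - r0 with hσ
  set R : ℝ := |z0.im| + r0 with hRR
  have hR0 : 0 < R := by positivity
  have hσ1 : 1 / 2 ≤ σ := by rw [hσ]; linarith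
  have hσ2 : σ ≤ 1 := by rw [hσ]; linarith
  obtain ⟨C2, hC2, hdens⟩ := Pool.Agent.Y24.density hc2
  set x : ℝ := c * (σ - 1 / 2) with hxd
  have hx0 : 0 ≤ x := mul_nonneg hc0.le (by linarith)
  have hx1 : x ≤ 1 := by
    rw [hxd]
    nlinarith
  have hxδ : δ < x := by rw [hxd, hσ]; exact hr2
  have hx1' : x < 1 := by
    rw [hxd]
    have : σ - 1 / 2 < 1 / 2 := by rw [hσ]; linarith
    nlinarith
  refine ⟨ε, hε, ?_⟩
  have ev1 := pow_log_absorb (2 * R * (C2 * (2 * 2))) 1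
    (show 1 - x < 1 - (x + δ) / 2 by linarith)
  have ev2 := pow_absorb (1 + R) (show 1 - (x + δ) / 2 < 1 - δ by linarith)
  have ev3 : ∀ᶠ T : ℝ in atTop, 1 ≤ T ^ (1 - (x + δ) / 2) :=
    (tendsto_rpow_atTop (by linarith)).eventually_ge_atTop 1
  filter_upwards [ev1, ev2, ev3, eventually_ge_atTop (R + 10)] with T ev1 ev2 ev3 hTR
  have hT10 : 10 ≤ T := by linarith
  have hT0 : 0 < T := by linarith
  have hTone : 1 ≤ T := by linarith
  have hL : 0 ≤ Real.log T := Real.log_nonneg hTone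
  have hfin := Pool.Agent.Y24.ZZ_fin σ (T + R)
  set W : Finset ℂ := hfin.toFinset with hW
  set E : Set ℝ := Icc 0 R ∪ ⋃ ρ ∈ W, Icc (ρ.im - R) (ρ.im + R) with hE
  have hEm : MeasurableSet E :=
    measurableSet_Icc.union (Finset.measurableSet_biUnion W fun _ _ => measurableSet_Icc)
  refine ⟨E, hEm, ?_, ?_⟩
  · rintro t ⟨ht, ht0, htT⟩
    rcases le_or_gt t R with h | h
    · exact Or.inl ⟨ht0, h⟩
    right
    obtain ⟨w, hw1, hw2⟩ := hnear t ht
    have hre := abs_le.1 ((Complex.abs_re_le_norm (w - z0)).trans hw1)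
    have him := abs_le.1 ((Complex.abs_im_le_norm (w - z0)).trans hw1)
    rw [Complex.sub_re] at hre
    rw [Complex.sub_im] at him
    have hz1 := neg_abs_le z0.im
    have hz2 := le_abs_self z0.im
    have e1 : (w + (t : ℂ) * I).im = w.im + t := by simp
    have e2 : (w + (t : ℂ) * I).re = w.re := by simp
    rw [Set.mem_iUnion₂]
    refine ⟨w + (t : ℂ) * I, ?_, ?_⟩
    · rw [hW, Set.Finite.mem_toFinset]
      refine ⟨hw2, ?_, ?_, ?_⟩
      · rw [e2, hσ]; linarith [hre.1]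
      · rw [e1]; linarith [him.1]
      · rw [e1]; linarith [him.2]
    · rw [e1]
      constructor <;> linarith [him.1, him.2]
  have hcard : (W.card : ℝ) ≤ C2 * (T + R) ^ (1 - x) * Real.log (T + R) := by
    have k1 := (hdens σ (T + R) hσ1 hσ2 (by linarith)).2
    rw [finsum_mem_eq_finite_toFinset_sum _ hfin] at k1
    refine le_trans ?_ k1
    rw [Finset.card_eq_sum_ones, Nat.cast_sum]
    refine Finset.sum_le_sum fun ρ hρ => ?_
    rw [Nat.cast_one]
    rw [hW, Set.Finite.mem_toFinset] at hρ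
    exact order_one hρ.1 hρ.2.2.1
  have hpow : (T + R) ^ (1 - x) ≤ 2 * T ^ (1 - x) := by
    calc (T + R) ^ (1 - x) ≤ (2 * T) ^ (1 - x) :=
          Real.rpow_le_rpow (by linarith) (by linarith) (by linarith)
      _ = 2 ^ (1 - x) * T ^ (1 - x) := Real.mul_rpow (by norm_num) (by linarith)
      _ ≤ 2 ^ (1 : ℝ) * T ^ (1 - x) := by
          apply mul_le_mul_of_nonneg_right _ (Real.rpow_nonneg (by linarith) _)
          exact Real.rpow_le_rpow_of_exponent_le (by norm_num) (by linarith)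
      _ = 2 * T ^ (1 - x) := by rw [Real.rpow_one]
  have hlog2 : Real.log (T + R) ≤ 2 * Real.log T := by
    have k1 : T + R ≤ T ^ 2 := by nlinarith
    calc Real.log (T + R) ≤ Real.log (T ^ 2) := Real.log_le_log (by linarith) k1
      _ = 2 * Real.log T := by rw [Real.log_pow]; norm_num
  have hcard2 : (W.card : ℝ) ≤ C2 * (2 * T ^ (1 - x)) * (2 * Real.log T) := by
    refine hcard.trans ?_
    apply mul_le_mul _ hlog2 (Real.log_nonneg (by linarith)) (by positivity)
    exact mul_le_mul_of_nonneg_left hpow hC2.le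
  have hvol : volume E ≤ ENNReal.ofReal (R + W.card * (2 * R)) := by
    rw [hE]
    refine (measure_union_le _ _).trans ?_
    rw [ENNReal.ofReal_add hR0.le (by positivity)]
    refine add_le_add ?_ ?_
    · rw [Real.volume_Icc, sub_zero]
    · refine (measure_biUnion_finset_le _ _).trans ?_
      rw [ENNReal.ofReal_mul (Nat.cast_nonneg _), ENNReal.ofReal_natCast, ← nsmul_eq_mul]
      refine Finset.sum_le_card_nsmul _ _ _ fun ρ _ => ?_
      rw [Real.volume_Icc]
      refine ENNReal.ofReal_le_ofReal (le_of_eq ?_)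
      ring
  refine (measure_mono inter_subset_left).trans (hvol.trans (ENNReal.ofReal_le_ofReal ?_))
  have h5 : (W.card : ℝ) * (2 * R) ≤ 2 * R * (C2 * (2 * 2)) * T ^ (1 - x) * Real.log T ^ 1 := by
    have := mul_le_mul_of_nonneg_right hcard2 (show 0 ≤ 2 * R by positivity)
    rw [pow_one]
    linarith
  have h6 : R ≤ R * T ^ (1 - (x + δ) / 2) := le_mul_of_one_le_right hR0.le ev3
  linarith

/-- **Zeros to the right of the critical line make returns rare**, weighted version -/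
theorem rare_mu {K : Set ℂ} (hK : IsCompact K) (hKs : ∀ z ∈ K, 1 / 2 < z.re ∧ z.re < 1)
    {z0 : ℂ} (hz0 : z0 ∈ interior (hull K)) (hζ : riemannZeta z0 = 0) {δ : ℝ}
    (hδ : δ < 2 / 3 * (z0.re - 1 / 2)) : ∃ ε : ℝ, 0 < ε ∧ ∀ᶠ T : ℝ in atTop,
      (mu (SS ε K riemannZeta ∩ Icc 0 T)).toReal ≤ T ^ (1 - δ) := by
  obtain ⟨δ2, hδ2, hδ3⟩ := exists_between (show 2 * δ < 4 / 3 * (z0.re - 1 / 2) by linarith)
  obtain ⟨ε, hε, h⟩ := cover hK hKs hz0 hζ hδ3
  refine ⟨ε, hε, ?_⟩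
  have ev1 := pow_log_absorb 1 2 (show 1 - δ2 / 2 < 1 - δ by linarith)
  filter_upwards [h, ev1, eventually_ge_atTop 1000] with T hT ev1 hT1
  obtain ⟨E, hEm, hsub, hvol⟩ := hT
  have hT0 : 0 < T := by linarith
  have h1 := rare_int hEm hT1 (show 0 < T ^ (1 - δ2) by positivity) hvol
  have h2 : mu (SS ε K riemannZeta ∩ Icc 0 T) ≤ ENNReal.ofReal (T ^ (1 - δ)) := by
    refine (measure_mono (show SS ε K riemannZeta ∩ Icc 0 T ⊆ E ∩ Icc 0 T from
      fun t ht => ⟨hsub ht, ht.2⟩)).trans ?_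
    rw [mu_eq (hEm.inter measurableSet_Icc) inter_subset_right]
    refine ENNReal.ofReal_le_ofReal (h1.trans ?_)
    have e1 : √(T ^ (1 - δ2) * T) = T ^ (1 - δ2 / 2) := by
      have e2 : T ^ (1 - δ2) * T = (T ^ (1 - δ2 / 2)) ^ 2 := by
        nth_rw 2 [← Real.rpow_one T]
        rw [← Real.rpow_add hT0, ← Real.rpow_natCast (T ^ (1 - δ2 / 2)) 2, ← Real.rpow_mul hT0.le]
        congr 1
        push_cast
        ring
      rw [e2, Real.sqrt_sq (by positivity)]
    rw [e1]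
    rw [one_mul] at ev1
    exact ev1
  exact ENNReal.toReal_le_of_le_ofReal (by positivity) h2

/-- the local criterion and the Riemann hypothesis -/
theorem rh_w : [RiemannHypothesis,
    ∀ K : Set ℂ, IsCompact K → (∀ z ∈ K, 1 / 2 < z.re ∧ z.re < 1) → ∀ ε : ℝ, 0 < ε →
      0 < WD K riemannZeta ε,
    ∀ (z0 : ℂ) (r : ℝ), 0 < r → (∀ z ∈ Metric.closedBall z0 r, 1 / 2 < z.re ∧ z.re < 1) →
      ∀ ε : ℝ, 0 < ε → ∀ δ : ℝ, 0 < δ → ∀ T0 : ℝ, ∃ T ≥ T0, T ^ (1 - δ) <
        (mu (SS ε (Metric.closedBall z0 r) riemannZeta ∩ Icc 0 T)).toReal].TFAE := by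
  tfae_have 1 → 2 := by
    intro h K hK hKs ε hε
    refine wpos hK hKs (tgt_zeta hK hKs fun z hz => ?_) hε
    obtain ⟨a, b, B, h1, h2, h3, h4, hR⟩ := exists_hull_rect hK hKs
    exact rh_iff.1 h z (h1.trans_le (hR (interior_subset hz)).1)
  tfae_have 2 → 3 := by
    intro h z0 r hr hs ε hε δ hδ T0
    have hK := isCompact_closedBall z0 r
    have hp := h _ hK hs (ε / 2) (half_pos hε)
    set D := WD (Metric.closedBall z0 r) riemannZeta (ε / 2) with hD
    have h1 := wlaws hK hs riemannZeta (half_pos hε) (half_lt_self hε) (half_pos hp)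
    have h2 := pow_absorb (2 / D) (show 1 - δ < 1 by linarith)
    obtain ⟨T, ⟨⟨k1, k2⟩, k3⟩, k4⟩ := (((h1.and h2).and (eventually_ge_atTop T0)).and
      (eventually_gt_atTop (Real.exp 1))).exists
    have hT1 : 1 < T := lt_trans (by
      have := Real.add_one_lt_exp (show (1:ℝ) ≠ 0 by norm_num)
      linarith) k4
    have hT0 : 0 < T := by linarith
    have hlog : 1 < Real.log T := by
      rw [Real.lt_log_iff_exp_lt hT0]
      exact k4
    refine ⟨T, k3, ?_⟩
    have hTL := TL_pos hT1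
    have k5 := (ENNReal.ofReal_le_iff_le_toReal (mu_ne_top _ T)).1 k1.2
    refine lt_of_lt_of_le ?_ k5
    rw [Real.rpow_one, div_mul_eq_mul_div, div_le_iff₀ hp] at k2
    have k6 : T * D < T * Real.log T * D := by
      apply mul_lt_mul_of_pos_right _ hp
      nlinarith
    nlinarith
  tfae_have 3 → 1 := by
    intro h
    rw [rh_iff]
    intro s hs h0
    have hs1 : s.re < 1 := by
      by_contra hcon
      exact riemannZeta_ne_zero_of_one_le_re (not_lt.1 hcon) h0
    obtain ⟨r, hr, hr1, hr2⟩ : ∃ r : ℝ, 0 < r ∧ r < s.re - 1 / 2 ∧ r < 1 - s.re := by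
      refine ⟨min (s.re - 1 / 2) (1 - s.re) / 2, ?_, ?_, ?_⟩
      · have : 0 < min (s.re - 1 / 2) (1 - s.re) := lt_min (by linarith) (by linarith)
        linarith
      · have h5 : 0 < min (s.re - 1 / 2) (1 - s.re) := lt_min (by linarith) (by linarith)
        have := min_le_left (s.re - 1 / 2) (1 - s.re)
        linarith
      · have h5 : 0 < min (s.re - 1 / 2) (1 - s.re) := lt_min (by linarith) (by linarith)
        have := min_le_right (s.re - 1 / 2) (1 - s.re)
        linarith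
    have hKs : ∀ z ∈ Metric.closedBall s r, 1 / 2 < z.re ∧ z.re < 1 := by
      intro z hz
      rw [Metric.mem_closedBall, dist_eq_norm] at hz
      have := abs_le.1 ((Complex.abs_re_le_norm (z - s)).trans hz)
      rw [Complex.sub_re] at this
      constructor <;> linarith [this.1, this.2]
    have hd : 0 < 1 / 3 * (s.re - 1 / 2) := by
      have : 0 < s.re - 1 / 2 := by linarith
      positivity
    obtain ⟨ε, hε, h5⟩ := rare_mu (isCompact_closedBall s r) hKs (disc_int hr) h0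
      (δ := 1 / 3 * (s.re - 1 / 2)) (by linarith)
    obtain ⟨T1, hT1⟩ := eventually_atTop.1 h5
    obtain ⟨T, hT, h6⟩ := h s r hr hKs ε hε _ hd T1
    have h7 := hT1 T hT
    linarith
  tfae_finish

end Pool.Agent.Q286.SB
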