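import Pool.Agent.Q286.SB.Bad
import Pool.Agent.Q286.UZ.Rec
import Pool.Agent.Helper256.KM.Mertens

/-!
Universality for the measure `|ζ(1/2 + it)|² dt`.
-/

set_option autoImplicit false
set_option linter.all false

namespace Pool.Agent.Q286.SB

open Complex Filter Topology Set MeasureTheory ZU TH803TW
open Pool.Agent.Y834.UT (SS Tgt hull ld)
open Pool.Agent.Q286.UZ

lemma mu_ne_top (E : Set ℝ) (T : ℝ) : mu (E ∩ Icc 0 T) ≠ ⊤ := by
  refine ((measure_mono inter_subset_right).trans_lt ?_).ne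
  rw [mu_eq measurableSet_Icc subset_rfl]
  exact ENNReal.ofReal_lt_top

lemma mu_le_int {φ : ℝ → ℝ} (hc : Continuous φ) (h0 : ∀ t, 0 ≤ φ t) {S : Set ℝ}
    (hS : MeasurableSet S) (h : ∀ t ∈ S, 1 ≤ φ t) {T : ℝ} (hT : 0 ≤ T) :
    mu (S ∩ Icc 0 T) ≤ ENNReal.ofReal (∫ t in (0 : ℝ)..T, zz t * φ t) := by
  rw [mu_eq (hS.inter measurableSet_Icc) inter_subset_right]
  refine ENNReal.ofReal_le_ofReal ?_
  rw [intervalIntegral.integral_of_le hT, ← integral_Icc_eq_integral_Ioc]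
  have i1 : IntegrableOn zz (S ∩ Icc 0 T) :=
    (zz_cont.continuousOn.integrableOn_compact isCompact_Icc).mono_set inter_subset_right
  have i2 : IntegrableOn (fun t => zz t * φ t) (Icc 0 T) :=
    (zz_cont.mul hc).continuousOn.integrableOn_compact isCompact_Icc
  calc ∫ t in S ∩ Icc 0 T, zz t ≤ ∫ t in S ∩ Icc 0 T, zz t * φ t := by
        refine setIntegral_mono_on i1 (i2.mono_set inter_subset_right) (hS.inter measurableSet_Icc)
          fun t ht => ?_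
        have := mul_le_mul_of_nonneg_left (h t ht.1) (zz_nonneg t)
        rwa [mul_one] at this
    _ ≤ ∫ t in Icc 0 T, zz t * φ t := setIntegral_mono_set i2
        (Eventually.of_forall fun t => mul_nonneg (zz_nonneg t) (h0 t)) (ae_of_all _ fun t ht => ht.2)

lemma int_le_mu {φ : ℝ → ℝ} (hc : Continuous φ) (h1 : ∀ t, φ t ≤ 1) {S : Set ℝ}
    (hS : MeasurableSet S) (h : ∀ t, t ∉ S → φ t ≤ 0) {T : ℝ} (hT : 0 ≤ T) :
    ENNReal.ofReal (∫ t in (0 : ℝ)..T, zz t * φ t) ≤ mu (S ∩ Icc 0 T) := by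
  rw [mu_eq (hS.inter measurableSet_Icc) inter_subset_right]
  refine ENNReal.ofReal_le_ofReal ?_
  rw [intervalIntegral.integral_of_le hT, ← integral_Icc_eq_integral_Ioc]
  have i0 : IntegrableOn zz (Icc 0 T) := zz_cont.continuousOn.integrableOn_compact isCompact_Icc
  have i2 : IntegrableOn (fun t => zz t * φ t) (Icc 0 T) :=
    (zz_cont.mul hc).continuousOn.integrableOn_compact isCompact_Icc
  rw [inter_comm, ← setIntegral_indicator hS]
  refine setIntegral_mono_on i2 (i0.indicator hS) measurableSet_Icc fun t _ => ?_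
  by_cases ht : t ∈ S
  · rw [Set.indicator_of_mem ht]
    have := mul_le_mul_of_nonneg_left (h1 t) (zz_nonneg t)
    rwa [mul_one] at this
  · rw [Set.indicator_of_notMem ht]
    exact mul_nonpos_of_nonneg_of_nonpos (zz_nonneg t) (h t ht)

/-- the sandwich -/
theorem sand {K : Set ℂ} {a b B : ℝ} (h1 : 1 / 2 < a) (hK : K ⊆ rect a b B) {f : ℂ → ℂ} {Cf : ℝ}
    (hCf0 : 0 ≤ Cf) (hCf : ∀ s ∈ K, ‖f s‖ ≤ Cf) {ε1 ε2 : ℝ} (hε1 : 0 < ε1) (h12 : ε1 < ε2) :
    ∃ θ : ℝ, 0 < θ ∧ ∀ M : ℕ, ∃ g : C(UnitAddTorus (Fin (kk M)), ℝ),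
      (∀ x, 0 ≤ g x) ∧ (∀ x, g x ≤ 1) ∧
      (∀ t ∈ SS ε1 K f, 1 ≤ g (tP M t) ∨ Bad M a b B θ t) ∧
      (∀ t, 0 < g (tP M t) → t ∈ SS ε2 K f ∨ Bad M a b B θ t) := by
  have ha : 0 < a := by linarith
  set e1 : ℝ := ε1 + (ε2 - ε1) / 3 with he1
  set e2 : ℝ := ε1 + 2 * (ε2 - ε1) / 3 with he2
  have hd : 0 < ε2 - ε1 := by linarith
  have hee : e1 < e2 := by rw [he1, he2]; linarith
  have he20 : 0 < e2 := by rw [he2]; linarith
  obtain ⟨θ, hθ, hθ1, hθ2, hθ3⟩ : ∃ θ : ℝ, 0 < θ ∧ θ ≤ 1 / 2 ∧ 2 * (Cf + ε1) * θ ≤ e1 - ε1 ∧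
      (Cf + e2) * θ < ε2 - e2 := by
    have hε2 : 0 < ε2 := by linarith
    have hW : 0 < Cf + ε2 + 1 := by positivity
    obtain ⟨d, hdd⟩ : ∃ d : ℝ, d = ε2 - ε1 := ⟨_, rfl⟩
    have hd0 : 0 < d := by rw [hdd]; exact hd
    have k0 : 0 < min (1 / 2) (d / (12 * (Cf + ε2 + 1))) := lt_min (by norm_num) (by positivity)
    have k1 : (Cf + ε2 + 1) * min (1 / 2) (d / (12 * (Cf + ε2 + 1))) ≤ d / 12 := by
      refine (mul_le_mul_of_nonneg_left (min_le_right _ _) hW.le).trans (le_of_eq ?_)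
      field_simp
    refine ⟨min (1 / 2) (d / (12 * (Cf + ε2 + 1))), k0, min_le_left _ _, ?_, ?_⟩
    · have k2 : (Cf + ε1) * min (1 / 2) (d / (12 * (Cf + ε2 + 1))) ≤
          (Cf + ε2 + 1) * min (1 / 2) (d / (12 * (Cf + ε2 + 1))) :=
        mul_le_mul_of_nonneg_right (by linarith) k0.le
      have k3 : e1 - ε1 = d / 3 := by rw [he1, hdd]; ring
      rw [k3]
      linarith
    · have k2 : (Cf + e2) * min (1 / 2) (d / (12 * (Cf + ε2 + 1))) ≤
          (Cf + ε2 + 1) * min (1 / 2) (d / (12 * (Cf + ε2 + 1))) := by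
        refine mul_le_mul_of_nonneg_right ?_ k0.le
        rw [he2]
        linarith
      have k3 : ε2 - e2 = d / 3 := by rw [he2, hdd]; ring
      rw [k3]
      linarith
  refine ⟨θ, hθ, fun M => ?_⟩
  obtain ⟨g, hg0, hg1, hgC, hgO⟩ := ury M ha hK f hee
  refine ⟨g, hg0, hg1, fun t ht => ?_, fun t ht => ?_⟩
  · by_cases hb : Bad M a b B θ t
    · exact Or.inr hb
    · exact Or.inl (hgC _ (trans1 ha hK hCf hθ hθ1 hε1 hCf0 hθ2 hb ht)).ge
  · by_cases hb : Bad M a b B θ t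
    · exact Or.inr hb
    · refine Or.inl (trans2 ha hK hCf hθ he20 hCf0 hθ3 hb ?_)
      by_contra hcon
      have := hgO _ hcon
      unfold tP at ht
      linarith

/-- **The key comparison.** -/
theorem keyM {K : Set ℂ} {a b B : ℝ} (h1 : 1 / 2 < a) (h2 : a ≤ b) (h3 : b < 1) (hB : 0 < B)
    (hK : K ⊆ rect a b B) {f : ℂ → ℂ} {Cf : ℝ} (hCf0 : 0 ≤ Cf) (hCf : ∀ s ∈ K, ‖f s‖ ≤ Cf)
    {ε1 ε2 : ℝ} (hε1 : 0 < ε1) (h12 : ε1 < ε2) :
    ∃ C δ θ : ℝ, 0 < C ∧ 0 < δ ∧ 0 < θ ∧ ∀ M : ℕ, 1 ≤ M →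
      ∃ g : C(UnitAddTorus (Fin (kk M)), ℝ), (∀ x, 0 ≤ g x) ∧ (∀ x, g x ≤ 1) ∧
      (∀ t ∈ SS ε1 K f, 1 ≤ g (tP M t) ∨ Bad M a b B θ t) ∧
      ∀ η : ℝ, 0 < η → ∀ᶠ T : ℝ in atTop,
        mu (SS ε1 K f ∩ Icc 0 T) ≤
          ENNReal.ofReal ((mW M g + C * (M : ℝ) ^ (-δ) + η) * (T * Real.log T)) ∧
        ENNReal.ofReal ((mW M g - C * (M : ℝ) ^ (-δ) - η) * (T * Real.log T)) ≤
          mu (SS ε2 K f ∩ Icc 0 T) := by
  obtain ⟨θ, hθ, hs⟩ := sand h1 hK hCf0 hCf hε1 h12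
  obtain ⟨C, δ, hC, hδ, hbad⟩ := bad_mu h1 h2 h3 hB hθ
  refine ⟨C, δ, θ, hC, hδ, hθ, fun M hM => ?_⟩
  obtain ⟨g, hg0, hg1, hgs, hgt⟩ := hs M
  refine ⟨g, hg0, hg1, hgs, fun η hη => ?_⟩
  have hm0 : 0 ≤ mW M g := integral_nonneg fun x =>
    mul_nonneg (hg0 x) (PT_pos (rr_nonneg M) (rr_lt M) x).le
  set φ : ℝ → ℝ := fun t => g (tP M t) with hφ
  have hφc : Continuous φ := g.continuous.comp (tP_cont M)
  have hClm : MeasurableSet {t : ℝ | 1 ≤ φ t} := (isClosed_le continuous_const hφc).measurableSet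
  have hOpm : MeasurableSet {t : ℝ | 0 < φ t} := (isOpen_lt continuous_const hφc).measurableSet
  filter_upwards [hbad M hM, torus_int M g hη, eventually_ge_atTop 1] with T b1 b3 hT1
  have hT0 : 0 < T := by linarith
  have hTL : 0 ≤ T * Real.log T := mul_nonneg hT0.le (Real.log_nonneg hT1)
  have hMp : (0:ℝ) ≤ C * (M : ℝ) ^ (-δ) * (T * Real.log T) := by positivity
  have b4 := abs_le.1 b3
  have hφI : 0 ≤ ∫ t in (0:ℝ)..T, zz t * φ t :=
    intervalIntegral.integral_nonneg hT0.le fun t _ => mul_nonneg (zz_nonneg t) (hg0 _)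
  constructor
  · have k1 : SS ε1 K f ∩ Icc 0 T ⊆ ({t : ℝ | 1 ≤ φ t} ∩ Icc 0 T) ∪
        {t : ℝ | t ∈ Icc 0 T ∧ Bad M a b B θ t} := by
      rintro t ⟨ht, htT⟩
      rcases hgs t ht with h | h
      · exact Or.inl ⟨h, htT⟩
      · exact Or.inr ⟨htT, h⟩
    have k2 := mu_le_int hφc (fun t => hg0 _) hClm (fun t ht => ht) hT0.le
    refine (measure_mono k1).trans ((measure_union_le _ _).trans ?_)
    refine (add_le_add k2 b1).trans ?_
    rw [← ENNReal.ofReal_add hφI hMp]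
    apply ENNReal.ofReal_le_ofReal
    have h5 : (∫ t in (0:ℝ)..T, zz t * φ t) ≤ mW M g * (T * Real.log T) + η * (T * Real.log T) := by
      have := b4.2
      linarith
    nlinarith
  · have k1 : {t : ℝ | 0 < φ t} ∩ Icc 0 T ⊆ (SS ε2 K f ∩ Icc 0 T) ∪
        {t : ℝ | t ∈ Icc 0 T ∧ Bad M a b B θ t} := by
      rintro t ⟨ht, htT⟩
      rcases hgt t ht with h | h
      · exact Or.inl ⟨h, htT⟩
      · exact Or.inr ⟨htT, h⟩
    have k2 := int_le_mu hφc (fun t => hg1 _) hOpm (fun t ht => not_lt.1 ht) hT0.le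
    have k3 := k2.trans ((measure_mono k1).trans ((measure_union_le _ _).trans
      (add_le_add le_rfl b1)))
    have hV := mu_ne_top (SS ε2 K f) T
    have k4 := ENNReal.toReal_mono (ENNReal.add_ne_top.2 ⟨hV, ENNReal.ofReal_ne_top⟩) k3
    rw [ENNReal.toReal_ofReal hφI, ENNReal.toReal_add hV ENNReal.ofReal_ne_top,
      ENNReal.toReal_ofReal hMp] at k4
    refine ENNReal.ofReal_le_of_le_toReal ?_
    have h5 := b4.1
    have h6 : (mW M g - C * (M : ℝ) ^ (-δ) - η) * (T * Real.log T) = mW M g * (T * Real.log T) -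
      C * (M : ℝ) ^ (-δ) * (T * Real.log T) - η * (T * Real.log T) := by ring
    rw [h6]
    linarith

/-- the lower density for the measure `|ζ(1/2 + it)|² dt` -/
noncomputable def wd (E : Set ℝ) : ENNReal :=
  liminf (fun T : ℝ => mu (E ∩ Icc 0 T) / ENNReal.ofReal (T * Real.log T)) atTop

noncomputable def WD (K : Set ℂ) (f : ℂ → ℂ) (ε : ℝ) : ℝ := (wd (SS ε K f)).toReal

lemma TL_pos {T : ℝ} (hT : 1 < T) : 0 < T * Real.log T :=
  mul_pos (by linarith) (Real.log_pos hT)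

lemma total_le : ∀ᶠ T : ℝ in atTop, ∫ t in (0:ℝ)..T, zz t ≤ 2 * (T * Real.log T) := by
  have h := torus_int 0 ⟨fun _ => 1, continuous_const⟩ one_pos
  have e : mW 0 (⟨fun _ => 1, continuous_const⟩ : C(UnitAddTorus (Fin (kk 0)), ℝ)) = 1 := by
    unfold mW
    simp only [ContinuousMap.coe_mk, one_mul]
    exact int_PT (rr_nonneg 0) (rr_lt 0)
  rw [e] at h
  filter_upwards [h] with T hT
  simp only [ContinuousMap.coe_mk, mul_one] at hT
  have := (abs_le.1 hT).2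
  linarith

lemma wd_upper {E : Set ℝ} {m : ℝ} (hm : 0 ≤ m) (h : ∀ᶠ T : ℝ in atTop,
    mu (E ∩ Icc 0 T) ≤ ENNReal.ofReal (m * (T * Real.log T))) : wd E ≤ ENNReal.ofReal m := by
  unfold wd
  refine liminf_le_of_le (by isBoundedDefault) ?_
  intro b hb
  obtain ⟨T, ⟨hT, hT0⟩, hTT⟩ := ((hb.and (eventually_gt_atTop (1 : ℝ))).and h).exists
  refine hT.trans ?_
  have hTL := TL_pos hT0
  rw [ENNReal.div_le_iff (ENNReal.ofReal_pos.2 hTL).ne' ENNReal.ofReal_ne_top,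
    ← ENNReal.ofReal_mul hm]
  exact hTT

lemma wd_ne_top (E : Set ℝ) : wd E ≠ ⊤ := by
  refine ((wd_upper (m := 2) (by norm_num) ?_).trans_lt ENNReal.ofReal_lt_top).ne
  filter_upwards [total_le, eventually_gt_atTop 0] with T hT hT0
  refine (measure_mono inter_subset_right).trans ?_
  rw [mu_eq measurableSet_Icc subset_rfl]
  refine ENNReal.ofReal_le_ofReal ?_
  rw [integral_Icc_eq_integral_Ioc, ← intervalIntegral.integral_of_le hT0.le]
  exact hT

lemma WD_nonneg (K : Set ℂ) (f : ℂ → ℂ) (ε : ℝ) : 0 ≤ WD K f ε := ENNReal.toReal_nonneg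

lemma WD_upper {K : Set ℂ} {f : ℂ → ℂ} {ε m : ℝ} (hm : 0 ≤ m) (h : ∀ᶠ T : ℝ in atTop,
    mu (SS ε K f ∩ Icc 0 T) ≤ ENNReal.ofReal (m * (T * Real.log T))) : WD K f ε ≤ m :=
  ENNReal.toReal_le_of_le_ofReal hm (wd_upper hm h)

lemma WD_lower {K : Set ℂ} {f : ℂ → ℂ} {ε m : ℝ} (h : ∀ᶠ T : ℝ in atTop,
    ENNReal.ofReal (m * (T * Real.log T)) ≤ mu (SS ε K f ∩ Icc 0 T)) : m ≤ WD K f ε := by
  rcases le_or_gt m 0 with hm | hm
  · exact hm.trans ENNReal.toReal_nonneg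
  unfold WD
  rw [← ENNReal.ofReal_le_iff_le_toReal (wd_ne_top _)]
  unfold wd
  refine le_liminf_of_le (by isBoundedDefault) ?_
  filter_upwards [h, eventually_gt_atTop 1] with T hTT hT0
  have hTL := TL_pos hT0
  rw [ENNReal.le_div_iff_mul_le (Or.inl (ENNReal.ofReal_pos.2 hTL).ne')
    (Or.inl ENNReal.ofReal_ne_top), ← ENNReal.ofReal_mul hm.le]
  exact hTT

lemma SS_mono {K : Set ℂ} {f : ℂ → ℂ} {ε ε' : ℝ} (h : ε ≤ ε') : SS ε K f ⊆ SS ε' K f := by
  rintro t ⟨δ, hδ, ht⟩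
  exact ⟨δ, hδ.trans_le h, ht⟩

lemma WD_mono (K : Set ℂ) (f : ℂ → ℂ) : Monotone (WD K f) := by
  intro ε ε' h
  refine ENNReal.toReal_mono (wd_ne_top _) (liminf_le_liminf ?_)
  refine Eventually.of_forall fun T => ?_
  exact ENNReal.div_le_div_right (measure_mono (inter_subset_inter_left _ (SS_mono h))) _

lemma WD_le_one (K : Set ℂ) (f : ℂ → ℂ) (ε : ℝ) : WD K f ε ≤ 1 := by
  refine le_of_forall_pos_le_add fun η hη => ?_
  have h := torus_int 0 ⟨fun _ => 1, continuous_const⟩ hη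
  have e : mW 0 (⟨fun _ => 1, continuous_const⟩ : C(UnitAddTorus (Fin (kk 0)), ℝ)) = 1 := by
    unfold mW
    simp only [ContinuousMap.coe_mk, one_mul]
    exact int_PT (rr_nonneg 0) (rr_lt 0)
  rw [e] at h
  refine WD_upper (by positivity) ?_
  filter_upwards [h, eventually_gt_atTop 0] with T hT hT0
  refine (measure_mono inter_subset_right).trans ?_
  rw [mu_eq measurableSet_Icc subset_rfl]
  refine ENNReal.ofReal_le_ofReal ?_
  rw [integral_Icc_eq_integral_Ioc, ← intervalIntegral.integral_of_le hT0.le]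
  simp only [ContinuousMap.coe_mk, mul_one] at hT
  have := (abs_le.1 hT).2
  linarith

/-- the exceptional contribution can be made small -/
lemma small_M (C : ℝ) {δ η : ℝ} (hδ : 0 < δ) (hη : 0 < η) : ∃ M : ℕ, 1 ≤ M ∧
    C * (M : ℝ) ^ (-δ) ≤ η := by
  have h := ((tendsto_rpow_neg_atTop hδ).comp tendsto_natCast_atTop_atTop).const_mul C
  rw [mul_zero] at h
  obtain ⟨M, hM, hM1⟩ := ((h.eventually_le_const hη).and (eventually_ge_atTop 1)).exists
  exact ⟨M, hM1, hM⟩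

/-- **The laws.** -/
theorem wlaws {K : Set ℂ} (hK : IsCompact K) (hKs : ∀ z ∈ K, 1 / 2 < z.re ∧ z.re < 1)
    (f : ℂ → ℂ) {ε1 ε2 η : ℝ} (hε1 : 0 < ε1) (h12 : ε1 < ε2) (hη : 0 < η) :
    ∀ᶠ T : ℝ in atTop,
      mu (SS ε1 K f ∩ Icc 0 T) ≤ ENNReal.ofReal ((WD K f ε2 + η) * (T * Real.log T)) ∧
      ENNReal.ofReal ((WD K f ε1 - η) * (T * Real.log T)) ≤ mu (SS ε2 K f ∩ Icc 0 T) := by
  rcases dichot hK hKs f with ⟨Cf, hCf0, hCf⟩ | hemp
  · obtain ⟨a, b, B, h1, h2, h3, h4, hR⟩ := ZU.J_f.exists_rectV K hK hKs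
    obtain ⟨C, δ, θ, hC, hδ, hθ, h⟩ := keyM h1 h2 h3 h4 hR hCf0 hCf hε1 h12
    obtain ⟨M, hM1, hM⟩ := small_M C hδ (show 0 < η / 4 by positivity)
    obtain ⟨g, hg0, hg1, -, hg⟩ := h M hM1
    have hm0 : 0 ≤ mW M g := integral_nonneg fun x =>
      mul_nonneg (hg0 x) (PT_pos (rr_nonneg M) (rr_lt M) x).le
    have hM0 : 0 ≤ C * (M : ℝ) ^ (-δ) := by positivity
    have h5 := hg (η / 4) (by positivity)
    have d1 : WD K f ε1 ≤ mW M g + C * (M : ℝ) ^ (-δ) + η / 4 :=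
      WD_upper (by positivity) (h5.mono fun T hT => hT.1)
    have d2 : mW M g - C * (M : ℝ) ^ (-δ) - η / 4 ≤ WD K f ε2 :=
      WD_lower (h5.mono fun T hT => hT.2)
    filter_upwards [h5, eventually_gt_atTop 1] with T hT hT1
    have hTL := (TL_pos hT1).le
    refine ⟨hT.1.trans (ENNReal.ofReal_le_ofReal ?_), (ENNReal.ofReal_le_ofReal ?_).trans hT.2⟩
    · exact mul_le_mul_of_nonneg_right (by linarith) hTL
    · exact mul_le_mul_of_nonneg_right (by linarith) hTL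
  · have hD : ∀ ε, WD K f ε = 0 := by
      intro ε
      refine le_antisymm ?_ (WD_nonneg _ _ _)
      refine WD_upper le_rfl (Eventually.of_forall fun T => ?_)
      rw [hemp ε]
      simp
    filter_upwards [eventually_gt_atTop 1] with T hT1
    have hTL := (TL_pos hT1).le
    rw [hD, hD]
    refine ⟨?_, ?_⟩
    · rw [hemp ε1]
      simp
    · rw [ENNReal.ofReal_of_nonpos (by nlinarith)]
      exact zero_le

/-- the limit at the points of continuity -/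
theorem wlimits {K : Set ℂ} (hK : IsCompact K) (hKs : ∀ z ∈ K, 1 / 2 < z.re ∧ z.re < 1)
    (f : ℂ → ℂ) {ε : ℝ} (hε : 0 < ε) (hc : ContinuousAt (WD K f) ε) :
    Tendsto (fun T : ℝ => (mu (SS ε K f ∩ Icc 0 T)).toReal / (T * Real.log T)) atTop
      (𝓝 (WD K f ε)) := by
  have hex : ∀ η : ℝ, 0 < η → ∃ ε1 ε2 : ℝ, 0 < ε1 ∧ ε1 < ε ∧ ε < ε2 ∧
      WD K f ε - η < WD K f ε1 ∧ WD K f ε2 < WD K f ε + η := by
    intro η hη
    obtain ⟨δ, hδ, h⟩ := Metric.continuousAt_iff.1 hc η hη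
    have h1 : dist (ε + δ / 2) ε < δ := by
      rw [Real.dist_eq, add_sub_cancel_left, abs_of_pos (by positivity)]
      linarith
    set ρ := min (δ / 2) (ε / 2) with hρ
    have hρ0 : 0 < ρ := lt_min (by positivity) (by positivity)
    have hρ1 : ρ ≤ δ / 2 := min_le_left _ _
    have hρ2 : ρ ≤ ε / 2 := min_le_right _ _
    have h2 : dist (ε - ρ) ε < δ := by
      rw [Real.dist_eq, sub_sub_cancel_left, abs_neg, abs_of_pos hρ0]
      linarith
    have h3 := h h1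
    have h4 := h h2
    rw [Real.dist_eq, abs_lt] at h3 h4
    exact ⟨ε - ρ, ε + δ / 2, by linarith, by linarith, by linarith, by linarith [h4.1],
      by linarith [h3.2]⟩
  rw [Metric.tendsto_nhds]
  intro η hη
  obtain ⟨ε1, ε2, k0, k1, k2, k3, k4⟩ := hex (η / 4) (by positivity)
  filter_upwards [wlaws hK hKs f k0 k1 (show 0 < η / 4 by positivity),
    wlaws hK hKs f hε k2 (show 0 < η / 4 by positivity), eventually_gt_atTop 1]
    with T h1 h2 hT1
  have hTL := TL_pos hT1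
  have a1 := h1.2
  have a2 := h2.1
  have hV := mu_ne_top (SS ε K f) T
  have b1 : (WD K f ε1 - η / 4) * (T * Real.log T) ≤ (mu (SS ε K f ∩ Icc 0 T)).toReal := by
    rcases le_or_gt ((WD K f ε1 - η / 4) * (T * Real.log T)) 0 with h | h
    · exact h.trans ENNReal.toReal_nonneg
    · exact (ENNReal.ofReal_le_iff_le_toReal hV).1 a1
  have b2 : (mu (SS ε K f ∩ Icc 0 T)).toReal ≤ (WD K f ε2 + η / 4) * (T * Real.log T) := by
    refine ENNReal.toReal_le_of_le_ofReal ?_ a2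
    have := WD_nonneg K f ε2
    positivity
  rw [Real.dist_eq, abs_lt]
  constructor
  · rw [lt_sub_iff_add_lt, lt_div_iff₀ hTL]
    refine lt_of_lt_of_le ?_ b1
    apply mul_lt_mul_of_pos_right _ hTL
    linarith
  · rw [sub_lt_iff_lt_add, div_lt_iff₀ hTL]
    refine lt_of_le_of_lt b2 ?_
    apply mul_lt_mul_of_pos_right _ hTL
    linarith

/-- the product over the primes `≤ M` -/
lemma prod_bound : ∃ C : ℝ, 0 < C ∧ ∀ M : ℕ, 3 ≤ M →
    ∏ j : Fin (kk M), (1 + rr M j ^ 2) / (1 - rr M j ^ 2) ≤ C * Real.log M ^ 3 := by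
  obtain ⟨C0, hC0⟩ := Pool.Agent.Helper256.KM.mertens_inv
  refine ⟨Real.exp (3 * C0), Real.exp_pos _, fun M hM => ?_⟩
  have hM3 : (3:ℝ) ≤ M := by exact_mod_cast hM
  have hL : 1 < Real.log M := by
    rw [Real.lt_log_iff_exp_lt (by linarith)]
    have := Real.exp_one_lt_d9
    linarith
  have h1 : ∀ x : ℝ, 0 ≤ x → x ≤ 1 / 2 → (1 + x) / (1 - x) ≤ Real.exp (3 * x) := by
    intro x h0 h1
    rw [div_le_iff₀ (by linarith)]
    have e1 := Real.add_one_le_exp x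
    have e2 := Real.add_one_le_exp (2 * x)
    have e3 : Real.exp (3 * x) = Real.exp x * Real.exp (2 * x) := by
      rw [← Real.exp_add]; ring_nf
    have e4 : 1 ≤ Real.exp (2 * x) * (1 - x) := by
      have : (2 * x + 1) * (1 - x) ≤ Real.exp (2 * x) * (1 - x) :=
        mul_le_mul_of_nonneg_right e2 (by linarith)
      nlinarith
    rw [e3, mul_assoc]
    calc 1 + x ≤ Real.exp x * 1 := by linarith
      _ ≤ Real.exp x * (Real.exp (2 * x) * (1 - x)) :=
          mul_le_mul_of_nonneg_left e4 (Real.exp_pos _).le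
  have h2 : ∏ j : Fin (kk M), (1 + rr M j ^ 2) / (1 - rr M j ^ 2) ≤
      ∏ j : Fin (kk M), Real.exp (3 * (1 / (pp M j : ℝ))) := by
    refine Finset.prod_le_prod (fun j _ => ?_) fun j _ => ?_
    · have k1 := rr_lt M j
      have k0 := rr_nonneg M j
      have : rr M j ^ 2 < 1 := by nlinarith
      exact div_nonneg (by positivity) (by linarith)
    · rw [rr_sq]
      have hp : (2:ℝ) ≤ pp M j := by exact_mod_cast (pp_prime M j).two_le
      refine h1 _ (by positivity) ?_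
      exact one_div_le_one_div_of_le (by norm_num) hp
  refine h2.trans ?_
  rw [← Real.exp_sum, ← Finset.mul_sum]
  have h3 : ∑ j : Fin (kk M), (1:ℝ) / (pp M j : ℝ) = ∑ p ∈ pr M, (1:ℝ) / p := by
    rw [← Finset.sum_coe_sort (pr M) (fun p => (1:ℝ) / (p : ℝ))]
    exact Equiv.sum_comp (ee M).symm (fun p : pr M => (1:ℝ) / ((p : ℕ) : ℝ))
  rw [h3]
  have h4 : ∑ p ∈ pr M, (1:ℝ) / p ≤ Real.log (Real.log M) + C0 := by
    have := (abs_le.1 (hC0 M hM)).2
    unfold pr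
    linarith
  calc Real.exp (3 * ∑ p ∈ pr M, (1:ℝ) / p) ≤ Real.exp (3 * (Real.log (Real.log M) + C0)) :=
        Real.exp_le_exp.2 (by linarith)
    _ = Real.exp (3 * C0) * Real.log M ^ 3 := by
        rw [mul_add, Real.exp_add, mul_comm]
        congr 1
        rw [mul_comm, Real.exp_mul, Real.exp_log (by linarith)]
        norm_num

/-- **Targets have positive weighted density.** -/
theorem wpos {K : Set ℂ} (hK : IsCompact K) (hKs : ∀ z ∈ K, 1 / 2 < z.re ∧ z.re < 1)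
    {f : ℂ → ℂ} (hf : Tgt K f) {ε : ℝ} (hε : 0 < ε) : 0 < WD K f ε := by
  have hε1 : 0 < ε / 2 := by positivity
  have h12 : ε / 2 < ε := by linarith
  have hD := target_pos hK hKs hf (ε := ε / 4) (by positivity)
  obtain ⟨T1, hT1, hv⟩ := laws hK hKs f (ε1 := ε / 4) (ε2 := ε / 2) (η := DD K f (ε / 4) / 2)
    (by positivity) (by linarith) (by positivity)
  set d : ℝ := DD K f (ε / 4) / 2 with hd
  have hd0 : 0 < d := by positivity
  have hbd : ∃ Cf : ℝ, 0 ≤ Cf ∧ ∀ s ∈ K, ‖f s‖ ≤ Cf := by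
    rcases dichot hK hKs f with h | h
    · exact h
    · exfalso
      have h5 : DD K f (ε / 4) ≤ 0 := by
        refine ld_upper (T0 := 0) le_rfl fun T _ => ?_
        rw [h]
        simp
      linarith
  obtain ⟨Cf, hCf0, hCf⟩ := hbd
  obtain ⟨a, b, B, h1, h2, h3, h4, hR⟩ := ZU.J_f.exists_rectV K hK hKs
  obtain ⟨C, δ, θ, hC, hδ, hθ, h⟩ := keyM h1 h2 h3 h4 hR hCf0 hCf hε1 h12
  obtain ⟨M1, hM1⟩ := exc_time h1 h2 h3 h4 hθ (show 0 < d / 4 by positivity)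
  obtain ⟨C', hC', hprod⟩ := prod_bound
  -- choice of `M`
  obtain ⟨M, hM3, hMM1, hMbig⟩ : ∃ M : ℕ, 3 ≤ M ∧ M1 ≤ M ∧
      4 * (C * (M : ℝ) ^ (-δ)) * (C' * Real.log M ^ 3) ≤ (d / 2) ^ 2 := by
    have h5 : Tendsto (fun x : ℝ => 4 * C * C' * (x ^ (-δ) * Real.log x ^ 3)) atTop (𝓝 0) := by
      have h6 := (isLittleO_log_rpow_rpow_atTop (3 : ℝ) hδ).tendsto_div_nhds_zero
      have h7 := h6.const_mul (4 * C * C')
      rw [mul_zero] at h7
      refine h7.congr' ?_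
      filter_upwards [eventually_gt_atTop 0] with x hx
      rw [Real.rpow_neg hx.le, ← Real.rpow_natCast (Real.log x) 3]
      push_cast
      ring
    have h8 := (h5.comp tendsto_natCast_atTop_atTop).eventually_le_const
      (show 0 < (d / 2) ^ 2 by positivity)
    obtain ⟨M, hM, hM2⟩ := (h8.and (eventually_ge_atTop (max 3 M1))).exists
    refine ⟨M, (le_max_left _ _).trans hM2, (le_max_right _ _).trans hM2, ?_⟩
    simp only [Function.comp] at hM
    linarith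
  obtain ⟨g, hg0, hg1, hgs, hg⟩ := h M (by omega)
  obtain ⟨T2, hT2, hb⟩ := hM1 M hMM1
  -- the unweighted mean of `g`
  set n : ℝ := ∫ x, g x ∂(haarT (kk M)) with hn
  have hnd : d / 2 ≤ n := by
    have hAP := APm_torus (al_indep M) g
    set φ : ℝ → ℝ := fun t => g (tP M t) with hφ
    have hφc : Continuous φ := g.continuous.comp (tP_cont M)
    have hClm : MeasurableSet {t : ℝ | 1 ≤ φ t} := (isClosed_le continuous_const hφc).measurableSet
    obtain ⟨T3, hT3, hT3'⟩ := time_mean hAP hφc (show 0 < d / 4 by positivity)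
    set T := max T1 (max T2 T3) with hT
    have q1 : T1 ≤ T := le_max_left _ _
    have q2 : T2 ≤ T := (le_max_left _ _).trans (le_max_right _ _)
    have q3 : T3 ≤ T := (le_max_right _ _).trans (le_max_right _ _)
    have hT0 : 0 < T := by linarith
    have v1 := (hv T q1).2.1
    have v2 := hb T q2
    have v3 := (abs_le.1 (hT3' T q3)).2
    have k1 : SS (ε / 2) K f ∩ Icc 0 T ⊆ ({t : ℝ | 1 ≤ φ t} ∩ Icc 0 T) ∪
        {t : ℝ | t ∈ Icc 0 T ∧ Bad M a b B θ t} := by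
      rintro t ⟨ht, htT⟩
      rcases hgs t ht with h | h
      · exact Or.inl ⟨h, htT⟩
      · exact Or.inr ⟨htT, h⟩
    have k2 := vol_le_int hφc (fun t => hg0 _) hClm (fun t ht => ht) hT0.le
    have hφI : 0 ≤ ∫ t in (0:ℝ)..T, φ t :=
      intervalIntegral.integral_nonneg hT0.le fun t _ => hg0 _
    have k3 : ENNReal.ofReal (d * T) ≤ ENNReal.ofReal ((∫ t in (0:ℝ)..T, φ t) + d / 4 * T) := by
      have e1 : (DD K f (ε / 4) - d) = d := by rw [hd]; ring
      rw [e1] at v1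
      refine v1.trans ((measure_mono k1).trans ((measure_union_le _ _).trans
        ((add_le_add k2 v2).trans ?_)))
      rw [← ENNReal.ofReal_add hφI (by positivity)]
    have k4 := (ENNReal.ofReal_le_ofReal_iff (by positivity)).1 k3
    have v4 : (∫ t in (0:ℝ)..T, φ t) - n * T ≤ d / 4 * T := v3
    have k5 : d * T ≤ (n + d / 2) * T := by linarith
    have k6 := le_of_mul_le_mul_right k5 hT0
    linarith
  have hn0 : 0 < n := by linarith
  have hcs := cs_PT (rr_nonneg M) (rr_lt M) g.continuous hg0 hg1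
  have hMr : (3:ℝ) ≤ M := by exact_mod_cast hM3
  have hL : 0 < Real.log M := Real.log_pos (by linarith)
  have hP0 : 0 < C' * Real.log M ^ 3 := by positivity
  have hm0 : 0 ≤ mW M g := integral_nonneg fun x =>
    mul_nonneg (hg0 x) (PT_pos (rr_nonneg M) (rr_lt M) x).le
  have hlow : (d / 2) ^ 2 ≤ (C' * Real.log M ^ 3) * mW M g := by
    calc (d / 2) ^ 2 ≤ n ^ 2 := pow_le_pow_left₀ (by positivity) hnd 2
      _ ≤ _ := hcs
      _ ≤ (C' * Real.log M ^ 3) * mW M g := mul_le_mul_of_nonneg_right (hprod M hM3) hm0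
  have hmW : 4 * (C * (M : ℝ) ^ (-δ)) ≤ mW M g := by
    have h5 := hMbig.trans hlow
    rw [mul_comm] at h5
    exact le_of_mul_le_mul_left h5 hP0
  have hMp : 0 < C * (M : ℝ) ^ (-δ) := by
    have : (0:ℝ) < M := by linarith
    positivity
  have h9 := hg (C * (M : ℝ) ^ (-δ)) hMp
  have h10 : mW M g - C * (M : ℝ) ^ (-δ) - C * (M : ℝ) ^ (-δ) ≤ WD K f ε :=
    WD_lower (h9.mono fun T hT => hT.2)
  linarith

end Pool.Agent.Q286.SB
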