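import Pool.Agent.Q286.SB.ZD
import Pool.Agent.W184.NZ.Up2

/-!
The exceptional shifts, weighted with the square of zeta on the critical line.
-/

set_option autoImplicit false
set_option linter.all false

namespace Pool.Agent.Q286.SB

open Complex Filter Topology Set MeasureTheory ZU
open Pool.Agent.H306R2.SM (om cl Yf)
open Pool.Agent.H262R4.TM (Rng Ck)
open Pool.Agent.W184.NZ (wz wz_int wz_nonneg)
open Pool.Agent.Q286.UZ (GG GG_cont Bad AA2 AA2_nonneg bad_area)

lemma EM_c (M : ℕ) : Continuous fun z : ℂ => EM M (fun _ => 1) z := by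
  unfold EM
  refine continuous_finsetProd _ fun p hp => ?_
  have hp0 : (p : ℂ) ≠ 0 := by
    have := (ZU.J_c3a.pr_prime hp).ne_zero
    exact_mod_cast this
  refine continuous_const.sub (continuous_const.mul ?_)
  exact Continuous.const_cpow continuous_neg (Or.inl hp0)

lemma DN_bd (N : ℕ) (z : ℂ) (hz : 0 ≤ z.re) : ‖DN N z‖ ≤ N := by
  unfold DN
  calc ‖∑ n ∈ Finset.Icc 1 N, (n : ℂ) ^ (-z)‖ ≤ ∑ n ∈ Finset.Icc 1 N, (1 : ℝ) := by
        refine norm_sum_le_of_le _ fun n hn => ?_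
        rw [Finset.mem_Icc] at hn
        rw [Complex.norm_natCast_cpow_of_pos hn.1]
        refine Real.rpow_le_one_of_one_le_of_nonpos (by exact_mod_cast hn.1) ?_
        simp [hz]
    _ = N := by simp

/-- **The weighted mean square of the tail of the Euler product.** -/
theorem vD {σ1 : ℝ} (h1 : 1 / 2 < σ1) : ∃ C : ℝ, 0 < C ∧ ∀ M : ℕ, 1 ≤ M → ∀ᶠ T : ℝ in atTop,
    ∀ s : ℂ, σ1 ≤ s.re → ∫ t in (0:ℝ)..T, zz t * ‖DN ⌊T ^ (1 / 20 : ℝ)⌋₊ (s + t * I) *
      EM M (fun _ => 1) (s + t * I) - 1‖ ^ 2 ≤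
        C * (M : ℝ) ^ (-(σ1 - 1 / 2)) * (T * Real.log T) := by
  obtain ⟨C, hC, hdir⟩ := dir_win h1
  set κ : ℝ := σ1 - 1 / 2 with hκ
  have hκ0 : 0 < κ := by linarith
  refine ⟨16 * (4 * C + 1) + 1, by positivity, fun M hM => ?_⟩
  have hM0 : (0:ℝ) < M := by exact_mod_cast hM
  set m : ℝ := (M : ℝ) ^ (-κ) with hm
  have hm0 : 0 < m := by positivity
  set P : ℕ := ∏ p ∈ pr M, p with hP
  set D : ℝ := 2 ^ (pr M).card with hD
  have hD1 : 1 ≤ D := one_le_pow₀ (by norm_num)
  have hD0 : 0 < D := by positivity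
  obtain ⟨Y0, hY0⟩ := eventually_atTop.1 hdir
  have hbig : ∀ᶠ T : ℝ in atTop, Y0 ≤ T ^ ((3:ℝ) / 4) / 2 :=
    ((tendsto_rpow_atTop (by norm_num)).atTop_div_const (by norm_num)).eventually_ge_atTop _
  have hNP : ∀ᶠ T : ℝ in atTop, (P : ℝ) * 2 * T ^ (1 / 20 : ℝ) ≤ T ^ (3 / 10 : ℝ) :=
    pow_absorb ((P : ℝ) * 2) (by norm_num)
  have hsmall : ∀ᶠ T : ℝ in atTop, 4 * D ^ 2 * C * ((⌊T ^ (1 / 20 : ℝ)⌋₊ : ℝ) ^ (-κ)) ≤ m / 2 := by
    have h2 : Tendsto (fun T : ℝ => (⌊T ^ (1 / 20 : ℝ)⌋₊ : ℝ)) atTop atTop :=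
      tendsto_natCast_atTop_atTop.comp (tendsto_nat_floor_atTop.comp
        (tendsto_rpow_atTop (by norm_num)))
    have h3 := ((tendsto_rpow_neg_atTop hκ0).comp h2).const_mul (4 * D ^ 2 * C)
    rw [mul_zero] at h3
    exact h3.eventually_le_const (by positivity)
  have hlog := Real.tendsto_log_atTop
  have hlow : ∀ᶠ T : ℝ in atTop, 4 * D ^ 2 * T ^ (17 / 20 : ℝ) * Real.log T ^ 2 ≤
      T ^ ((9:ℝ) / 10) := pow_log_absorb _ 2 (by norm_num)
  have hlow2 : ∀ᶠ T : ℝ in atTop, 1 / m * T ^ ((9:ℝ) / 10) ≤ T ^ (1:ℝ) :=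
    pow_absorb _ (by norm_num)
  filter_upwards [Pool.Agent.W184.NZ.TC_ev 0 0 0, hbig, hNP, hsmall, hlow, hlow2,
    hlog.eventually_ge_atTop (max 10 (4 * (2 + 2 * D ^ 2) / m)), eventually_ge_atTop (10000 ^ 4),
    (tendsto_rpow_atTop (show (0:ℝ) < 3 / 4 by norm_num)).eventually_ge_atTop 1000]
    with T ⟨k, hk⟩ hbig hNP hsmall hlow hlow2 hL hT4 hA1000 s hs
  have hT1 : 1 ≤ T := le_trans (by norm_num) hT4
  have hT0 : 0 < T := by linarith
  have hL10 : 10 ≤ Real.log T := (le_max_left _ _).trans hL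
  have hL2 : 4 * (2 + 2 * D ^ 2) / m ≤ Real.log T := (le_max_right _ _).trans hL
  have hL0 : 0 < Real.log T := by linarith
  set N := ⌊T ^ (1 / 20 : ℝ)⌋₊ with hN
  have hT20 : 1 ≤ T ^ (1 / 20 : ℝ) := Real.one_le_rpow hT1 (by norm_num)
  have hN1 : 1 ≤ N := (Nat.one_le_floor_iff _).2 hT20
  have hNT : (N : ℝ) ≤ T ^ (1 / 20 : ℝ) := Nat.floor_le (by positivity)
  have hs0 : 0 ≤ s.re := by linarith
  have hres : ∀ t : ℝ, (s + t * I).re = s.re := fun t => by simp
  set g : ℝ → ℝ := fun t => ‖DN N (s + t * I) * EM M (fun _ => 1) (s + t * I) - 1‖ ^ 2 with hg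
  have hgc : Continuous g := by
    have e1 := ZU.J_c3.rough_mv_DN_cont N
    have e2 := EM_c M
    have e3 : Continuous fun t : ℝ => s + t * I := by fun_prop
    exact (((e1.comp e3).mul (e2.comp e3)).sub continuous_const).norm.pow 2
  have hg0 : ∀ t, 0 ≤ g t := fun t => by positivity
  have hgC : ∀ t, g t ≤ 4 * D ^ 2 * T ^ (1 / 10 : ℝ) := by
    intro t
    have e1 : ‖DN N (s + t * I) * EM M (fun _ => 1) (s + t * I) - 1‖ ≤ 2 * (N * D) := by
      have e2 := DN_bd N (s + t * I) (by rw [hres]; exact hs0)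
      have e3 := ZU.J_c3.rough_mv_EM_le M (s + t * I) (by rw [hres]; linarith)
      have hN1r : (1:ℝ) ≤ N := by exact_mod_cast hN1
      calc ‖DN N (s + t * I) * EM M (fun _ => 1) (s + t * I) - 1‖ ≤
            ‖DN N (s + t * I) * EM M (fun _ => 1) (s + t * I)‖ + ‖(1:ℂ)‖ := norm_sub_le _ _
        _ ≤ N * D + 1 := by
            rw [norm_mul, norm_one]
            have := mul_le_mul e2 e3 (norm_nonneg _) (by positivity)
            linarith
        _ ≤ 2 * (N * D) := by nlinarith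
    calc g t ≤ (2 * (N * D)) ^ 2 := pow_le_pow_left₀ (norm_nonneg _) e1 2
      _ = 4 * D ^ 2 * (N : ℝ) ^ 2 := by ring
      _ ≤ 4 * D ^ 2 * (T ^ (1 / 20 : ℝ)) ^ 2 := by gcongr
      _ = 4 * D ^ 2 * T ^ (1 / 10 : ℝ) := by
          rw [← Real.rpow_natCast (T ^ (1 / 20 : ℝ)) 2, ← Real.rpow_mul hT0.le]
          norm_num
  set A : ℝ := T ^ ((3:ℝ) / 4) with hA
  have hA0 : 0 < A := by positivity
  have hAT : A ≤ T := by
    calc A ≤ T ^ (1:ℝ) := Real.rpow_le_rpow_of_exponent_le hT1 (by norm_num)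
      _ = T := Real.rpow_one T
  -- the windows
  set c1 : ℕ → ℂ := fun n => if n ∈ ZU.J_c3a.S1 M N then 1 else 0 with hc1
  set c2 : ℕ → ℂ := fun n => if N + 1 ≤ n then ZU.J_c3a.cf M N n / (D : ℂ) else 0 with hc2
  have hDc : (D : ℂ) ≠ 0 := by
    rw [Ne, Complex.ofReal_eq_zero]
    exact hD0.ne'
  have hP1 : 1 ≤ P := ZU.J_c3a.pr_pos (Finset.Subset.refl _)
  have hsplit : ∀ t : ℝ, g t ≤ 2 * ‖∑ n ∈ Finset.Icc 1 N, c1 n * (n : ℂ) ^ (-(s + t * I))‖ ^ 2 +
      2 * D ^ 2 * ‖∑ n ∈ Finset.Icc 1 (N * P), c2 n * (n : ℂ) ^ (-(s + t * I))‖ ^ 2 := by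
    intro t
    have e1 : ∑ m ∈ ZU.J_c3a.S1 M N, (m : ℂ) ^ (-(s + t * I)) =
        ∑ n ∈ Finset.Icc 1 N, c1 n * (n : ℂ) ^ (-(s + t * I)) := by
      simp only [hc1, ite_mul, one_mul, zero_mul]
      rw [← Finset.sum_filter]
      refine Finset.sum_congr ?_ fun _ _ => rfl
      ext n
      rw [Finset.mem_filter]
      constructor
      · intro hn
        refine ⟨?_, hn⟩
        unfold ZU.J_c3a.S1 at hn
        have := Finset.mem_Icc.1 (Finset.mem_filter.1 hn).1
        rw [Finset.mem_Icc]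
        omega
      · exact fun hn => hn.2
    have e2 : ∑ m ∈ Finset.Icc (N + 1) (N * P), ZU.J_c3a.cf M N m * (m : ℂ) ^ (-(s + t * I)) =
        (D : ℂ) * ∑ n ∈ Finset.Icc 1 (N * P), c2 n * (n : ℂ) ^ (-(s + t * I)) := by
      rw [Finset.mul_sum]
      have e3 : ∀ n ∈ Finset.Icc 1 (N * P), (D : ℂ) * (c2 n * (n : ℂ) ^ (-(s + t * I))) =
          if N + 1 ≤ n then ZU.J_c3a.cf M N n * (n : ℂ) ^ (-(s + t * I)) else 0 := by
        intro n _
        simp only [hc2]
        split_ifs with h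
        · field_simp
        · simp
      rw [Finset.sum_congr rfl e3, ← Finset.sum_filter]
      refine Finset.sum_congr ?_ fun _ _ => rfl
      ext n
      rw [Finset.mem_filter, Finset.mem_Icc, Finset.mem_Icc]
      constructor
      · intro h
        exact ⟨⟨by omega, h.2⟩, h.1⟩
      · intro h
        exact ⟨h.2, h.1.2⟩
    have e4 := ZU.J_c3a.split_eq M N hN1 (s + t * I)
    rw [← hP, e1, e2] at e4
    simp only [hg]
    rw [e4]
    set x := ∑ n ∈ Finset.Icc 1 N, c1 n * (n : ℂ) ^ (-(s + t * I))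
    set y := ∑ n ∈ Finset.Icc 1 (N * P), c2 n * (n : ℂ) ^ (-(s + t * I))
    have e5 : ‖x + (D : ℂ) * y‖ ≤ ‖x‖ + D * ‖y‖ := by
      refine (norm_add_le _ _).trans ?_
      rw [norm_mul, Complex.norm_real, Real.norm_eq_abs, abs_of_pos hD0]
    calc ‖x + (D : ℂ) * y‖ ^ 2 ≤ (‖x‖ + D * ‖y‖) ^ 2 := pow_le_pow_left₀ (norm_nonneg _) e5 2
      _ ≤ 2 * ‖x‖ ^ 2 + 2 * D ^ 2 * ‖y‖ ^ 2 := by nlinarith [sq_nonneg (‖x‖ - D * ‖y‖)]
  have hpc : ∀ (K : ℕ) (c : ℕ → ℂ), Continuous fun t : ℝ =>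
      ‖∑ n ∈ Finset.Icc 1 K, c n * (n : ℂ) ^ (-(s + t * I))‖ ^ 2 := by
    intro K c
    refine Continuous.pow (Continuous.norm ?_) 2
    refine continuous_finsetSum _ fun n hn => ?_
    rw [Finset.mem_Icc] at hn
    refine continuous_const.mul (Continuous.const_cpow (by fun_prop) (Or.inl ?_))
    exact_mod_cast (by omega : n ≠ 0)
  have hpb : ∀ (K : ℕ) (c : ℕ → ℂ), (∀ n, ‖c n‖ ≤ 1) → ∀ t : ℝ,
      |‖∑ n ∈ Finset.Icc 1 K, c n * (n : ℂ) ^ (-(s + t * I))‖ ^ 2| ≤ (K : ℝ) ^ 2 := by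
    intro K c hc t
    rw [abs_of_nonneg (by positivity)]
    refine pow_le_pow_left₀ (norm_nonneg _) ?_ 2
    calc ‖∑ n ∈ Finset.Icc 1 K, c n * (n : ℂ) ^ (-(s + t * I))‖ ≤ ∑ n ∈ Finset.Icc 1 K, (1 : ℝ) := by
          refine norm_sum_le_of_le _ fun n hn => ?_
          rw [Finset.mem_Icc] at hn
          rw [norm_mul, Complex.norm_natCast_cpow_of_pos hn.1]
          have e1 : (n : ℝ) ^ (-(s + t * I)).re ≤ 1 := by
            refine Real.rpow_le_one_of_one_le_of_nonpos (by exact_mod_cast hn.1) ?_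
            rw [Complex.neg_re, hres]
            linarith
          calc ‖c n‖ * (n : ℝ) ^ (-(s + t * I)).re ≤ 1 * 1 :=
                mul_le_mul (hc n) e1 (by positivity) zero_le_one
            _ = 1 := one_mul 1
      _ = K := by simp
  have hc1n : ∀ n, ‖c1 n‖ ≤ 1 := by
    intro n
    simp only [hc1]
    split_ifs <;> simp
  have hc2n : ∀ n, ‖c2 n‖ ≤ 1 := by
    intro n
    simp only [hc2]
    split_ifs
    · rw [norm_div, Complex.norm_real, Real.norm_eq_abs, abs_of_pos hD0, div_le_one hD0]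
      exact ZU.J_c3a.cf_norm M N n
    · simp
  have hc10 : ∀ n ≤ M, c1 n = 0 := by
    intro n hn
    simp only [hc1]
    rw [if_neg]
    intro h
    have := ZU.J_c3a.S1_gt h
    omega
  have hc20 : ∀ n ≤ N, c2 n = 0 := by
    intro n hn
    simp only [hc2]
    rw [if_neg (by omega)]
  set S : ℝ := (4 * C + 1) * m * Real.log T with hS
  have hS0 : 0 ≤ S := by positivity
  have hwin := Pool.Agent.W184.NZ.win hgc hg0 (C := 4 * D ^ 2 * T ^ (1 / 10 : ℝ)) (fun t => by
    rw [abs_of_nonneg (hg0 t)]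
    exact hgC t) hk.k8 hA0 hAT hS0 (by
      intro x hx
      have hx0 : 0 < x := lt_trans (by positivity) hx.1
      have hxY : Y0 ≤ x := hbig.trans hx.1.le
      have hrng := hk.rng x hx
      have hk0 : (0:ℝ) < k := by
        have := hk.k8
        exact_mod_cast (by omega : 0 < k)
      have hx25 : (T : ℝ) ^ (3 / 10 : ℝ) / 2 ≤ x ^ (2 / 5 : ℝ) := by
        calc (T : ℝ) ^ (3 / 10 : ℝ) / 2 ≤ (T ^ ((3:ℝ) / 4) / 2) ^ (2 / 5 : ℝ) := by
              rw [Real.div_rpow (by positivity) (by norm_num), ← Real.rpow_mul hT0.le]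
              have e1 : (3:ℝ) / 4 * (2 / 5) = 3 / 10 := by norm_num
              rw [e1]
              refine div_le_div_of_nonneg_left (by positivity) (by positivity) ?_
              calc (2:ℝ) ^ (2 / 5 : ℝ) ≤ 2 ^ (1:ℝ) :=
                    Real.rpow_le_rpow_of_exponent_le (by norm_num) (by norm_num)
                _ = 2 := Real.rpow_one 2
          _ ≤ x ^ (2 / 5 : ℝ) := Real.rpow_le_rpow (by positivity) hx.1.le (by norm_num)
      have hNP' : ((N * P : ℕ) : ℝ) ≤ x ^ (2 / 5 : ℝ) := by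
        refine le_trans ?_ hx25
        push_cast
        have : (N : ℝ) * P ≤ T ^ (1 / 20 : ℝ) * P := mul_le_mul_of_nonneg_right hNT (by positivity)
        linarith
      have hN' : (N : ℝ) ≤ x ^ (2 / 5 : ℝ) := by
        refine le_trans ?_ hNP'
        exact_mod_cast Nat.le_mul_of_pos_right N hP1
      have d1 := hY0 x hxY k hrng N hN' M hM c1 hc1n hc10 s hs
      have d2 := hY0 x hxY k hrng (N * P) hNP' N hN1 c2 hc2n hc20 s hs
      have hlx : Real.log x ≤ 2 * Real.log T := by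
        have e1 : Real.log x ≤ Real.log (8 * T) := Real.log_le_log hx0 hx.2
        rw [Real.log_mul (by norm_num) hT0.ne'] at e1
        have e2 : Real.log 8 ≤ 10 := by
          have e3 := Real.log_le_sub_one_of_pos (show (0:ℝ) < 8 by norm_num)
          linarith
        linarith
      have hYx : 0 < (k : ℝ) / x := by positivity
      have i0 := wz_int k hYx hgc (C := 4 * D ^ 2 * T ^ (1 / 10 : ℝ)) (fun t => by
        rw [abs_of_nonneg (hg0 t)]; exact hgC t)
      have i1 := wz_int k hYx (hpc N c1) (hpb N c1 hc1n)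
      have i2 := wz_int k hYx (hpc (N * P) c2) (hpb (N * P) c2 hc2n)
      have j1 := i1.const_mul 2
      have j2 := i2.const_mul (2 * D ^ 2)
      have hle : ∫ t in Ioi (0:ℝ), wz k x t * g t ≤
          ∫ t in Ioi (0:ℝ), (2 * (wz k x t *
            ‖∑ n ∈ Finset.Icc 1 N, c1 n * (n : ℂ) ^ (-(s + t * I))‖ ^ 2) +
            2 * D ^ 2 * (wz k x t *
            ‖∑ n ∈ Finset.Icc 1 (N * P), c2 n * (n : ℂ) ^ (-(s + t * I))‖ ^ 2)) := by
        refine setIntegral_mono_on i0 (j1.add j2) measurableSet_Ioi fun t ht => ?_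
        have hw := wz_nonneg k hx0 (le_of_lt ht)
        have := mul_le_mul_of_nonneg_left (hsplit t) hw
        refine this.trans (le_of_eq ?_)
        ring
      rw [integral_add j1 j2, integral_const_mul, integral_const_mul] at hle
      refine hle.trans ?_
      set a1 := ∫ t in Ioi (0:ℝ), wz k x t *
            ‖∑ n ∈ Finset.Icc 1 N, c1 n * (n : ℂ) ^ (-(s + t * I))‖ ^ 2
      set a2 := ∫ t in Ioi (0:ℝ), wz k x t *
            ‖∑ n ∈ Finset.Icc 1 (N * P), c2 n * (n : ℂ) ^ (-(s + t * I))‖ ^ 2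
      set n' : ℝ := (N : ℝ) ^ (-κ) with hn'
      have hn0 : 0 ≤ n' := by positivity
      have b1 : a1 ≤ C * m * (2 * Real.log T) + 1 :=
        d1.trans (add_le_add_left (mul_le_mul_of_nonneg_left hlx (by positivity)) 1)
      have b2 : a2 ≤ C * n' * (2 * Real.log T) + 1 :=
        d2.trans (add_le_add_left (mul_le_mul_of_nonneg_left hlx (by positivity)) 1)
      have b3 : 2 * D ^ 2 * a2 ≤ 2 * D ^ 2 * (C * n' * (2 * Real.log T) + 1) :=
        mul_le_mul_of_nonneg_left b2 (by positivity)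
      have b4 : 4 * D ^ 2 * C * n' * Real.log T ≤ m / 2 * Real.log T :=
        mul_le_mul_of_nonneg_right hsmall hL0.le
      have b5 : 2 + 2 * D ^ 2 ≤ m / 4 * Real.log T := by
        rw [div_le_iff₀ hm0] at hL2
        linarith
      have b6 : 0 ≤ m * Real.log T := by positivity
      rw [hS]
      nlinarith)
  have hfc : Continuous fun t => zz t * g t := zz_cont.mul hgc
  have h0A : ∫ t in (0:ℝ)..A, zz t * g t ≤ m * (T * Real.log T) := by
    have e1 : ∫ t in (0:ℝ)..A, zz t * g t ≤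
        ∫ t in (0:ℝ)..A, 4 * D ^ 2 * T ^ (1 / 10 : ℝ) * zz t := by
      refine intervalIntegral.integral_mono_on hA0.le (hfc.intervalIntegrable _ _)
        ((continuous_const.mul zz_cont).intervalIntegrable _ _) fun t _ => ?_
      rw [mul_comm]
      exact mul_le_mul_of_nonneg_right (hgC t) (zz_nonneg t)
    rw [intervalIntegral.integral_const_mul] at e1
    have e2 := sm_bound hA1000
    have e3 : Real.log A ^ 2 ≤ Real.log T ^ 2 :=
      pow_le_pow_left₀ (Real.log_nonneg (by linarith)) (Real.log_le_log hA0 hAT) 2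
    have e4 : (4 * D ^ 2 * T ^ (1 / 10 : ℝ)) * (A * Real.log T ^ 2) =
        4 * D ^ 2 * T ^ (17 / 20 : ℝ) * Real.log T ^ 2 := by
      have : T ^ (1 / 10 : ℝ) * A = T ^ (17 / 20 : ℝ) := by
        rw [hA, ← Real.rpow_add hT0]
        norm_num
      rw [← this]
      ring
    have e5 : (4 * D ^ 2 * T ^ (1 / 10 : ℝ)) * ∫ t in (0:ℝ)..A, zz t ≤
        (4 * D ^ 2 * T ^ (1 / 10 : ℝ)) * (A * Real.log T ^ 2) :=
      mul_le_mul_of_nonneg_left (e2.trans (mul_le_mul_of_nonneg_left e3 hA0.le)) (by positivity)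
    rw [e4] at e5
    have e6 : T ^ ((9:ℝ) / 10) ≤ m * T := by
      rw [Real.rpow_one, div_mul_eq_mul_div, one_mul, div_le_iff₀ hm0] at hlow2
      linarith
    have e7 : m * T ≤ m * (T * Real.log T) := by
      refine mul_le_mul_of_nonneg_left ?_ hm0.le
      nlinarith
    linarith
  have hAT2 : ∫ t in A..T, zz t * g t ≤ 16 * T * S := hwin
  have hadd := intervalIntegral.integral_add_adjacent_intervals (hfc.intervalIntegrable 0 A)
    (hfc.intervalIntegrable A T) (μ := volume)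
  change ∫ t in (0:ℝ)..T, zz t * g t ≤ _
  rw [← hadd]
  have e8 : (16 * (4 * C + 1) + 1) * m * (T * Real.log T) =
      m * (T * Real.log T) + 16 * T * S := by rw [hS]; ring
  rw [e8]
  exact add_le_add h0A hAT2

/-- the measure `|ζ(1/2 + it)|² dt` -/
noncomputable def mu : Measure ℝ := volume.withDensity fun t => ENNReal.ofReal (zz t)

lemma mu_eq {E : Set ℝ} (hE : MeasurableSet E) {T : ℝ} (hET : E ⊆ Icc 0 T) :
    mu E = ENNReal.ofReal (∫ t in E, zz t) := by
  unfold mu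
  rw [withDensity_apply _ hE]
  rw [ofReal_integral_eq_lintegral_ofReal]
  · exact (zz_cont.continuousOn.integrableOn_compact isCompact_Icc).mono_set hET
  · exact Eventually.of_forall fun t => zz_nonneg t

/-- **The exceptional shifts have small weight.** -/
theorem bad_mu {a b B θ : ℝ} (h1 : 1 / 2 < a) (h2 : a ≤ b) (h3 : b < 1) (hB : 0 < B)
    (hθ : 0 < θ) : ∃ C δ : ℝ, 0 < C ∧ 0 < δ ∧ ∀ M : ℕ, 1 ≤ M → ∀ᶠ T : ℝ in atTop,
      mu {t : ℝ | t ∈ Icc 0 T ∧ Bad M a b B θ t} ≤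
        ENNReal.ofReal (C * (M : ℝ) ^ (-δ) * (T * Real.log T)) := by
  set a' : ℝ := (1 / 2 + a) / 2 with ha'
  set b' : ℝ := (b + 1) / 2 with hb'
  have h0' : 1 / 2 < a' := by rw [ha']; linarith
  have h1' : a' < a := by rw [ha']; linarith
  have h3' : b < b' := by rw [hb']; linarith
  have h4' : b' < 1 := by rw [hb']; linarith
  have hab' : a' ≤ b' := by linarith
  have hba : 0 < b' - a' := by linarith
  obtain ⟨Ca, hCa, hCs⟩ := bad_area h1' h2 h3' h4' hB (show B < B + 1 by linarith)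
  have hB' : 0 < B + 1 := by linarith
  obtain ⟨Cv, hCv, hv⟩ := vD h0'
  obtain ⟨ρ, hρ, hz⟩ := zD h0' h4' hB'
  set κ : ℝ := a' - 1 / 2 with hκ
  have hκ0 : 0 < κ := by linarith
  set K : ℝ := (b' - a') * (2 * (B + 1)) with hK
  have hK0 : 0 < K := by positivity
  set cv : ℝ := θ ^ 2 / (4 * Ca) with hcv
  have hcv0 : 0 < cv := by positivity
  refine ⟨K * Cv / cv + 1, κ, by positivity, hκ0, fun M hM => ?_⟩
  have hM0 : (0:ℝ) < M := by exact_mod_cast hM
  set m : ℝ := (M : ℝ) ^ (-κ) with hm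
  have hm0 : 0 < m := by positivity
  set D : ℝ := 2 ^ (pr M).card with hD
  have hD0 : 0 < D := by positivity
  set cu : ℝ := θ ^ 2 / (4 * Ca * D ^ 2) with hcu
  have hcu0 : 0 < cu := by positivity
  have habs : ∀ᶠ T : ℝ in atTop, √(K / cu) / m * T ^ (1 - ρ / 2) * Real.log T ^ 2 ≤ T ^ (1:ℝ) :=
    pow_log_absorb _ 2 (by linarith)
  filter_upwards [hv M hM, hz, habs, eventually_ge_atTop 1000,
    Real.tendsto_log_atTop.eventually_ge_atTop 1] with T hv hz habs hT hL1
  have hT0 : 0 < T := by linarith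
  set N := ⌊T ^ (1 / 20 : ℝ)⌋₊ with hN
  set GU : ℂ → ℂ := fun z => riemannZeta z - DN N z with hGU
  set GV : ℂ → ℂ := fun z => DN N z * EM M (fun _ => 1) z - 1 with hGV
  have cV : Continuous GV := ((ZU.J_c3.rough_mv_DN_cont N).mul (EM_c M)).sub continuous_const
  have cU : ContinuousOn GU {z : ℂ | a' ≤ z.re ∧ z.re ≤ b'} := by
    intro z hz
    have hz1 : z ≠ 1 := by
      intro h
      rw [h] at hz
      have := hz.2
      rw [Complex.one_re] at this
      linarith
    exact ((differentiableAt_riemannZeta hz1).continuousAt.sub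
      (ZU.J_c3.rough_mv_DN_cont N).continuousAt).continuousWithinAt
  obtain ⟨uc, ui⟩ := ZU.J_e1b.fubini_bound a' b' (B + 1) hab' hB' GU cU (fun _ => 1)
    continuous_const T hT0.le (T ^ (1 - ρ)) (fun s hs => by
      have := hz s hs
      simp only [one_mul]
      exact this)
  obtain ⟨vc, vi⟩ := ZU.J_e1b.fubini_bound a' b' (B + 1) hab' hB' GV cV.continuousOn zz zz_cont T
    hT0.le (Cv * m * (T * Real.log T)) (fun s hs => hv s hs.1)
  set U : ℝ → ℝ := fun t => ∫ w in rect a' b' (B + 1), ‖GU (w + t * I)‖ ^ 2 with hU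
  set V : ℝ → ℝ := fun t => ∫ w in rect a' b' (B + 1), ‖GV (w + t * I)‖ ^ 2 with hV
  have U0 : ∀ t, 0 ≤ U t := fun t => integral_nonneg fun z => by positivity
  have V0 : ∀ t, 0 ≤ V t := fun t => integral_nonneg fun z => by positivity
  simp only [one_mul] at ui
  -- the area mean square
  have hAA : ∀ t : ℝ, AA2 M a' b' (B + 1) t ≤ 2 * V t + 2 * D ^ 2 * U t := by
    intro t
    have hR : IsCompact (rect a' b' (B + 1)) := ZU.J_e1b.fubini_bound_compact _ _ _
    have hin : ∀ z ∈ rect a' b' (B + 1), z + t * I ∈ {z : ℂ | a' ≤ z.re ∧ z.re ≤ b'} := by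
      intro z hz
      have hre : (z + t * I).re = z.re := by simp
      exact ⟨by rw [hre]; exact hz.1, by rw [hre]; exact hz.2.1⟩
    have i1 : IntegrableOn (fun z : ℂ => ‖GG M (z + t * I)‖ ^ 2) (rect a' b' (B + 1)) := by
      refine ContinuousOn.integrableOn_compact hR (ContinuousOn.pow (ContinuousOn.norm ?_) 2)
      exact (GG_cont M (a := a') h4').comp (by fun_prop) hin
    have i2 : IntegrableOn (fun z : ℂ => ‖GU (z + t * I)‖ ^ 2) (rect a' b' (B + 1)) := by
      refine ContinuousOn.integrableOn_compact hR (ContinuousOn.pow (ContinuousOn.norm ?_) 2)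
      exact cU.comp (by fun_prop) hin
    have i3 : IntegrableOn (fun z : ℂ => ‖GV (z + t * I)‖ ^ 2) (rect a' b' (B + 1)) := by
      refine ContinuousOn.integrableOn_compact hR (ContinuousOn.pow (ContinuousOn.norm ?_) 2)
      exact (cV.comp (by fun_prop)).continuousOn
    have h5 : AA2 M a' b' (B + 1) t ≤ ∫ z in rect a' b' (B + 1),
        (2 * ‖GV (z + t * I)‖ ^ 2 + 2 * D ^ 2 * ‖GU (z + t * I)‖ ^ 2) := by
      unfold Pool.Agent.Q286.UZ.AA2
      refine setIntegral_mono_on i1 ((i3.const_mul 2).add (i2.const_mul (2 * D ^ 2)))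
        hR.measurableSet fun z hz => ?_
      have hzre : 0 < (z + t * I).re := by
        have := (hin z hz).1
        linarith
      have hE := ZU.J_c3.rough_mv_EM_le M (z + t * I) hzre
      have e1 : GG M (z + t * I) = GV (z + t * I) + EM M (fun _ => 1) (z + t * I) *
          GU (z + t * I) := by
        simp only [hGV, hGU]
        unfold Pool.Agent.Q286.UZ.GG
        ring
      rw [e1]
      set x := GV (z + t * I)
      set y := GU (z + t * I)
      set E := EM M (fun _ => 1) (z + t * I)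
      have e5 : ‖x + E * y‖ ≤ ‖x‖ + D * ‖y‖ := by
        refine (norm_add_le _ _).trans ?_
        rw [norm_mul]
        have := mul_le_mul_of_nonneg_right hE (norm_nonneg y)
        linarith
      calc ‖x + E * y‖ ^ 2 ≤ (‖x‖ + D * ‖y‖) ^ 2 := pow_le_pow_left₀ (norm_nonneg _) e5 2
        _ ≤ 2 * ‖x‖ ^ 2 + 2 * D ^ 2 * ‖y‖ ^ 2 := by nlinarith [sq_nonneg (‖x‖ - D * ‖y‖)]
    rw [integral_add (i3.const_mul 2) (i2.const_mul (2 * D ^ 2)), integral_const_mul,
      integral_const_mul] at h5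
    exact h5
  set E1 : Set ℝ := {t | cv ≤ V t} ∩ Icc 0 T with hE1
  set E2 : Set ℝ := {t | cu ≤ U t} with hE2
  have mE1 : MeasurableSet E1 := (isClosed_le continuous_const vc).measurableSet.inter
    measurableSet_Icc
  have mE2 : MeasurableSet E2 := (isClosed_le continuous_const uc).measurableSet
  have hsub : {t : ℝ | t ∈ Icc 0 T ∧ Bad M a b B θ t} ⊆ E1 ∪ (E2 ∩ Icc 0 T) := by
    rintro t ⟨ht, hb⟩
    have h5 := hCs M θ t hθ hb
    have h6 := hAA t
    by_contra hcon
    simp only [hE1, hE2, mem_union, mem_inter_iff, mem_setOf_eq, not_or, not_and] at hcon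
    have h7 : V t < cv := by
      by_contra h
      push Not at h
      exact hcon.1 h ht
    have h8 : U t < cu := by
      by_contra h
      push Not at h
      exact hcon.2 h ht
    have h9 : 2 * V t + 2 * D ^ 2 * U t < θ ^ 2 / Ca := by
      have e1 : 2 * cv + 2 * D ^ 2 * cu = θ ^ 2 / Ca := by
        rw [hcv, hcu]
        field_simp
        ring
      have e2 : 2 * D ^ 2 * U t ≤ 2 * D ^ 2 * cu :=
        mul_le_mul_of_nonneg_left h8.le (by positivity)
      linarith
    have h10 : Ca / θ ^ 2 * AA2 M a' b' (B + 1) t < 1 := by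
      calc Ca / θ ^ 2 * AA2 M a' b' (B + 1) t < Ca / θ ^ 2 * (θ ^ 2 / Ca) :=
            mul_lt_mul_of_pos_left (h6.trans_lt h9) (by positivity)
        _ = 1 := by field_simp
    linarith
  have hmu1 : mu E1 ≤ ENNReal.ofReal (K * Cv / cv * m * (T * Real.log T)) := by
    rw [mu_eq mE1 inter_subset_right]
    refine ENNReal.ofReal_le_ofReal ?_
    have j1 : IntegrableOn zz E1 :=
      (zz_cont.continuousOn.integrableOn_compact isCompact_Icc).mono_set inter_subset_right
    have j2 : IntegrableOn (fun t => zz t * V t) (Icc 0 T) :=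
      (zz_cont.mul vc).continuousOn.integrableOn_compact isCompact_Icc
    have e1 : cv * ∫ t in E1, zz t ≤ ∫ t in Icc 0 T, zz t * V t := by
      rw [← integral_const_mul]
      calc ∫ t in E1, cv * zz t ≤ ∫ t in E1, zz t * V t := by
            refine setIntegral_mono_on (j1.const_mul _) (j2.mono_set inter_subset_right) mE1
              fun t ht => ?_
            rw [mul_comm]
            exact mul_le_mul_of_nonneg_left ht.1 (zz_nonneg t)
        _ ≤ ∫ t in Icc 0 T, zz t * V t :=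
            setIntegral_mono_set j2 (Eventually.of_forall fun t =>
              mul_nonneg (zz_nonneg t) (V0 t)) (ae_of_all _ fun t ht => ht.2)
    rw [integral_Icc_eq_integral_Ioc, ← intervalIntegral.integral_of_le hT0.le] at e1
    have e2 := e1.trans vi
    rw [← hK] at e2
    calc ∫ t in E1, zz t = (cv * ∫ t in E1, zz t) / cv := by field_simp
      _ ≤ (K * (Cv * m * (T * Real.log T))) / cv := div_le_div_of_nonneg_right e2 hcv0.le
      _ = K * Cv / cv * m * (T * Real.log T) := by ring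
  have hvol : volume (E2 ∩ Icc 0 T) ≤ ENNReal.ofReal (K / cu * T ^ (1 - ρ)) := by
    have h := mul_meas_ge_le_integral_of_nonneg (μ := volume.restrict (Icc (0 : ℝ) T))
      (f := U) (Eventually.of_forall U0) (uc.integrableOn_Icc) cu
    have e1 : (volume.restrict (Icc (0 : ℝ) T)) {t : ℝ | cu ≤ U t} =
        volume (E2 ∩ Icc 0 T) := Measure.restrict_apply mE2
    have hfin : volume (E2 ∩ Icc 0 T) ≠ ⊤ :=
      ((measure_mono inter_subset_right).trans_lt (by
        rw [Real.volume_Icc]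
        exact ENNReal.ofReal_lt_top)).ne
    rw [Measure.real, e1, integral_Icc_eq_integral_Ioc,
      ← intervalIntegral.integral_of_le hT0.le] at h
    have h2 := h.trans ui
    rw [← hK] at h2
    refine (ENNReal.le_ofReal_iff_toReal_le hfin (by positivity)).2 ?_
    rw [div_mul_eq_mul_div, le_div_iff₀ hcu0]
    linarith
  have hmu2 : mu (E2 ∩ Icc 0 T) ≤ ENNReal.ofReal (m * (T * Real.log T)) := by
    rw [mu_eq (mE2.inter measurableSet_Icc) inter_subset_right]
    refine ENNReal.ofReal_le_ofReal ?_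
    refine (rare_int mE2 hT (by positivity) hvol).trans ?_
    have e1 : √(K / cu * T ^ (1 - ρ) * T) = √(K / cu) * T ^ (1 - ρ / 2) := by
      rw [mul_assoc, Real.sqrt_mul (by positivity)]
      congr 1
      have e2 : T ^ (1 - ρ) * T = (T ^ (1 - ρ / 2)) ^ 2 := by
        nth_rw 2 [← Real.rpow_one T]
        rw [← Real.rpow_add hT0, ← Real.rpow_natCast (T ^ (1 - ρ / 2)) 2, ← Real.rpow_mul hT0.le]
        congr 1
        push_cast
        ring
      rw [e2, Real.sqrt_sq (by positivity)]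
    rw [e1]
    have e3 : √(K / cu) * T ^ (1 - ρ / 2) * Real.log T ^ 2 ≤ m * T := by
      rw [Real.rpow_one] at habs
      have e4 : √(K / cu) / m * T ^ (1 - ρ / 2) * Real.log T ^ 2 =
          (√(K / cu) * T ^ (1 - ρ / 2) * Real.log T ^ 2) / m := by ring
      rw [e4, div_le_iff₀ hm0] at habs
      linarith
    refine e3.trans (mul_le_mul_of_nonneg_left ?_ hm0.le)
    nlinarith
  calc mu {t : ℝ | t ∈ Icc 0 T ∧ Bad M a b B θ t} ≤ mu (E1 ∪ (E2 ∩ Icc 0 T)) := measure_mono hsub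
    _ ≤ mu E1 + mu (E2 ∩ Icc 0 T) := measure_union_le _ _
    _ ≤ ENNReal.ofReal (K * Cv / cv * m * (T * Real.log T)) +
        ENNReal.ofReal (m * (T * Real.log T)) := add_le_add hmu1 hmu2
    _ = ENNReal.ofReal ((K * Cv / cv + 1) * m * (T * Real.log T)) := by
        rw [← ENNReal.ofReal_add (by positivity) (by positivity)]
        congr 1
        ring

end Pool.Agent.Q286.SB
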