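import Pool.Agent.Q286.SB.Win
import Pool.Agent.H965R2.SM_T1
import Pool.Agent.Y22.OM1
import Pool.Agent.TH158.FM.Main

/-!
The interval law for continuous functions on the torus.
-/

set_option autoImplicit false
set_option linter.all false

namespace Pool.Agent.Q286.SB

open Complex Filter Topology Set MeasureTheory TH803TW
open Pool.Agent.Q286.UZ (kk)
open Pool.Agent.H306R2.SM (om cl Yf)
open Pool.Agent.H262R4.TM (Rng Ck)
open Pool.Agent.H262R4.TM.TTW (om_nonneg zeta_cont z2_bound)
open Pool.Agent.W184.NZ (wz wz_int wz_nonneg)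

/-- the weight -/
noncomputable def zz (t : ℝ) : ℝ := ‖riemannZeta (cl t)‖ ^ 2

lemma zz_nonneg (t : ℝ) : 0 ≤ zz t := by unfold zz; positivity

lemma zz_cont : Continuous zz := zeta_cont.norm.pow 2

/-- from windows to intervals, upper bound -/
lemma upwin {f : ℝ → ℝ} (hf : Continuous f) (hf0 : ∀ t, 0 ≤ f t) {k : ℕ} (hk : 1 ≤ k) {A B δ w : ℝ}
    (hA : 0 < A) (hAB : A ≤ B) (hδ0 : 0 < δ) (hδ1 : δ < 1)
    (hi : ∀ X ∈ Icc ((1 - δ) * A) ((1 + δ) * B), IntegrableOn (fun t => om k (k / X) t * f t) (Ioi 0))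
    (hw : ∀ X ∈ Icc ((1 - δ) * A) ((1 + δ) * B), ∫ t in Ioi (0:ℝ), om k (k / X) t * f t ≤ w) :
    (1 - 4 / (δ ^ 2 * (k : ℝ))) * ∫ t in Icc A B, f t ≤ ((1 + δ) * B - (1 - δ) * A) * w := by
  have hB : 0 < B := hA.trans_le hAB
  set I := Icc A B with hI
  set K := Icc ((1 - δ) * A) ((1 + δ) * B) with hK
  have h1A : 0 < (1 - δ) * A := mul_pos (by linarith) hA
  have hle : (1 - δ) * A ≤ (1 + δ) * B := by nlinarith
  have hKpos : ∀ X ∈ K, 0 < X := fun X hX => lt_of_lt_of_le h1A hX.1
  have hIpos : ∀ t ∈ I, 0 < t := fun t ht => lt_of_lt_of_le hA ht.1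
  set F : ℝ → ℝ → ℝ := fun X t => om k (k / X) t * f t with hF
  have hcont : ContinuousOn (Function.uncurry F) (K ×ˢ I) := by
    intro p hp
    have hp0 : p.1 ≠ 0 := (hKpos p.1 hp.1).ne'
    have h1 : ContinuousAt (Function.uncurry F) p := by
      simp only [hF]
      unfold Function.uncurry Pool.Agent.H306R2.SM.om
      have h2 : ContinuousAt (fun p : ℝ × ℝ => f p.2) p := (hf.comp continuous_snd).continuousAt
      have h3 : ContinuousAt (fun p : ℝ × ℝ => (k : ℝ) / p.1) p :=
        ContinuousAt.div continuousAt_const continuousAt_fst hp0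
      refine ContinuousAt.mul (ContinuousAt.div ?_ continuousAt_const (by positivity)) h2
      refine ContinuousAt.mul (ContinuousAt.mul (h3.pow _) (continuousAt_snd.pow _)) ?_
      exact (Real.continuous_exp.continuousAt).comp (h3.mul continuousAt_snd).neg
    exact h1.continuousWithinAt
  have hint : Integrable (Function.uncurry F) ((volume.restrict K).prod (volume.restrict I)) := by
    rw [Measure.prod_restrict]
    exact hcont.integrableOn_compact (isCompact_Icc.prod isCompact_Icc)
  have hswap : ∫ X in K, ∫ t in I, F X t = ∫ t in I, ∫ X in K, F X t := integral_integral_swap hint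
  have hup : ∫ X in K, ∫ t in I, F X t ≤ ((1 + δ) * B - (1 - δ) * A) * w := by
    calc ∫ X in K, ∫ t in I, F X t ≤ ∫ X in K, w := by
          refine setIntegral_mono_on hint.integral_prod_left (integrableOn_const (by simp [hK]))
            measurableSet_Icc ?_
          intro X hX
          have hX0 := hKpos X hX
          have hkX : 0 < (k : ℝ) / X := by
            have : (0 : ℝ) < k := by exact_mod_cast hk
            positivity
          refine le_trans ?_ (hw X hX)
          refine setIntegral_mono_set (hi X hX) ?_ (ae_of_all _ fun t ht => hIpos t ht)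
          refine (ae_restrict_iff' measurableSet_Ioi).mpr (Eventually.of_forall fun t ht => ?_)
          exact mul_nonneg (om_nonneg k hkX (le_of_lt ht)) (hf0 t)
      _ = ((1 + δ) * B - (1 - δ) * A) * w := by
          rw [setIntegral_const, smul_eq_mul, hK, Real.volume_real_Icc_of_le hle]
  have hlow : (1 - 4 / (δ ^ 2 * (k : ℝ))) * ∫ t in I, f t ≤ ∫ t in I, ∫ X in K, F X t := by
    rw [← integral_const_mul]
    refine setIntegral_mono_on ?_ hint.integral_prod_right measurableSet_Icc ?_
    · exact (hf.continuousOn.integrableOn_compact isCompact_Icc).const_mul _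
    · intro t ht
      have ht0 := hIpos t ht
      have e1 : ∫ X in K, F X t = (∫ X in K, om k (k / X) t) * f t := by
        simp only [hF]
        rw [integral_mul_const]
      rw [e1]
      refine mul_le_mul_of_nonneg_right ?_ (hf0 t)
      refine (Pool.Agent.Y22.OM.conc k hk ht0 hδ0 hδ1).trans ?_
      have hsub : Icc ((1 - δ) * t) ((1 + δ) * t) ⊆ K := by
        intro X hX
        constructor
        · refine le_trans ?_ hX.1
          exact mul_le_mul_of_nonneg_left ht.1 (by linarith)
        · refine le_trans hX.2 ?_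
          exact mul_le_mul_of_nonneg_left ht.2 (by linarith)
      have hKs : K ⊆ Ioi 0 := fun X hX => hKpos X hX
      have hio := (Pool.Agent.Y22.OM.mom k 0 hk ht0).1
      simp only [pow_zero, mul_one] at hio
      refine setIntegral_mono_set (hio.mono_set hKs) ?_ (ae_of_all _ hsub)
      refine (ae_restrict_iff' measurableSet_Icc).mpr (Eventually.of_forall fun X hX => ?_)
      have hX0 := hKpos X hX
      have hkX : 0 < (k : ℝ) / X := by
        have : (0 : ℝ) < k := by exact_mod_cast hk
        positivity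
      exact om_nonneg k hkX ht0.le
  rw [hswap] at hup
  exact hlow.trans hup

lemma pt_cl (t : ℝ) : Pool.Agent.TH158.FM.pt (1 / 2) t = cl t := by
  unfold Pool.Agent.TH158.FM.pt Pool.Agent.H306R2.SM.cl
  push_cast
  rfl

/-- the weight of a set of small measure -/
lemma rare_int {E : Set ℝ} (hE : MeasurableSet E) {T V : ℝ} (hT : 1000 ≤ T) (hV : 0 < V)
    (hEV : volume (E ∩ Icc 0 T) ≤ ENNReal.ofReal V) :
    ∫ t in E ∩ Icc 0 T, zz t ≤ Real.sqrt (V * T) * Real.log T ^ 2 := by
  have hT0 : 0 < T := by linarith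
  have hL : 0 < Real.log T := Real.log_pos (by linarith)
  have h4 := Pool.Agent.TH158.FM.fourth_all T hT
  simp only [pt_cl] at h4
  set s := Real.sqrt (V * T) with hs
  have hs0 : 0 < s := Real.sqrt_pos.2 (by positivity)
  have hss : s * s = V * T := Real.mul_self_sqrt (by positivity)
  set lam := T * Real.log T ^ 2 / s with hlam
  have hl0 : 0 < lam := by positivity
  have hEm : MeasurableSet (E ∩ Icc 0 T) := hE.inter measurableSet_Icc
  have hfin : volume (E ∩ Icc 0 T) ≠ ⊤ := (hEV.trans_lt ENNReal.ofReal_lt_top).ne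
  have c4 : Continuous fun t : ℝ => ‖riemannZeta (cl t)‖ ^ 4 := zeta_cont.norm.pow 4
  have i4 : IntegrableOn (fun t : ℝ => ‖riemannZeta (cl t)‖ ^ 4) (E ∩ Icc 0 T) :=
    (c4.continuousOn.integrableOn_compact isCompact_Icc).mono_set inter_subset_right
  have i2 : IntegrableOn zz (E ∩ Icc 0 T) :=
    (zz_cont.continuousOn.integrableOn_compact isCompact_Icc).mono_set inter_subset_right
  have h1 : ∫ t in E ∩ Icc 0 T, zz t ≤ ∫ t in E ∩ Icc 0 T, (lam / 2 + 1 / (2 * lam) *
      ‖riemannZeta (cl t)‖ ^ 4) := by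
    refine setIntegral_mono_on i2 ((integrableOn_const hfin).add (i4.const_mul _)) hEm fun t _ => ?_
    unfold zz
    set x := ‖riemannZeta (cl t)‖
    have h2 : lam / 2 + 1 / (2 * lam) * x ^ 4 - x ^ 2 = (lam - x ^ 2) ^ 2 / (2 * lam) := by
      field_simp
      ring
    have h3 : 0 ≤ (lam - x ^ 2) ^ 2 / (2 * lam) := by positivity
    linarith
  have i4' : IntegrableOn (fun t : ℝ => 1 / (2 * lam) * ‖riemannZeta (cl t)‖ ^ 4) (E ∩ Icc 0 T) :=
    i4.const_mul _
  have iC : IntegrableOn (fun _ : ℝ => lam / 2) (E ∩ Icc 0 T) := integrableOn_const hfin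
  rw [integral_add iC i4', integral_const_mul, setIntegral_const,
    smul_eq_mul] at h1
  have h5 : volume.real (E ∩ Icc 0 T) ≤ V := ENNReal.toReal_le_of_le_ofReal hV.le hEV
  have h6 : ∫ t in E ∩ Icc 0 T, ‖riemannZeta (cl t)‖ ^ 4 ≤ 4 / 5 * (T * Real.log T ^ 4) := by
    refine le_trans ?_ h4
    rw [intervalIntegral.integral_of_le hT0.le, ← integral_Icc_eq_integral_Ioc]
    refine setIntegral_mono_set (c4.continuousOn.integrableOn_compact isCompact_Icc)
      (Eventually.of_forall fun t => by positivity) (ae_of_all _ fun t ht => ht.2)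
  have h7 : volume.real (E ∩ Icc 0 T) * (lam / 2) ≤ V * (lam / 2) :=
    mul_le_mul_of_nonneg_right h5 (by positivity)
  have h8 : 1 / (2 * lam) * ∫ t in E ∩ Icc 0 T, ‖riemannZeta (cl t)‖ ^ 4 ≤
      1 / (2 * lam) * (4 / 5 * (T * Real.log T ^ 4)) :=
    mul_le_mul_of_nonneg_left h6 (by positivity)
  have e1 : V * (lam / 2) = s * Real.log T ^ 2 / 2 := by
    rw [hlam]
    field_simp
    rw [pow_two, hss]
  have e2 : 1 / (2 * lam) * (4 / 5 * (T * Real.log T ^ 4)) = 2 / 5 * (s * Real.log T ^ 2) := by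
    rw [hlam]
    field_simp
    ring
  have h9 : 0 < s * Real.log T ^ 2 := by positivity
  linarith

/-- crude second moment bound -/
lemma sm_bound {A : ℝ} (hA : 1000 ≤ A) : ∫ t in (0:ℝ)..A, zz t ≤ A * Real.log A ^ 2 := by
  have h := rare_int (E := univ) MeasurableSet.univ hA (V := A) (by linarith) (by
    rw [univ_inter, Real.volume_Icc, sub_zero])
  rw [univ_inter, Real.sqrt_mul_self (by linarith)] at h
  rw [intervalIntegral.integral_of_le (by linarith), ← integral_Icc_eq_integral_Ioc]
  exact h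

/-- choice of the window parameter -/
lemma win_ev : ∀ᶠ T : ℝ in atTop, ∀ X : ℝ, T / Real.log T ^ 2 / 2 ≤ X → X ≤ 2 * T →
    Rng X ⌈2 * Real.log T ^ 2⌉₊ := by
  have hlog := Real.tendsto_log_atTop
  have e2 : ∀ᶠ T : ℝ in atTop, Real.log (Real.log T) ≤ 1 / 32 * Real.log T := by
    have h1 := hlog.eventually (Real.isLittleO_log_id_atTop.bound (show (0:ℝ) < 1 / 32 by norm_num))
    filter_upwards [h1, hlog.eventually_ge_atTop 1] with T hT hT1
    simp only [id_eq] at hT
    rw [Real.norm_of_nonneg (by linarith : (0 : ℝ) ≤ Real.log T)] at hT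
    exact (le_abs_self _).trans hT
  filter_upwards [e2, hlog.eventually_ge_atTop 32, eventually_gt_atTop 1] with T hT hL hT1 X hX1 hX2
  have hT0 : 0 < T := by linarith
  set L := Real.log T with hLd
  have hL0 : 0 < L := by linarith
  have hlog2 : Real.log 2 < 0.6931471808 := Real.log_two_lt_d9
  have hlog20 : 0 < Real.log 2 := Real.log_pos (by norm_num)
  have hX0 : 0 < X := lt_of_lt_of_le (by positivity) hX1
  have h1 : Real.log X ≤ Real.log 2 + L := by
    rw [hLd, ← Real.log_mul (by norm_num) hT0.ne']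
    exact Real.log_le_log hX0 hX2
  have h2 : L - 2 * Real.log L - Real.log 2 ≤ Real.log X := by
    have h3 := Real.log_le_log (by positivity) hX1
    rw [Real.log_div (by positivity) (by norm_num), Real.log_div hT0.ne' (by positivity),
      Real.log_pow] at h3
    push_cast at h3
    exact h3
  have h3 : 7 / 8 * L ≤ Real.log X := by linarith
  have hk1 : 2 * L ^ 2 ≤ (⌈2 * L ^ 2⌉₊ : ℝ) := Nat.le_ceil _
  have hk2 : (⌈2 * L ^ 2⌉₊ : ℝ) < 2 * L ^ 2 + 1 := Nat.ceil_lt_add_one (by positivity)
  constructor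
  · refine le_trans ?_ hk1
    have : Real.log X ≤ 33 / 32 * L := by linarith
    have h4 : 0 ≤ Real.log X := by linarith
    nlinarith
  · refine hk2.le.trans ?_
    have h5 : (7 / 8 * L) ^ 2 ≤ Real.log X ^ 2 := pow_le_pow_left₀ (by positivity) h3 2
    nlinarith

/-- **The interval law**, nonnegative functions. -/
theorem torus_int0 (M : ℕ) (g : C(UnitAddTorus (Fin (kk M)), ℝ)) (hg0 : ∀ x, 0 ≤ g x) {η : ℝ}
    (hη : 0 < η) : ∀ᶠ T : ℝ in atTop,
      |(∫ t in (0:ℝ)..T, zz t * g (tP M t)) - mW M g * (T * Real.log T)| ≤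
        η * (T * Real.log T) := by
  obtain ⟨Cg, hCg⟩ : ∃ C, ∀ x, |g x| ≤ C := by
    obtain ⟨C, hC⟩ := isCompact_univ.exists_bound_of_continuousOn g.continuous.continuousOn
    exact ⟨C, fun x => hC x trivial⟩
  have hCg0 : 0 ≤ Cg := (abs_nonneg _).trans (hCg 0)
  set m := mW M g with hm
  have hm0 : 0 ≤ m := integral_nonneg fun x =>
    mul_nonneg (hg0 x) (PT_pos (rr_nonneg M) (rr_lt M) x).le
  set f : ℝ → ℝ := fun t => zz t * g (tP M t) with hf
  have hfc : Continuous f := zz_cont.mul (g.continuous.comp (tP_cont M))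
  have hf0 : ∀ t, 0 ≤ f t := fun t => mul_nonneg (zz_nonneg t) (hg0 _)
  have hwz : ∀ (k : ℕ) (X t : ℝ), om k (k / X) t * f t = wz k X t * g (tP M t) := by
    intro k X t
    simp only [hf, zz, wz]
    ring
  have hlow : ∀ᶠ T : ℝ in atTop, (m - η) * (T * Real.log T) ≤ ∫ t in (0:ℝ)..T, f t := by
    rcases le_or_gt (m - η / 2) 0 with hneg | hpos
    · filter_upwards [eventually_ge_atTop 1] with T hT
      have h1 : 0 ≤ ∫ t in (0:ℝ)..T, f t :=
        intervalIntegral.integral_nonneg (by linarith) fun t _ => hf0 t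
      have h2 : 0 ≤ T * Real.log T := mul_nonneg (by linarith) (Real.log_nonneg hT)
      have h3 : (m - η) * (T * Real.log T) ≤ 0 := mul_nonpos_of_nonpos_of_nonneg (by linarith) h2
      linarith
    · have h := Pool.Agent.H965R2.SMT1.window_gamma f hfc hf0
        ⟨576 * Cg, 4, fun t ht => by
          have h1 := z2_bound ht
          have h2 : g (tP M t) ≤ Cg := (le_abs_self _).trans (hCg _)
          calc f t = ‖riemannZeta (cl t)‖ ^ 2 * g (tP M t) := rfl
            _ ≤ (576 * (1 + t) ^ 4) * Cg := mul_le_mul h1 h2 (hg0 _) (by positivity)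
            _ = 576 * Cg * (1 + t) ^ 4 := by ring⟩ (m - η / 2) hpos.le 1 (by
          filter_upwards [torus_win M g (half_pos hη)] with Y hY k h1 h2
          have h3 := abs_le.1 (hY k ⟨h1, h2⟩)
          simp only [hwz, pow_one]
          linarith [h3.1]) (m - η) (by linarith)
      filter_upwards [h] with T hT
      rw [pow_one] at hT
      linarith
  have hupp : ∀ᶠ T : ℝ in atTop, ∫ t in (0:ℝ)..T, f t ≤ (m + η) * (T * Real.log T) := by
    obtain ⟨κ, hκ0, hκ1, hκ2⟩ : ∃ κ : ℝ, 0 < κ ∧ κ < 1 / 2 ∧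
        (1 + κ) * (1 + κ) * (m + κ) / (1 - κ) < m + η / 2 := by
      have h1 : Tendsto (fun κ : ℝ => (1 + κ) * (1 + κ) * (m + κ) / (1 - κ)) (𝓝[>] 0)
          (𝓝 ((1 + 0) * (1 + 0) * (m + 0) / (1 - 0))) := by
        refine Tendsto.mono_left ?_ nhdsWithin_le_nhds
        have hc : ContinuousAt (fun κ : ℝ => (1 + κ) * (1 + κ) * (m + κ) / (1 - κ)) 0 :=
          ContinuousAt.div (by fun_prop) (by fun_prop) (by norm_num)
        exact hc
      have e : ((1:ℝ) + 0) * (1 + 0) * (m + 0) / (1 - 0) = m := by ring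
      rw [e] at h1
      have h2 := h1.eventually_lt_const (show m < m + η / 2 by linarith)
      have h3 : ∀ᶠ κ : ℝ in 𝓝[>] 0, κ < 1 / 2 :=
        (eventually_lt_nhds (by norm_num)).filter_mono nhdsWithin_le_nhds
      have h4 : ∀ᶠ κ : ℝ in 𝓝[>] 0, 0 < κ := self_mem_nhdsWithin
      obtain ⟨κ, ha, hb, hc⟩ := (h2.and (h3.and h4)).exists
      exact ⟨κ, hc, hb, ha⟩
    obtain ⟨Y0, hY0⟩ := eventually_atTop.1 (torus_win M g hκ0)
    have hlog := Real.tendsto_log_atTop
    have hk : Tendsto (fun T : ℝ => (⌈2 * Real.log T ^ 2⌉₊ : ℝ)) atTop atTop := by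
      refine tendsto_atTop_mono (fun T => Nat.le_ceil _) ?_
      exact ((tendsto_pow_atTop two_ne_zero).comp Real.tendsto_log_atTop).const_mul_atTop two_pos
    have hη2 : ∀ᶠ T : ℝ in atTop, 4 / (κ ^ 2 * (⌈2 * Real.log T ^ 2⌉₊ : ℝ)) < κ := by
      have hη' : Tendsto (fun T : ℝ => 4 / (κ ^ 2 * (⌈2 * Real.log T ^ 2⌉₊ : ℝ))) atTop (𝓝 0) :=
        tendsto_const_nhds.div_atTop (hk.const_mul_atTop (by positivity))
      exact hη'.eventually_lt_const hκ0
    have hbig : ∀ᶠ T : ℝ in atTop, 2 * max Y0 1000 * Real.log T ^ 2 ≤ T := by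
      have h1 := (Real.isLittleO_pow_log_id_atTop (n := 2)).bound
        (show (0:ℝ) < 1 / (2 * max Y0 1000) by positivity)
      filter_upwards [h1, eventually_gt_atTop 0] with T hT hT0
      simp only [id_eq] at hT
      rw [Real.norm_of_nonneg (by positivity), Real.norm_of_nonneg hT0.le] at hT
      have h2 : (0:ℝ) < 2 * max Y0 1000 := by positivity
      calc 2 * max Y0 1000 * Real.log T ^ 2 ≤ 2 * max Y0 1000 * (1 / (2 * max Y0 1000) * T) :=
            mul_le_mul_of_nonneg_left hT h2.le
        _ = T := by field_simp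
    filter_upwards [win_ev, hη2, hbig, hlog.eventually_ge_atTop (max 2 (1 / κ)),
      hlog.eventually_ge_atTop (2 * Cg / η), eventually_ge_atTop 2000]
      with T hwin hη2 hbig hL hL2 hT1
    have hT0 : 0 < T := by linarith
    set L := Real.log T with hLd
    have hL1 : 2 ≤ L := (le_max_left _ _).trans hL
    have hL3 : 1 / κ ≤ L := (le_max_right _ _).trans hL
    have hL0 : 0 < L := by linarith
    set k := ⌈2 * L ^ 2⌉₊ with hkd
    set A := T / L ^ 2 with hA
    have hA0 : 0 < A := by positivity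
    have hA1 : 2 * max Y0 1000 ≤ A := by rw [hA, le_div_iff₀ (by positivity)]; exact hbig
    have hAT : A ≤ T := div_le_self hT0.le (by nlinarith)
    have hA2 : 1000 ≤ A := by
      have := le_max_right Y0 1000
      linarith
    have hrng : ∀ X ∈ Icc ((1 - κ) * A) ((1 + κ) * T), Rng X k ∧ Y0 ≤ X := by
      intro X hX
      have h1 : A / 2 ≤ X := by
        refine le_trans ?_ hX.1
        nlinarith
      have h2 : X ≤ 2 * T := hX.2.trans (by nlinarith)
      refine ⟨hwin X h1 h2, ?_⟩
      have := le_max_left Y0 1000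
      linarith
    have hk1 : 1 ≤ k := by
      have h1 := (hrng T ⟨by nlinarith, by nlinarith⟩).1
      exact rng_pos (by linarith) h1
    have hk0 : (0:ℝ) < k := by exact_mod_cast hk1
    have hup := upwin hfc hf0 hk1 hA0 hAT hκ0 (by linarith : κ < 1) (w := (m + κ) * (L + 1)) (by
      intro X hX
      have hX0 : 0 < X := lt_of_lt_of_le (mul_pos (by linarith) hA0) hX.1
      simp only [hwz]
      exact wz_int k (by positivity) (g.continuous.comp (tP_cont M)) fun t => hCg _) (by
      intro X hX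
      have hX0 : 0 < X := lt_of_lt_of_le (mul_pos (by linarith) hA0) hX.1
      obtain ⟨h1, h2⟩ := hrng X hX
      have h3 := (abs_le.1 (hY0 X h2 k h1)).2
      simp only [hwz]
      have h4 : Real.log X ≤ L + 1 := by
        have h5 : Real.log X ≤ Real.log ((1 + κ) * T) := Real.log_le_log hX0 hX.2
        rw [Real.log_mul (by positivity) hT0.ne'] at h5
        have h6 : Real.log (1 + κ) ≤ κ := by
          have := Real.log_le_sub_one_of_pos (show 0 < 1 + κ by positivity)
          linarith
        linarith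
      have h7 : (m + κ) * Real.log X ≤ (m + κ) * (L + 1) :=
        mul_le_mul_of_nonneg_left h4 (by linarith)
      linarith)
    have hsplit : ∫ t in (0:ℝ)..T, f t = (∫ t in (0:ℝ)..A, f t) + ∫ t in Icc A T, f t := by
      rw [integral_Icc_eq_integral_Ioc, ← intervalIntegral.integral_of_le hAT,
        intervalIntegral.integral_add_adjacent_intervals (hfc.intervalIntegrable _ _)
          (hfc.intervalIntegrable _ _)]
    have h0A : ∫ t in (0:ℝ)..A, f t ≤ Cg * T := by
      have h1 : ∫ t in (0:ℝ)..A, f t ≤ ∫ t in (0:ℝ)..A, Cg * zz t := by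
        refine intervalIntegral.integral_mono_on hA0.le (hfc.intervalIntegrable _ _)
          ((continuous_const.mul zz_cont).intervalIntegrable _ _) fun t _ => ?_
        have := mul_le_mul_of_nonneg_left ((le_abs_self _).trans (hCg (tP M t))) (zz_nonneg t)
        simp only [hf]
        linarith
      rw [intervalIntegral.integral_const_mul] at h1
      refine h1.trans (mul_le_mul_of_nonneg_left ?_ hCg0)
      refine (sm_bound hA2).trans ?_
      have h2 : Real.log A ^ 2 ≤ L ^ 2 :=
        pow_le_pow_left₀ (Real.log_nonneg (by linarith)) (Real.log_le_log hA0 hAT) 2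
      calc A * Real.log A ^ 2 ≤ A * L ^ 2 := mul_le_mul_of_nonneg_left h2 hA0.le
        _ = T := by rw [hA]; field_simp
    set J := ∫ t in Icc A T, f t with hJ
    have hJ0 : 0 ≤ J := setIntegral_nonneg measurableSet_Icc fun t _ => hf0 t
    have h5 : (1 - κ) * J ≤ (1 + κ) * T * ((m + κ) * ((1 + κ) * L)) := by
      have h6 : (1 - κ) * J ≤ (1 - 4 / (κ ^ 2 * (k : ℝ))) * J :=
        mul_le_mul_of_nonneg_right (by linarith) hJ0
      have h7 : L + 1 ≤ (1 + κ) * L := by
        rw [div_le_iff₀ hκ0] at hL3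
        linarith
      have h8 : ((1 + κ) * T - (1 - κ) * A) * ((m + κ) * (L + 1)) ≤
          (1 + κ) * T * ((m + κ) * ((1 + κ) * L)) := by
        refine mul_le_mul ?_ (mul_le_mul_of_nonneg_left h7 (by linarith)) ?_ (by positivity)
        · nlinarith
        · exact mul_nonneg (by linarith) (by linarith)
      linarith
    have h6 : J ≤ (m + η / 2) * (T * L) := by
      have h7 : J ≤ (1 + κ) * (1 + κ) * (m + κ) / (1 - κ) * (T * L) := by
        rw [div_mul_eq_mul_div, le_div_iff₀ (by linarith)]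
        linarith
      exact h7.trans (mul_le_mul_of_nonneg_right hκ2.le (by positivity))
    have h7 : Cg * T ≤ η / 2 * (T * L) := by
      rw [div_le_iff₀ hη] at hL2
      nlinarith
    rw [hsplit]
    linarith
  filter_upwards [hlow, hupp] with T h1 h2
  rw [abs_le]
  constructor <;> linarith

/-- **The interval law.** -/
theorem torus_int (M : ℕ) (g : C(UnitAddTorus (Fin (kk M)), ℝ)) {η : ℝ}
    (hη : 0 < η) : ∀ᶠ T : ℝ in atTop,
      |(∫ t in (0:ℝ)..T, zz t * g (tP M t)) - mW M g * (T * Real.log T)| ≤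
        η * (T * Real.log T) := by
  obtain ⟨Cg, hCg⟩ : ∃ C, ∀ x, |g x| ≤ C := by
    obtain ⟨C, hC⟩ := isCompact_univ.exists_bound_of_continuousOn g.continuous.continuousOn
    exact ⟨C, fun x => hC x trivial⟩
  have hCg0 : 0 ≤ Cg := (abs_nonneg _).trans (hCg 0)
  set g1 : C(UnitAddTorus (Fin (kk M)), ℝ) := ⟨fun x => g x + Cg, by fun_prop⟩ with hg1
  set g2 : C(UnitAddTorus (Fin (kk M)), ℝ) := ⟨fun _ => Cg, by fun_prop⟩ with hg2
  have h1 := torus_int0 M g1 (fun x => by
    have := (abs_le.1 (hCg x)).1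
    show 0 ≤ g x + Cg
    linarith) (half_pos hη)
  have h2 := torus_int0 M g2 (fun x => hCg0) (half_pos hη)
  have hWc := PT_cont (rr_nonneg M) (rr_lt M)
  have e1 : mW M g = mW M g1 - mW M g2 := by
    unfold mW
    have i1 : Integrable (fun x => g1 x * PT (rr M) x) (haarT (kk M)) :=
      int_cont (g1.continuous.mul hWc)
    have i2 : Integrable (fun x => g2 x * PT (rr M) x) (haarT (kk M)) :=
      int_cont (g2.continuous.mul hWc)
    rw [← integral_sub i1 i2]
    refine integral_congr_ae (Eventually.of_forall fun x => ?_)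
    show g x * PT (rr M) x = (g x + Cg) * PT (rr M) x - Cg * PT (rr M) x
    ring
  filter_upwards [h1, h2] with T h3 h4
  have c1 : Continuous fun t => zz t * g1 (tP M t) := zz_cont.mul (g1.continuous.comp (tP_cont M))
  have c2 : Continuous fun t => zz t * g2 (tP M t) := zz_cont.mul (g2.continuous.comp (tP_cont M))
  have e2 : ∫ t in (0:ℝ)..T, zz t * g (tP M t) = (∫ t in (0:ℝ)..T, zz t * g1 (tP M t)) -
      ∫ t in (0:ℝ)..T, zz t * g2 (tP M t) := by
    rw [← intervalIntegral.integral_sub (c1.intervalIntegrable _ _) (c2.intervalIntegrable _ _)]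
    refine intervalIntegral.integral_congr fun t _ => ?_
    show zz t * g (tP M t) = zz t * (g (tP M t) + Cg) - zz t * Cg
    ring
  rw [e1, e2]
  have h5 := abs_le.1 h3
  have h6 := abs_le.1 h4
  rw [abs_le]
  constructor <;> linarith [h5.1, h5.2, h6.1, h6.2]

end Pool.Agent.Q286.SB
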