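import Pool.Agent.Q286.SB.Poi
import Pool.Agent.Q286.UZ.Tor
import Pool.Agent.W184.NZ.Win
import Pool.Agent.TH806.TwB

/-!
Twisted second moments of zeta over smooth windows: functions on the torus.
-/

set_option autoImplicit false
set_option linter.all false

namespace Pool.Agent.Q286.SB

open Complex Filter Topology Set MeasureTheory TH803TW
open scoped ComplexConjugate
open Pool.Agent.Q286.UZ (kk pp pp_prime pp_inj al al_indep log_indep)
open Pool.Agent.H306R2.SM (om cl Yf)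
open Pool.Agent.H262R4.TM (Rng Ck)
open Pool.Agent.W184.NZ (wz wz_int wz_nonneg Mn Zm mh w1 wl mono_moment Mn_eq Mn_symm mh_eq mh_cont
  mh_norm_le)

lemma rng_pos {Y : ℝ} {k : ℕ} (hL : 1 ≤ Real.log Y) (h : Rng Y k) : 1 ≤ k := by
  have h1 := h.1
  have h2 : (1 : ℝ) ≤ k := by nlinarith
  exact_mod_cast h2

/-- one cross term -/
theorem cross {a b : ℕ} (ha : a ≠ 0) (hb : b ≠ 0) (hab : a ≠ b) {ε : ℂ} (hε : ‖ε‖ = 1) {κ : ℝ}
    (hκ : 0 < κ) : ∀ᶠ Y : ℝ in atTop, ∀ k : ℕ, Rng Y k →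
      |(∫ t in Ioi (0:ℝ), wz k Y t * (ε * mh t (a, b)).re) - ε.re * Mn k Y (a, b)| ≤ κ := by
  obtain ⟨η, hη, h⟩ := Pool.Agent.H262R4.TM.f_TSM2 (1 / 4) (by norm_num)
  obtain ⟨η', hη', h'⟩ := mono_moment
  have hsm : ∀ ρ : ℝ, 0 < ρ → ∀ᶠ Y : ℝ in atTop, Y ^ (-ρ) ≤ κ / 8 := fun ρ hρ =>
    (tendsto_rpow_neg_atTop hρ).eventually_le_const (by positivity)
  have hbig : ∀ᶠ Y : ℝ in atTop, ((max a b : ℕ) : ℝ) ≤ Y ^ ((1:ℝ) / 4) :=
    (tendsto_rpow_atTop (by norm_num)).eventually_ge_atTop _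
  filter_upwards [h, h', hsm η hη, hsm η' hη', hbig, Real.tendsto_log_atTop.eventually_ge_atTop 1,
    eventually_gt_atTop 3] with Y hY hY' s1 s2 hN hL hY3 k hk
  have hk1 := rng_pos hL hk
  have hk0 : (0:ℝ) < k := by exact_mod_cast hk1
  have hY0 : 0 < Y := by linarith
  have hδ : 0 < (k:ℝ) / Y := by positivity
  have hYf : 0 < Yf k Y := by unfold Yf; positivity
  set N := max a b with hNd
  have hm : a ∈ Finset.Icc 1 N := by
    rw [Finset.mem_Icc]; exact ⟨Nat.pos_of_ne_zero ha, le_max_left _ _⟩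
  have hn : b ∈ Finset.Icc 1 N := by
    rw [Finset.mem_Icc]; exact ⟨Nat.pos_of_ne_zero hb, le_max_right _ _⟩
  have haN : (a : ℝ) ≤ Y ^ ((1:ℝ) / 4) := le_trans (by exact_mod_cast le_max_left a b) hN
  have hbN : (b : ℝ) ≤ Y ^ ((1:ℝ) / 4) := le_trans (by exact_mod_cast le_max_right a b) hN
  have key : ∀ (c : ℂ) (F : ℕ → ℂ), ∑ j ∈ Finset.Icc 1 N,
      ((if j = a then (1:ℂ) / 2 else 0) + (if j = b then c / 2 else 0)) * F j =
        (F a + c * F b) / 2 := by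
    intro c F
    have e1 : ∀ j ∈ Finset.Icc 1 N, ((if j = a then (1:ℂ) / 2 else 0) + (if j = b then c / 2 else 0)) * F j =
        (if j = a then (1:ℂ) / 2 * F j else 0) + (if j = b then c / 2 * F j else 0) := by
      intro j _
      rw [add_mul, ite_mul, ite_mul, zero_mul]
    rw [Finset.sum_congr rfl e1, Finset.sum_add_distrib, Finset.sum_ite_eq', Finset.sum_ite_eq',
      if_pos hm, if_pos hn]
    ring
  have hε' : ‖conj ε‖ = 1 := by rw [RCLike.norm_conj, hε]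
  have h1 := hY k hk N hN (fun j => (if j = a then (1:ℂ) / 2 else 0) +
    (if j = b then (conj ε) / 2 else 0)) (by
      intro j
      refine (norm_add_le _ _).trans ?_
      have a1 : ‖(if j = a then (1:ℂ) / 2 else 0)‖ ≤ 1 / 2 := by
        split_ifs <;> norm_num
      have a2 : ‖(if j = b then (conj ε) / 2 else 0)‖ ≤ 1 / 2 := by
        split_ifs
        · rw [norm_div, hε']; norm_num
        · norm_num
      linarith)
  have e1 : ∀ t : ℝ, om k (k / Y) t * ‖riemannZeta (cl t)‖ ^ 2 * ‖∑ j ∈ Finset.Icc 1 N,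
      ((if j = a then (1:ℂ) / 2 else 0) + (if j = b then (conj ε) / 2 else 0)) *
        (j : ℂ) ^ (-(cl t))‖ ^ 2 =
      wz k Y t * ‖((a : ℂ) ^ (-(cl t)) + conj ε * (b : ℂ) ^ (-(cl t))) / 2‖ ^ 2 := by
    intro t
    rw [key (conj ε) (fun j => (j:ℂ) ^ (-(cl t)))]
    rfl
  simp_rw [e1] at h1
  have e2 : ∀ l : ℕ, conj ((if l = a then (1:ℂ) / 2 else 0) + (if l = b then (conj ε) / 2 else 0)) =
      (if l = a then (1:ℂ) / 2 else 0) + (if l = b then ε / 2 else 0) := by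
    intro l
    rw [map_add, apply_ite (starRingEnd ℂ), apply_ite (starRingEnd ℂ), map_zero, map_div₀, map_div₀,
      map_one, map_ofNat, conj_conj]
  have e4 : ∑ h ∈ Finset.Icc 1 N, ∑ l ∈ Finset.Icc 1 N,
      ((if h = a then (1:ℂ) / 2 else 0) + (if h = b then (conj ε) / 2 else 0)) *
      (starRingEnd ℂ) ((if l = a then (1:ℂ) / 2 else 0) + (if l = b then (conj ε) / 2 else 0)) *
      ((1 / (Nat.lcm h l : ℝ) *
        (Real.log (Yf k Y * (Nat.gcd h l : ℝ) ^ 2 / ((h : ℝ) * l)) + Ck k) : ℝ) : ℂ) =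
      (((Mn k Y (a, a) : ℂ) + ε * Mn k Y (a, b)) / 2 +
        conj ε * (((Mn k Y (b, a) : ℂ) + ε * Mn k Y (b, b)) / 2)) / 2 := by
    have e5 : ∀ h ∈ Finset.Icc 1 N, ∑ l ∈ Finset.Icc 1 N,
      ((if h = a then (1:ℂ) / 2 else 0) + (if h = b then (conj ε) / 2 else 0)) *
      (starRingEnd ℂ) ((if l = a then (1:ℂ) / 2 else 0) + (if l = b then (conj ε) / 2 else 0)) *
      ((1 / (Nat.lcm h l : ℝ) *
        (Real.log (Yf k Y * (Nat.gcd h l : ℝ) ^ 2 / ((h : ℝ) * l)) + Ck k) : ℝ) : ℂ) =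
      ((if h = a then (1:ℂ) / 2 else 0) + (if h = b then (conj ε) / 2 else 0)) *
        (((Mn k Y (h, a) : ℂ) + ε * Mn k Y (h, b)) / 2) := by
      intro h hh
      rw [← key ε (fun l => (Mn k Y (h, l) : ℂ)), Finset.mul_sum]
      refine Finset.sum_congr rfl fun l hl => ?_
      rw [Finset.mem_Icc] at hh hl
      rw [e2, Mn_eq hYf (by omega) (by omega)]; ring
    rw [Finset.sum_congr rfl e5, key (conj ε) (fun h => (((Mn k Y (h, a) : ℂ) + ε * Mn k Y (h, b)) / 2))]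
  rw [e4] at h1
  -- the integrand
  have hpt : ∀ t : ℝ, ‖((a : ℂ) ^ (-(cl t)) + conj ε * (b : ℂ) ^ (-(cl t))) / 2‖ ^ 2 =
      1 / 4 * (mh t (a, a)).re + 1 / 4 * (mh t (b, b)).re + 1 / 2 * (ε * mh t (a, b)).re := by
    intro t
    have hee : conj ε * ε = 1 := by
      rw [mul_comm, mul_conj', hε]; simp
    have h2 : ((‖((a : ℂ) ^ (-(cl t)) + conj ε * (b : ℂ) ^ (-(cl t))) / 2‖ ^ 2 : ℝ) : ℂ) =
        1 / 4 * mh t (a, a) + 1 / 4 * mh t (b, b) + 1 / 4 * (ε * mh t (a, b)) +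
          1 / 4 * conj (ε * mh t (a, b)) := by
      push_cast
      rw [← mul_conj', mh_eq t a ha, mh_eq t b hb, mh_eq t a hb]
      simp only [map_div₀, map_add, map_mul, conj_conj, map_ofNat]
      linear_combination (1 / 4 * ((b : ℂ) ^ (-(cl t)) * conj ((b : ℂ) ^ (-(cl t))))) * hee
    have h3 := congrArg Complex.re h2
    rw [ofReal_re] at h3
    rw [h3]
    simp only [add_re, mul_re, conj_re, conj_im]
    norm_num
    ring
  have hbd : ∀ (x : ℕ × ℕ) (c : ℂ), x.1 ≠ 0 → x.2 ≠ 0 → ‖c‖ = 1 →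
      IntegrableOn (fun t => wz k Y t * (c * mh t x).re) (Ioi 0) := by
    intro x c h1 h2 hc
    refine wz_int k hδ (C := 1) ?_ fun t => ?_
    · exact Complex.continuous_re.comp (continuous_const.mul (mh_cont h1 h2))
    · refine (Complex.abs_re_le_norm _).trans ?_
      rw [norm_mul, hc, one_mul]
      exact mh_norm_le h1 h2
  have i1 : IntegrableOn (fun t => wz k Y t * (mh t (a, a)).re) (Ioi 0) := by
    have := hbd (a, a) 1 ha ha norm_one
    simpa only [one_mul] using this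
  have i2 : IntegrableOn (fun t => wz k Y t * (mh t (b, b)).re) (Ioi 0) := by
    have := hbd (b, b) 1 hb hb norm_one
    simpa only [one_mul] using this
  have i3 := hbd (a, b) ε ha hb hε
  have hJ : ∫ t in Ioi (0:ℝ), wz k Y t *
      ‖((a : ℂ) ^ (-(cl t)) + conj ε * (b : ℂ) ^ (-(cl t))) / 2‖ ^ 2 =
      1 / 4 * Zm k Y (a, a) + 1 / 4 * Zm k Y (b, b) +
        1 / 2 * ∫ t in Ioi (0:ℝ), wz k Y t * (ε * mh t (a, b)).re := by
    have e5 : ∀ t, wz k Y t * ‖((a : ℂ) ^ (-(cl t)) + conj ε * (b : ℂ) ^ (-(cl t))) / 2‖ ^ 2 =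
        (1 / 4 * (wz k Y t * (mh t (a, a)).re) + 1 / 4 * (wz k Y t * (mh t (b, b)).re)) +
          1 / 2 * (wz k Y t * (ε * mh t (a, b)).re) := by
      intro t
      rw [hpt]
      ring
    simp only [e5]
    have i12 : IntegrableOn (fun t => 1 / 4 * (wz k Y t * (mh t (a, a)).re) +
        1 / 4 * (wz k Y t * (mh t (b, b)).re)) (Ioi 0) := (i1.const_mul _).add (i2.const_mul _)
    rw [integral_add i12 (i3.const_mul _), integral_add (i1.const_mul _) (i2.const_mul _),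
      integral_const_mul, integral_const_mul, integral_const_mul]
    rfl
  rw [hJ] at h1
  have z1 := abs_le.1 (hY' k hk (a, a) ha ha haN haN)
  have z2 := abs_le.1 (hY' k hk (b, b) hb hb hbN hbN)
  set J := ∫ t in Ioi (0:ℝ), wz k Y t * (ε * mh t (a, b)).re with hJd
  have hre : ((1 / 4 * Zm k Y (a, a) + 1 / 4 * Zm k Y (b, b) + 1 / 2 * J) -
      (1 / 4 * Mn k Y (a, a) + 1 / 4 * Mn k Y (b, b) + 1 / 2 * (ε.re * Mn k Y (a, b)))) =
      ((((1 / 4 * Zm k Y (a, a) + 1 / 4 * Zm k Y (b, b) + 1 / 2 * J : ℝ)) : ℂ) -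
      (((Mn k Y (a, a) : ℂ) + ε * Mn k Y (a, b)) / 2 +
        conj ε * (((Mn k Y (b, a) : ℂ) + ε * Mn k Y (b, b)) / 2)) / 2).re := by
    have hee : ε.re * ε.re + ε.im * ε.im = 1 := by
      have := Complex.sq_norm ε
      rw [hε, Complex.normSq_apply] at this
      linarith
    rw [Mn_symm k Y b a]
    have e6 : (((Mn k Y (a, a) : ℂ) + ε * Mn k Y (a, b)) / 2 +
        conj ε * (((Mn k Y (a, b) : ℂ) + ε * Mn k Y (b, b)) / 2)) / 2 =
        ((1 / 4 * Mn k Y (a, a) + 1 / 4 * Mn k Y (b, b) : ℝ) : ℂ) + 1 / 4 * (ε * Mn k Y (a, b) +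
          conj ε * Mn k Y (a, b)) := by
      have hee' : conj ε * ε = 1 := by
        rw [mul_comm, mul_conj', hε]; simp
      push_cast
      linear_combination (1 / 4 * (Mn k Y (b, b) : ℂ)) * hee'
    rw [e6]
    simp only [sub_re, add_re, mul_re, ofReal_re, ofReal_im, conj_re, conj_im]
    norm_num
    ring
  have h3 := (Complex.abs_re_le_norm _).trans h1
  rw [← hre] at h3
  have h4 := abs_le.1 h3
  rw [abs_le]
  constructor <;> linarith [h4.1, h4.2, z1.1, z1.2, z2.1, z2.2]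

end Pool.Agent.Q286.SB
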