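import Pool.Agent.TH803.TW.AP

/-!
Poisson kernels on the torus.
-/

set_option autoImplicit false
set_option linter.all false

namespace Pool.Agent.Q286.SB

open Complex Filter Topology Set MeasureTheory TH803TW
open scoped ComplexConjugate

/-- the Poisson kernel on the circle -/
noncomputable def PK (r : ℝ) (x : UnitAddCircle) : ℝ :=
  (1 - r ^ 2) / ‖1 - (r : ℂ) * fourier 1 x‖ ^ 2

lemma f1_norm (x : UnitAddCircle) (n : ℤ) : ‖fourier n x‖ = 1 := by
  rw [fourier_apply]; exact Circle.norm_coe _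

lemma den_ne {r : ℝ} (h0 : 0 ≤ r) (h1 : r < 1) (x : UnitAddCircle) (n : ℤ) :
    (1 : ℂ) - (r : ℂ) * fourier n x ≠ 0 := by
  intro h
  have h2 : (r : ℂ) * fourier n x = 1 := by linear_combination -h
  have h3 := congrArg norm h2
  rw [norm_mul, f1_norm, Complex.norm_real, Real.norm_eq_abs, abs_of_nonneg h0, norm_one] at h3
  linarith

lemma PK_cont {r : ℝ} (h0 : 0 ≤ r) (h1 : r < 1) : Continuous (PK r) := by
  unfold PK
  refine Continuous.div continuous_const (by fun_prop) fun x => ?_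
  have := den_ne h0 h1 x 1
  exact pow_ne_zero 2 (norm_ne_zero_iff.2 this)

lemma PK_pos {r : ℝ} (h0 : 0 ≤ r) (h1 : r < 1) (x : UnitAddCircle) : 0 < PK r x := by
  unfold PK
  have h2 := norm_pos_iff.2 (den_ne h0 h1 x 1)
  have h3 : 0 < 1 - r ^ 2 := by nlinarith
  positivity

lemma fneg (x : UnitAddCircle) : fourier (-1) x = conj (fourier 1 x) := by
  rw [fourier_neg]

lemma PK_split {r : ℝ} (h0 : 0 ≤ r) (h1 : r < 1) (x : UnitAddCircle) :
    (PK r x : ℂ) = (1 - (r : ℂ) * fourier 1 x)⁻¹ + (1 - (r : ℂ) * fourier (-1) x)⁻¹ - 1 := by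
  have d1 := den_ne h0 h1 x 1
  have d2 := den_ne h0 h1 x (-1)
  have hz : (fourier 1 x : ℂ) * fourier (-1) x = 1 := by
    rw [fneg, mul_conj', f1_norm]
    simp
  have hn : ((‖1 - (r : ℂ) * fourier 1 x‖ ^ 2 : ℝ) : ℂ) =
      (1 - (r : ℂ) * fourier 1 x) * (1 - (r : ℂ) * fourier (-1) x) := by
    push_cast
    rw [← mul_conj', map_sub, map_mul, map_one, conj_ofReal, fneg]
  unfold PK
  rw [ofReal_div, hn]
  push_cast
  field_simp
  linear_combination ((r : ℂ) ^ 2) * hz

lemma f_pow (x : UnitAddCircle) (e : ℤ) (m : ℕ) : (fourier e x : ℂ) ^ m = fourier (m * e) x := by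
  induction m with
  | zero => simp
  | succ m ih =>
    rw [pow_succ, ih, ← fourier_add]
    congr 1
    push_cast
    ring

/-- one sided expansion -/
lemma int_one {r : ℝ} (h0 : 0 ≤ r) (h1 : r < 1) (n e : ℤ) :
    ∫ x : UnitAddCircle, fourier n x * (1 - (r : ℂ) * fourier e x)⁻¹ ∂AddCircle.haarAddCircle =
      ∑' m : ℕ, (r : ℂ) ^ m * (if n + m * e = 0 then 1 else 0) := by
  have hF : ∀ m : ℕ, Integrable (fun x : UnitAddCircle => (r : ℂ) ^ m * fourier (n + m * e) x)
      AddCircle.haarAddCircle := fun m =>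
    (continuous_const.mul (map_continuous _)).integrable_of_hasCompactSupport
      (HasCompactSupport.of_compactSpace _)
  have hS : Summable fun m : ℕ => ∫ x : UnitAddCircle, ‖(r : ℂ) ^ m * fourier (n + m * e) x‖
      ∂AddCircle.haarAddCircle := by
    have : ∀ m : ℕ, ∫ x : UnitAddCircle, ‖(r : ℂ) ^ m * fourier (n + m * e) x‖
      ∂AddCircle.haarAddCircle = r ^ m := by
      intro m
      have e1 : ∀ x : UnitAddCircle, ‖(r : ℂ) ^ m * fourier (n + m * e) x‖ = r ^ m := by
        intro x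
        rw [norm_mul, f1_norm, mul_one, norm_pow, Complex.norm_real, Real.norm_eq_abs,
          abs_of_nonneg h0]
      simp only [e1, integral_const, probReal_univ, smul_eq_mul, one_mul]
    simp only [this]
    exact summable_geometric_of_lt_one h0 h1
  have h := hasSum_integral_of_summable_integral_norm hF hS
  have e2 : ∀ x : UnitAddCircle, ∑' m : ℕ, (r : ℂ) ^ m * fourier (n + m * e) x =
      fourier n x * (1 - (r : ℂ) * fourier e x)⁻¹ := by
    intro x
    have h2 : ‖(r : ℂ) * fourier e x‖ < 1 := by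
      rw [norm_mul, f1_norm, mul_one, Complex.norm_real, Real.norm_eq_abs, abs_of_nonneg h0]
      exact h1
    rw [← tsum_geometric_of_norm_lt_one h2, ← tsum_mul_left]
    congr 1
    funext m
    rw [mul_pow, f_pow, fourier_add]
    ring
  simp only [e2] at h
  rw [← h.tsum_eq]
  congr 1
  funext m
  rw [integral_const_mul, int_fourier]

lemma tsum_single_ite {r : ℂ} {P : ℕ → Prop} [DecidablePred P] (k : ℕ) (h : ∀ m, P m ↔ m = k) :
    ∑' m : ℕ, r ^ m * (if P m then 1 else 0) = r ^ k := by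
  rw [tsum_eq_single k]
  · rw [if_pos ((h k).2 rfl), mul_one]
  · intro m hm
    rw [if_neg (fun hp => hm ((h m).1 hp)), mul_zero]

lemma tsum_none_ite {r : ℂ} {P : ℕ → Prop} [DecidablePred P] (h : ∀ m, ¬ P m) :
    ∑' m : ℕ, r ^ m * (if P m then 1 else 0) = 0 := by
  have e : (fun m : ℕ => r ^ m * (if P m then (1:ℂ) else 0)) = fun _ => 0 := by
    funext m
    rw [if_neg (h m), mul_zero]
  rw [e, tsum_zero]

/-- the Fourier coefficients of the Poisson kernel -/
lemma int_PK {r : ℝ} (h0 : 0 ≤ r) (h1 : r < 1) (n : ℤ) :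
    ∫ x : UnitAddCircle, fourier n x * (PK r x : ℂ) ∂AddCircle.haarAddCircle =
      (r : ℂ) ^ n.natAbs := by
  have hi : ∀ g : UnitAddCircle → ℂ, Continuous g → Integrable g AddCircle.haarAddCircle :=
    fun g hg => hg.integrable_of_hasCompactSupport (HasCompactSupport.of_compactSpace _)
  have c1 : Continuous fun x : UnitAddCircle => fourier n x * (1 - (r : ℂ) * fourier 1 x)⁻¹ :=
    (map_continuous _).mul (Continuous.inv₀ (by fun_prop) fun x => den_ne h0 h1 x 1)
  have c2 : Continuous fun x : UnitAddCircle => fourier n x * (1 - (r : ℂ) * fourier (-1) x)⁻¹ :=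
    (map_continuous _).mul (Continuous.inv₀ (by fun_prop) fun x => den_ne h0 h1 x (-1))
  have c3 : Continuous fun x : UnitAddCircle => (fourier n x : ℂ) := map_continuous _
  have e : ∀ x : UnitAddCircle, fourier n x * (PK r x : ℂ) =
      fourier n x * (1 - (r : ℂ) * fourier 1 x)⁻¹ + fourier n x * (1 - (r : ℂ) * fourier (-1) x)⁻¹
        - fourier n x := by
    intro x
    rw [PK_split h0 h1]
    ring
  simp only [e]
  have i12 : Integrable (fun x : UnitAddCircle => fourier n x * (1 - (r : ℂ) * fourier 1 x)⁻¹ +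
      fourier n x * (1 - (r : ℂ) * fourier (-1) x)⁻¹) AddCircle.haarAddCircle :=
    (hi _ c1).add (hi _ c2)
  rw [integral_sub i12 (hi _ c3), integral_add (hi _ c1) (hi _ c2),
    int_one h0 h1, int_one h0 h1, int_fourier]
  rcases lt_trichotomy n 0 with hn | hn | hn
  · have e1 : ∑' m : ℕ, (r : ℂ) ^ m * (if n + m * (1:ℤ) = 0 then 1 else 0) = (r : ℂ) ^ n.natAbs :=
      tsum_single_ite _ fun m => by omega
    have e2 : ∑' m : ℕ, (r : ℂ) ^ m * (if n + m * (-1:ℤ) = 0 then (1:ℂ) else 0) = 0 :=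
      tsum_none_ite fun m => by omega
    rw [e1, e2, if_neg hn.ne]
    ring
  · subst hn
    have e1 : ∑' m : ℕ, (r : ℂ) ^ m * (if (0:ℤ) + m * (1:ℤ) = 0 then 1 else 0) = (r : ℂ) ^ 0 :=
      tsum_single_ite _ fun m => by omega
    have e2 : ∑' m : ℕ, (r : ℂ) ^ m * (if (0:ℤ) + m * (-1:ℤ) = 0 then (1:ℂ) else 0) = (r : ℂ) ^ 0 :=
      tsum_single_ite _ fun m => by omega
    rw [e1, e2]
    simp
  · have e2 : ∑' m : ℕ, (r : ℂ) ^ m * (if n + m * (-1:ℤ) = 0 then 1 else 0) = (r : ℂ) ^ n.natAbs :=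
      tsum_single_ite _ fun m => by omega
    have e1 : ∑' m : ℕ, (r : ℂ) ^ m * (if n + m * (1:ℤ) = 0 then (1:ℂ) else 0) = 0 :=
      tsum_none_ite fun m => by omega
    rw [e1, e2, if_neg hn.ne']
    ring

/-- the inverse of the Poisson kernel has mean `(1 + r²) / (1 - r²)` -/
lemma int_PK_inv {r : ℝ} (h0 : 0 ≤ r) (h1 : r < 1) :
    ∫ x : UnitAddCircle, (PK r x)⁻¹ ∂AddCircle.haarAddCircle = (1 + r ^ 2) / (1 - r ^ 2) := by
  have h2 : 0 < 1 - r ^ 2 := by nlinarith
  have hi : ∀ n : ℤ, Integrable (fun x : UnitAddCircle => (fourier n x : ℂ))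
      AddCircle.haarAddCircle := fun n =>
    (map_continuous _).integrable_of_hasCompactSupport (HasCompactSupport.of_compactSpace _)
  have e : ∀ x : UnitAddCircle, (((PK r x)⁻¹ : ℝ) : ℂ) =
      ((1 + r ^ 2 : ℝ) : ℂ) / ((1 - r ^ 2 : ℝ) : ℂ) -
        ((r : ℂ) / ((1 - r ^ 2 : ℝ) : ℂ)) * (fourier 1 x + fourier (-1) x) := by
    intro x
    have hz : (fourier 1 x : ℂ) * fourier (-1) x = 1 := by
      rw [fneg, mul_conj', f1_norm]
      simp
    have hn : ((‖1 - (r : ℂ) * fourier 1 x‖ ^ 2 : ℝ) : ℂ) =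
        (1 - (r : ℂ) * fourier 1 x) * (1 - (r : ℂ) * fourier (-1) x) := by
      push_cast
      rw [← mul_conj', map_sub, map_mul, map_one, conj_ofReal, fneg]
    have h3 : ((1 - r ^ 2 : ℝ) : ℂ) ≠ 0 := by exact_mod_cast h2.ne'
    unfold PK
    rw [inv_div, ofReal_div, hn]
    field_simp
    push_cast
    linear_combination (r : ℂ) ^ 2 * hz
  have h4 : ((∫ x : UnitAddCircle, (PK r x)⁻¹ ∂AddCircle.haarAddCircle : ℝ) : ℂ) =
      ((1 + r ^ 2 : ℝ) : ℂ) / ((1 - r ^ 2 : ℝ) : ℂ) := by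
    rw [← integral_complex_ofReal]
    simp only [e]
    have i1 : Integrable (fun x : UnitAddCircle => ((r : ℂ) / ((1 - r ^ 2 : ℝ) : ℂ)) *
        (fourier 1 x + fourier (-1) x)) AddCircle.haarAddCircle :=
      ((hi 1).add (hi (-1))).const_mul _
    rw [integral_sub (integrable_const _) i1,
      integral_const_mul, integral_add (hi 1) (hi (-1)), int_fourier, int_fourier]
    simp
  exact_mod_cast h4

/-- products of Poisson kernels -/
noncomputable def PT {k : ℕ} (r : Fin k → ℝ) (x : UnitAddTorus (Fin k)) : ℝ := ∏ j, PK (r j) (x j)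

lemma PT_cont {k : ℕ} {r : Fin k → ℝ} (h0 : ∀ j, 0 ≤ r j) (h1 : ∀ j, r j < 1) :
    Continuous (PT r) := by
  unfold PT
  exact continuous_finsetProd _ fun j _ => (PK_cont (h0 j) (h1 j)).comp (continuous_apply j)

lemma PT_pos {k : ℕ} {r : Fin k → ℝ} (h0 : ∀ j, 0 ≤ r j) (h1 : ∀ j, r j < 1)
    (x : UnitAddTorus (Fin k)) : 0 < PT r x :=
  Finset.prod_pos fun j _ => PK_pos (h0 j) (h1 j) _

lemma int_cont {k : ℕ} {g : UnitAddTorus (Fin k) → ℝ} (hg : Continuous g) :
    Integrable g (haarT k) :=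
  hg.integrable_of_hasCompactSupport (HasCompactSupport.of_compactSpace _)

lemma int_contC {k : ℕ} {g : UnitAddTorus (Fin k) → ℂ} (hg : Continuous g) :
    Integrable g (haarT k) :=
  hg.integrable_of_hasCompactSupport (HasCompactSupport.of_compactSpace _)

lemma int_mF_PT {k : ℕ} {r : Fin k → ℝ} (h0 : ∀ j, 0 ≤ r j) (h1 : ∀ j, r j < 1) (n : Fin k → ℤ) :
    ∫ x, UnitAddTorus.mFourier n x * (PT r x : ℂ) ∂(haarT k) =
      ∏ j, (r j : ℂ) ^ (n j).natAbs := by
  have e : ∀ x : UnitAddTorus (Fin k), UnitAddTorus.mFourier n x * (PT r x : ℂ) =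
      ∏ j, (fourier (n j) (x j) * (PK (r j) (x j) : ℂ)) := by
    intro x
    unfold UnitAddTorus.mFourier PT
    simp only [ContinuousMap.coe_mk]
    rw [Finset.prod_mul_distrib]
    push_cast
    rfl
  simp only [e]
  unfold haarT
  rw [integral_fintype_prod_eq_prod (𝕜 := ℂ)
    (fun j => fun y : UnitAddCircle => (fourier (n j) y * (PK (r j) y : ℂ)))]
  exact Finset.prod_congr rfl fun j _ => int_PK (h0 j) (h1 j) _

lemma int_PT {k : ℕ} {r : Fin k → ℝ} (h0 : ∀ j, 0 ≤ r j) (h1 : ∀ j, r j < 1) :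
    ∫ x, PT r x ∂(haarT k) = 1 := by
  have h := int_mF_PT h0 h1 0
  simp only [UnitAddTorus.mFourier_zero, ContinuousMap.one_apply, one_mul, Pi.zero_apply,
    Int.natAbs_zero, pow_zero, Finset.prod_const_one] at h
  rw [integral_complex_ofReal] at h
  exact_mod_cast h

lemma int_PT_inv {k : ℕ} {r : Fin k → ℝ} (h0 : ∀ j, 0 ≤ r j) (h1 : ∀ j, r j < 1) :
    ∫ x, (PT r x)⁻¹ ∂(haarT k) = ∏ j, (1 + r j ^ 2) / (1 - r j ^ 2) := by
  have e : ∀ x : UnitAddTorus (Fin k), (PT r x)⁻¹ = ∏ j, (PK (r j) (x j))⁻¹ := by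
    intro x
    unfold PT
    rw [Finset.prod_inv_distrib]
  simp only [e]
  unfold haarT
  rw [integral_fintype_prod_eq_prod (𝕜 := ℝ) (fun j => fun y : UnitAddCircle => (PK (r j) y)⁻¹)]
  exact Finset.prod_congr rfl fun j _ => int_PK_inv (h0 j) (h1 j)

/-- Cauchy-Schwarz -/
lemma cs_PT {k : ℕ} {r : Fin k → ℝ} (h0 : ∀ j, 0 ≤ r j) (h1 : ∀ j, r j < 1)
    {g : UnitAddTorus (Fin k) → ℝ} (hg : Continuous g) (g0 : ∀ x, 0 ≤ g x) (g1 : ∀ x, g x ≤ 1) :
    (∫ x, g x ∂(haarT k)) ^ 2 ≤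
      (∏ j, (1 + r j ^ 2) / (1 - r j ^ 2)) * ∫ x, g x * PT r x ∂(haarT k) := by
  set d := ∫ x, g x ∂(haarT k) with hd
  set P := ∫ x, g x * PT r x ∂(haarT k) with hP
  set Q := ∏ j, (1 + r j ^ 2) / (1 - r j ^ 2) with hQ
  have hcW := PT_cont h0 h1
  have hcI : Continuous fun x => (PT r x)⁻¹ := hcW.inv₀ fun x => (PT_pos h0 h1 x).ne'
  have hd0 : 0 ≤ d := integral_nonneg g0
  have hQ0 : 0 < Q := Finset.prod_pos fun j _ => by
    have : 0 < 1 - r j ^ 2 := by nlinarith [h0 j, h1 j]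
    positivity
  rcases eq_or_lt_of_le hd0 with h | h
  · rw [← h]
    have : 0 ≤ P := integral_nonneg fun x => mul_nonneg (g0 x) (PT_pos h0 h1 x).le
    simp only [ne_eq, OfNat.ofNat_ne_zero, not_false_eq_true, zero_pow]
    positivity
  · set lam := Q / d with hlam
    have hl : 0 < lam := by positivity
    have key : d ≤ (lam * P + Q / lam) / 2 := by
      have h3 : d ≤ ∫ x, (lam / 2 * (g x * PT r x) + 1 / (2 * lam) * (PT r x)⁻¹) ∂(haarT k) := by
        refine integral_mono (int_cont hg) ((int_cont (hg.mul hcW)).const_mul _ |>.add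
          ((int_cont hcI).const_mul _)) fun x => ?_
        have hW := PT_pos h0 h1 x
        beta_reduce
        set W := PT r x
        have h4 : 1 ≤ (lam * W + 1 / (lam * W)) / 2 := by
          have h5 : 0 < lam * W := by positivity
          have h6 : lam * W + 1 / (lam * W) - 2 = (lam * W - 1) ^ 2 / (lam * W) := by
            field_simp
            ring
          have h7 : 0 ≤ (lam * W - 1) ^ 2 / (lam * W) := by positivity
          linarith
        have h8 : g x * 1 ≤ g x * ((lam * W + 1 / (lam * W)) / 2) :=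
          mul_le_mul_of_nonneg_left h4 (g0 x)
        have h9 : g x * (1 / (2 * lam) * W⁻¹) ≤ 1 * (1 / (2 * lam) * W⁻¹) :=
          mul_le_mul_of_nonneg_right (g1 x) (by positivity)
        have e : g x * ((lam * W + 1 / (lam * W)) / 2) =
            lam / 2 * (g x * W) + g x * (1 / (2 * lam) * W⁻¹) := by
          field_simp
        linarith
      have i1 : Integrable (fun x => lam / 2 * (g x * PT r x)) (haarT k) :=
        (int_cont (hg.mul hcW)).const_mul _
      have i2 : Integrable (fun x => 1 / (2 * lam) * (PT r x)⁻¹) (haarT k) :=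
        (int_cont hcI).const_mul _
      rw [integral_add i1 i2,
        integral_const_mul, integral_const_mul, int_PT_inv h0 h1] at h3
      have e : lam / 2 * P + 1 / (2 * lam) * Q = (lam * P + Q / lam) / 2 := by
        field_simp
      linarith
    have e1 : Q / lam = d := by rw [hlam]; field_simp
    rw [e1] at key
    have h5 : d ≤ lam * P := by linarith
    rw [hlam, div_mul_eq_mul_div, le_div_iff₀ h] at h5
    nlinarith

end Pool.Agent.Q286.SB
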