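import Pool.Agent.Q286.SB.Mono

/-!
The window law for continuous functions on the torus.
-/

set_option autoImplicit false
set_option linter.all false

namespace Pool.Agent.Q286.SB

open Complex Filter Topology Set MeasureTheory TH803TW
open scoped ComplexConjugate
open Pool.Agent.Q286.UZ (kk pp pp_prime pp_inj al al_indep log_indep)
open Pool.Agent.H306R2.SM (om cl Yf)
open Pool.Agent.H262R4.TM (Rng Ck)
open Pool.Agent.W184.NZ (wz wz_int wz_nonneg Mn Zm mh w1 wl mono_moment Mn_eq Mn_symm mh_eq mh_cont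
  mh_norm_le)

/-- numerator -/
noncomputable def Aq (M : ℕ) (n : Fin (kk M) → ℤ) : ℕ := ∏ j, pp M j ^ (n j).toNat

lemma Aq_pos (M : ℕ) (n : Fin (kk M) → ℤ) : 0 < Aq M n :=
  Finset.prod_pos fun j _ => pow_pos (pp_prime M j).pos _

lemma AB_cop (M : ℕ) (n : Fin (kk M) → ℤ) : Nat.Coprime (Aq M n) (Aq M (-n)) := by
  unfold Aq
  refine Nat.Coprime.prod_left fun i _ => Nat.Coprime.prod_right fun j _ => ?_
  by_cases hij : i = j
  · subst hij
    rcases le_total 0 (n i) with h | h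
    · have : (-n i).toNat = 0 := Int.toNat_of_nonpos (by omega)
      simp [this]
    · have : (n i).toNat = 0 := Int.toNat_of_nonpos h
      simp [this]
  · refine Nat.Coprime.pow _ _ ?_
    rw [Nat.coprime_primes (pp_prime M i) (pp_prime M j)]
    exact fun h => hij (pp_inj M h)

lemma log_A (M : ℕ) (n : Fin (kk M) → ℤ) :
    Real.log (Aq M n) = ∑ j, ((n j).toNat : ℝ) * Real.log (pp M j) := by
  unfold Aq
  push_cast
  rw [Real.log_prod (fun j _ => (pow_pos (by exact_mod_cast (pp_prime M j).pos) _).ne')]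
  exact Finset.sum_congr rfl fun j _ => by rw [Real.log_pow]

lemma log_AB (M : ℕ) (n : Fin (kk M) → ℤ) :
    Real.log (Aq M n) - Real.log (Aq M (-n)) = ∑ j, (n j : ℝ) * Real.log (pp M j) := by
  rw [log_A, log_A, ← Finset.sum_sub_distrib]
  refine Finset.sum_congr rfl fun j _ => ?_
  rw [← sub_mul]
  congr 1
  have : ((n j).toNat : ℤ) - ((-n j).toNat : ℤ) = n j := by omega
  rw [Pi.neg_apply]
  exact_mod_cast this

lemma AB_ne {M : ℕ} {n : Fin (kk M) → ℤ} (hn : n ≠ 0) : Aq M (-n) ≠ Aq M n := by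
  intro h
  apply hn
  apply log_indep (pp M) (pp_prime M) (pp_inj M) n
  rw [← log_AB, h, sub_self]

/-- `p^{-1/2}` -/
noncomputable def rr (M : ℕ) (j : Fin (kk M)) : ℝ := (pp M j : ℝ) ^ (-(1 / 2) : ℝ)

lemma rr_nonneg (M : ℕ) (j : Fin (kk M)) : 0 ≤ rr M j := by unfold rr; positivity

lemma rr_lt (M : ℕ) (j : Fin (kk M)) : rr M j < 1 := by
  unfold rr
  refine Real.rpow_lt_one_of_one_lt_of_neg ?_ (by norm_num)
  exact_mod_cast (pp_prime M j).one_lt

lemma rr_sq (M : ℕ) (j : Fin (kk M)) : rr M j ^ 2 = 1 / (pp M j : ℝ) := by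
  have h0 : (0:ℝ) ≤ pp M j := by positivity
  unfold rr
  rw [← Real.rpow_natCast, ← Real.rpow_mul h0, one_div]
  norm_num
  rw [Real.rpow_neg_one]

lemma prod_rr (M : ℕ) (n : Fin (kk M) → ℤ) :
    ∏ j, (rr M j) ^ (n j).natAbs = ((Aq M (-n) : ℝ) * Aq M n) ^ (-(1 / 2) : ℝ) := by
  have h1 : (Aq M (-n) : ℝ) * Aq M n = ∏ j, (pp M j : ℝ) ^ (n j).natAbs := by
    unfold Aq
    push_cast
    rw [← Finset.prod_mul_distrib]
    refine Finset.prod_congr rfl fun j _ => ?_
    rw [← pow_add, Pi.neg_apply]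
    congr 1
    omega
  rw [h1, ← Real.finsetProd_rpow _ _ (fun j _ => by positivity)]
  refine Finset.prod_congr rfl fun j _ => ?_
  unfold rr
  rw [← Real.rpow_natCast, ← Real.rpow_natCast, ← Real.rpow_mul (by positivity),
    ← Real.rpow_mul (by positivity), mul_comm]

/-- the point of the torus -/
noncomputable def tP (M : ℕ) (t : ℝ) : UnitAddTorus (Fin (kk M)) := torusPt (al M) t

lemma tP_cont (M : ℕ) : Continuous (tP M) := by
  unfold tP torusPt
  refine continuous_pi fun j => ?_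
  exact (AddCircle.continuous_mk' 1).comp (continuous_const.mul continuous_id)

lemma mF_eq (M : ℕ) (n : Fin (kk M) → ℤ) (t : ℝ) : UnitAddTorus.mFourier n (tP M t) =
    (((((Aq M (-n) : ℝ) * Aq M n) ^ ((1 / 2) : ℝ) : ℝ)) : ℂ) * mh t (Aq M (-n), Aq M n) := by
  unfold tP
  rw [mFourier_torusPt]
  have hA := Aq_pos M n
  have hB := Aq_pos M (-n)
  have hA0 : (0:ℝ) < Aq M n := by exact_mod_cast hA
  have hB0 : (0:ℝ) < Aq M (-n) := by exact_mod_cast hB
  have hf : freq (al M) n = Real.log (Aq M n) - Real.log (Aq M (-n)) := by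
    rw [log_AB]
    unfold freq al
    rw [Finset.mul_sum]
    refine Finset.sum_congr rfl fun j _ => ?_
    have := Real.pi_ne_zero
    field_simp
  have e1 : mh t (Aq M (-n), Aq M n) = (Aq M (-n) : ℂ) ^ (-(1 / 2 + t * Complex.I)) *
      (Aq M n : ℂ) ^ (-(1 / 2 - t * Complex.I)) := rfl
  have hAc : (Aq M n : ℂ) ≠ 0 := by exact_mod_cast hA.ne'
  have hBc : (Aq M (-n) : ℂ) ≠ 0 := by exact_mod_cast hB.ne'
  rw [e1, hf, Real.mul_rpow hB0.le hA0.le, Real.rpow_def_of_pos hB0, Real.rpow_def_of_pos hA0,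
    Complex.cpow_def_of_ne_zero hAc, Complex.cpow_def_of_ne_zero hBc, ← Complex.natCast_log,
    ← Complex.natCast_log]
  push_cast
  rw [← Complex.exp_add, ← Complex.exp_add, ← Complex.exp_add]
  congr 1
  ring

lemma Mn_near {a b : ℕ} (ha : a ≠ 0) (hb : b ≠ 0) {κ : ℝ} (hκ : 0 < κ) :
    ∀ᶠ Y : ℝ in atTop, ∀ k : ℕ, Rng Y k → |Mn k Y (a, b) - w1 (a, b) * Real.log Y| ≤
      κ * Real.log Y := by
  have hC : 0 ≤ (2 * w1 (a, b) + |wl (a, b)|) / κ := by
    have := Pool.Agent.W184.NZ.w1_nonneg (a, b)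
    positivity
  filter_upwards [Real.tendsto_log_atTop.eventually_ge_atTop 1,
    Real.tendsto_log_atTop.eventually_ge_atTop ((2 * w1 (a, b) + |wl (a, b)|) / κ),
    eventually_gt_atTop 0] with Y hL hL2 hY0 k hk
  have hk1 := rng_pos hL hk
  have h1 := Pool.Agent.TH806.yf_bound hk1 hY0
  have hw := Pool.Agent.W184.NZ.w1_nonneg (a, b)
  have e : Mn k Y (a, b) - w1 (a, b) * Real.log Y =
      (Real.log (Yf k Y) + Ck k - Real.log Y) * w1 (a, b) - wl (a, b) := by
    unfold Mn
    ring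
  rw [div_le_iff₀ hκ] at hL2
  rw [e]
  refine (abs_sub _ _).trans ?_
  rw [abs_mul, abs_of_nonneg hw]
  have := mul_le_mul_of_nonneg_right h1 hw
  linarith

lemma total_win {κ : ℝ} (hκ : 0 < κ) : ∀ᶠ Y : ℝ in atTop, ∀ k : ℕ, Rng Y k →
    |(∫ t in Ioi (0:ℝ), wz k Y t) - Real.log Y| ≤ κ * Real.log Y := by
  obtain ⟨η, hη, h⟩ := mono_moment
  have hsm : ∀ᶠ Y : ℝ in atTop, Y ^ (-η) ≤ κ / 8 :=
    (tendsto_rpow_neg_atTop hη).eventually_le_const (by positivity)
  filter_upwards [h, hsm, Mn_near one_ne_zero one_ne_zero (show 0 < κ / 4 by positivity),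
    Real.tendsto_log_atTop.eventually_ge_atTop 1, eventually_ge_atTop 1] with Y hY hs hM hL hY1 k hk
  have h1 := hY k hk (1, 1) one_ne_zero one_ne_zero
    (by simpa using Real.one_le_rpow hY1 (by norm_num))
    (by simpa using Real.one_le_rpow hY1 (by norm_num))
  have e1 : Zm k Y (1, 1) = ∫ t in Ioi (0:ℝ), wz k Y t := by
    unfold Zm
    refine integral_congr_ae (Eventually.of_forall fun t => ?_)
    have : mh t (1, 1) = 1 := map_one (mh t)
    simp only [this, Complex.one_re, mul_one]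
  have h2 := hM k hk
  have e2 : w1 (1, 1) = 1 := by unfold w1; simp
  rw [e1] at h1
  rw [e2, one_mul] at h2
  have h3 := abs_sub_le (∫ t in Ioi (0:ℝ), wz k Y t) (Mn k Y (1, 1)) (Real.log Y)
  nlinarith

/-- one monomial -/
theorem mono_win (M : ℕ) (n : Fin (kk M) → ℤ) (c : ℂ) {κ : ℝ} (hκ : 0 < κ) :
    ∀ᶠ Y : ℝ in atTop, ∀ k : ℕ, Rng Y k →
      |(∫ t in Ioi (0:ℝ), wz k Y t * (c * UnitAddTorus.mFourier n (tP M t)).re) -
        c.re * (∏ j, (rr M j) ^ (n j).natAbs) * Real.log Y| ≤ κ * Real.log Y := by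
  have hC : 0 < ‖c‖ + 1 := by positivity
  rcases eq_or_ne n 0 with hn | hn
  · subst hn
    filter_upwards [total_win (show 0 < κ / (‖c‖ + 1) by positivity),
      Real.tendsto_log_atTop.eventually_ge_atTop 1] with Y hY hL k hk
    have h1 := hY k hk
    simp only [UnitAddTorus.mFourier_zero, ContinuousMap.one_apply, mul_one, Pi.zero_apply,
      Int.natAbs_zero, pow_zero, Finset.prod_const_one]
    rw [integral_mul_const]
    have e : (∫ t in Ioi (0:ℝ), wz k Y t) * c.re - c.re * Real.log Y =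
        c.re * ((∫ t in Ioi (0:ℝ), wz k Y t) - Real.log Y) := by ring
    rw [e, abs_mul]
    have h2 := Complex.abs_re_le_norm c
    calc |c.re| * |(∫ t in Ioi (0:ℝ), wz k Y t) - Real.log Y| ≤
          (‖c‖ + 1) * (κ / (‖c‖ + 1) * Real.log Y) :=
          mul_le_mul (by linarith) h1 (abs_nonneg _) hC.le
      _ = κ * Real.log Y := by field_simp
  rcases eq_or_ne c 0 with hc | hc
  · subst hc
    filter_upwards [Real.tendsto_log_atTop.eventually_ge_atTop 1] with Y hL k hk
    simp only [zero_mul, Complex.zero_re, mul_zero, integral_zero, sub_zero, abs_zero]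
    positivity
  have hc0 : 0 < ‖c‖ := norm_pos_iff.2 hc
  set A := Aq M n with hA
  set B := Aq M (-n) with hB
  have hA0 : 0 < A := Aq_pos M n
  have hB0 : 0 < B := Aq_pos M (-n)
  have hAr : (0:ℝ) < A := by exact_mod_cast hA0
  have hBr : (0:ℝ) < B := by exact_mod_cast hB0
  have hcc : (‖c‖ : ℂ) ≠ 0 := by exact_mod_cast hc0.ne'
  set ε : ℂ := c / ‖c‖ with hε
  have hε1 : ‖ε‖ = 1 := by
    rw [hε, norm_div, Complex.norm_real, norm_norm, div_self hc0.ne']
  set Rt : ℝ := ((B : ℝ) * A) ^ ((1 / 2) : ℝ) with hRt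
  have hRt0 : 0 < Rt := by positivity
  have hcr : c.re = ‖c‖ * ε.re := by
    have : c = ‖c‖ * ε := by
      rw [hε]
      field_simp
    conv_lhs => rw [this]
    rw [Complex.re_ofReal_mul]
  have hw1 : Rt * w1 (B, A) = ∏ j, (rr M j) ^ (n j).natAbs := by
    rw [prod_rr, ← hA, ← hB, hRt]
    unfold w1
    have hg : Nat.gcd B A = 1 := (AB_cop M n).symm
    simp only [hg]
    rw [Real.rpow_neg (by positivity)]
    have h2 : (B : ℝ) * A = ((B : ℝ) * A) ^ ((1 / 2) : ℝ) * ((B : ℝ) * A) ^ ((1 / 2) : ℝ) := by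
      rw [← Real.rpow_add (by positivity)]; norm_num
    have h3 : 0 < ((B : ℝ) * A) ^ ((1 / 2) : ℝ) := by positivity
    rw [Nat.cast_one]
    obtain ⟨z, hz⟩ : ∃ z : ℝ, z = ((B : ℝ) * A) ^ ((1 / 2) : ℝ) := ⟨_, rfl⟩
    rw [← hz] at h2 h3 ⊢
    rw [h2]
    field_simp
  have hne : B ≠ A := AB_ne hn
  set κ' : ℝ := κ / (2 * ‖c‖ * Rt) with hκ'
  have hκ'0 : 0 < κ' := by positivity
  filter_upwards [cross hB0.ne' hA0.ne' hne hε1 hκ'0, Mn_near hB0.ne' hA0.ne' hκ'0,
    Real.tendsto_log_atTop.eventually_ge_atTop 1] with Y h1 h2 hL k hk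
  have k1 := h1 k hk
  have k2 := h2 k hk
  have e1 : ∀ t, wz k Y t * (c * UnitAddTorus.mFourier n (tP M t)).re =
      (‖c‖ * Rt) * (wz k Y t * (ε * mh t (B, A)).re) := by
    intro t
    rw [mF_eq]
    have : c * ((Rt : ℂ) * mh t (B, A)) = ((‖c‖ * Rt : ℝ) : ℂ) * (ε * mh t (B, A)) := by
      rw [hε]
      push_cast
      field_simp
    rw [← hA, ← hB, ← hRt, this, Complex.re_ofReal_mul]
    ring
  simp only [e1]
  rw [integral_const_mul, ← hw1, hcr]
  set J := ∫ t in Ioi (0:ℝ), wz k Y t * (ε * mh t (B, A)).re with hJ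
  have e2 : ‖c‖ * Rt * J - ‖c‖ * ε.re * (Rt * w1 (B, A)) * Real.log Y =
      ‖c‖ * Rt * ((J - ε.re * Mn k Y (B, A)) +
        ε.re * (Mn k Y (B, A) - w1 (B, A) * Real.log Y)) := by ring
  rw [e2, abs_mul, abs_of_pos (by positivity)]
  have hεr : |ε.re| ≤ 1 := (Complex.abs_re_le_norm ε).trans hε1.le
  have h3 : |(J - ε.re * Mn k Y (B, A)) + ε.re * (Mn k Y (B, A) - w1 (B, A) * Real.log Y)| ≤
      κ' + κ' * Real.log Y := by
    refine (abs_add_le _ _).trans (add_le_add k1 ?_)
    rw [abs_mul]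
    calc |ε.re| * |Mn k Y (B, A) - w1 (B, A) * Real.log Y| ≤ 1 * (κ' * Real.log Y) :=
          mul_le_mul hεr k2 (abs_nonneg _) zero_le_one
      _ = _ := one_mul _
  calc ‖c‖ * Rt * _ ≤ ‖c‖ * Rt * (κ' + κ' * Real.log Y) :=
        mul_le_mul_of_nonneg_left h3 (by positivity)
    _ = κ / 2 * (1 + Real.log Y) := by rw [hκ']; field_simp
    _ ≤ κ * Real.log Y := by nlinarith

/-- the limit functional -/
noncomputable def mW (M : ℕ) (g : UnitAddTorus (Fin (kk M)) → ℝ) : ℝ :=
  ∫ x, g x * PT (rr M) x ∂(haarT (kk M))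

/-- **The window law.** -/
theorem torus_win (M : ℕ) (g : C(UnitAddTorus (Fin (kk M)), ℝ)) {κ : ℝ} (hκ : 0 < κ) :
    ∀ᶠ Y : ℝ in atTop, ∀ k : ℕ, Rng Y k →
      |(∫ t in Ioi (0:ℝ), wz k Y t * g (tP M t)) - mW M g * Real.log Y| ≤ κ * Real.log Y := by
  classical
  have hmem : (⟨fun x => (g x : ℂ), by fun_prop⟩ : C(UnitAddTorus (Fin (kk M)), ℂ)) ∈
      (Submodule.span ℂ (Set.range <| UnitAddTorus.mFourier (d := Fin (kk M)))).topologicalClosure := by
    rw [UnitAddTorus.span_mFourier_closure_eq_top]; trivial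
  set G : C(UnitAddTorus (Fin (kk M)), ℂ) := ⟨fun x => (g x : ℂ), by fun_prop⟩ with hG
  have hcl : G ∈ closure ((Submodule.span ℂ (Set.range <| UnitAddTorus.mFourier (d := Fin (kk M))) :
      Submodule ℂ C(UnitAddTorus (Fin (kk M)), ℂ)) : Set C(UnitAddTorus (Fin (kk M)), ℂ)) := hmem
  obtain ⟨p, hp, hpg⟩ := Metric.mem_closure_iff.1 hcl (κ / 8) (by positivity)
  obtain ⟨a, ha⟩ := (Finsupp.mem_span_range_iff_exists_finsupp).1 hp
  have hpx : ∀ x, p x = ∑ n ∈ a.support, a n * UnitAddTorus.mFourier n x := by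
    intro x
    rw [← ha, Finsupp.sum, ContinuousMap.sum_apply]
    rfl
  have hdist : ∀ x, |g x - (p x).re| ≤ κ / 8 := by
    intro x
    have h1 := ContinuousMap.dist_apply_le_dist (f := G) (g := p) x
    rw [dist_eq_norm] at h1
    have h2 : g x - (p x).re = (G x - p x).re := by simp [hG]
    rw [h2]
    exact (Complex.abs_re_le_norm _).trans (h1.trans hpg.le)
  set S := a.support with hS
  have hfin : ∀ᶠ Y : ℝ in atTop, ∀ n ∈ S, ∀ k : ℕ, Rng Y k →
      |(∫ t in Ioi (0:ℝ), wz k Y t * (a n * UnitAddTorus.mFourier n (tP M t)).re) -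
        (a n).re * (∏ j, (rr M j) ^ (n j).natAbs) * Real.log Y| ≤
          κ / (4 * (S.card + 1)) * Real.log Y := by
    rw [Filter.eventually_all_finset]
    intro n _
    exact mono_win M n (a n) (by positivity)
  filter_upwards [hfin, total_win (show (0:ℝ) < 1 by norm_num),
    Real.tendsto_log_atTop.eventually_ge_atTop 1, eventually_gt_atTop 0] with Y hY htot hL hY0 k hk
  have hk1 := rng_pos hL hk
  have hk0 : (0:ℝ) < k := by exact_mod_cast hk1
  have hδ : 0 < (k:ℝ) / Y := by positivity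
  have htot' := abs_le.1 (htot k hk)
  -- integrability
  have hgb : ∃ C, ∀ x, |g x| ≤ C := by
    obtain ⟨C, hC⟩ := isCompact_univ.exists_bound_of_continuousOn g.continuous.continuousOn
    exact ⟨C, fun x => hC x trivial⟩
  obtain ⟨Cg, hCg⟩ := hgb
  have ig : IntegrableOn (fun t => wz k Y t * g (tP M t)) (Ioi 0) :=
    wz_int k hδ (g.continuous.comp (tP_cont M)) fun t => hCg _
  have hmn : ∀ (n : Fin (kk M) → ℤ) (x : UnitAddTorus (Fin (kk M))),
      ‖UnitAddTorus.mFourier n x‖ = 1 := by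
    intro n x
    unfold UnitAddTorus.mFourier
    simp only [ContinuousMap.coe_mk]
    rw [norm_prod]
    exact Finset.prod_eq_one fun j _ => f1_norm _ _
  have im : ∀ n, IntegrableOn (fun t => wz k Y t * (a n * UnitAddTorus.mFourier n (tP M t)).re)
      (Ioi 0) := by
    intro n
    refine wz_int k hδ (C := ‖a n‖) ?_ fun t => ?_
    · exact Complex.continuous_re.comp (continuous_const.mul ((map_continuous _).comp (tP_cont M)))
    · refine (Complex.abs_re_le_norm _).trans ?_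
      rw [norm_mul, hmn, mul_one]
  have hpc : Continuous fun t => (p (tP M t)).re :=
    Complex.continuous_re.comp (p.continuous.comp (tP_cont M))
  have hpb : ∀ t, |(p (tP M t)).re| ≤ Cg + κ / 8 := by
    intro t
    have h1 := hdist (tP M t)
    have h2 := hCg (tP M t)
    rw [abs_le] at h1 h2 ⊢
    constructor <;> linarith
  have ip : IntegrableOn (fun t => wz k Y t * (p (tP M t)).re) (Ioi 0) := wz_int k hδ hpc hpb
  -- the polynomial
  have hpsum : ∫ t in Ioi (0:ℝ), wz k Y t * (p (tP M t)).re =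
      ∑ n ∈ S, ∫ t in Ioi (0:ℝ), wz k Y t * (a n * UnitAddTorus.mFourier n (tP M t)).re := by
    rw [← integral_finsetSum _ fun n _ => im n]
    refine integral_congr_ae (Eventually.of_forall fun t => ?_)
    beta_reduce
    rw [hpx, Complex.re_sum, Finset.mul_sum]
  have hr0 := rr_nonneg M
  have hr1 := rr_lt M
  have hWc := PT_cont hr0 hr1
  have hmain : ∫ x, (p x).re * PT (rr M) x ∂(haarT (kk M)) =
      ∑ n ∈ S, (a n).re * (∏ j, (rr M j) ^ (n j).natAbs) := by
    have h1 : ∫ x, p x * (PT (rr M) x : ℂ) ∂(haarT (kk M)) =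
        ∑ n ∈ S, a n * ∏ j, (rr M j : ℂ) ^ (n j).natAbs := by
      simp only [hpx, Finset.sum_mul]
      rw [integral_finsetSum]
      · refine Finset.sum_congr rfl fun n _ => ?_
        simp only [mul_assoc]
        rw [integral_const_mul, int_mF_PT hr0 hr1]
      · intro n _
        refine int_contC ?_
        exact (continuous_const.mul (map_continuous _)).mul (Complex.continuous_ofReal.comp hWc)
    have h2 : ∫ x, (p x).re * PT (rr M) x ∂(haarT (kk M)) =
        (∫ x, p x * (PT (rr M) x : ℂ) ∂(haarT (kk M))).re := by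
      have hi : Integrable (fun x => p x * (PT (rr M) x : ℂ)) (haarT (kk M)) :=
        int_contC (p.continuous.mul (Complex.continuous_ofReal.comp hWc))
      have h3 := integral_re hi
      simp only [RCLike.re_to_complex] at h3
      rw [← h3]
      congr 1
      funext x
      rw [mul_comm (p x), Complex.re_ofReal_mul, mul_comm]
    rw [h2, h1, Complex.re_sum]
    refine Finset.sum_congr rfl fun n _ => ?_
    have : (∏ j, (rr M j : ℂ) ^ (n j).natAbs) = ((∏ j, (rr M j) ^ (n j).natAbs : ℝ) : ℂ) := by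
      push_cast
      rfl
    rw [this, mul_comm, Complex.re_ofReal_mul, mul_comm]
  have hA : |(∫ t in Ioi (0:ℝ), wz k Y t * (p (tP M t)).re) -
      (∫ x, (p x).re * PT (rr M) x ∂(haarT (kk M))) * Real.log Y| ≤ κ / 4 * Real.log Y := by
    rw [hpsum, hmain, Finset.sum_mul, ← Finset.sum_sub_distrib]
    refine (Finset.abs_sum_le_sum_abs _ _).trans ?_
    calc ∑ n ∈ S, _ ≤ ∑ n ∈ S, κ / (4 * (S.card + 1)) * Real.log Y :=
          Finset.sum_le_sum fun n hn => hY n hn k hk
      _ = S.card * (κ / (4 * (S.card + 1)) * Real.log Y) := by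
          rw [Finset.sum_const, nsmul_eq_mul]
      _ ≤ κ / 4 * Real.log Y := by
          have hc : (0:ℝ) ≤ S.card := by positivity
          have : (S.card : ℝ) * (κ / (4 * (S.card + 1))) ≤ κ / 4 := by
            rw [mul_div_assoc', div_le_div_iff₀ (by positivity) (by norm_num)]
            nlinarith
          nlinarith
  have hB : |(∫ t in Ioi (0:ℝ), wz k Y t * g (tP M t)) -
      ∫ t in Ioi (0:ℝ), wz k Y t * (p (tP M t)).re| ≤ κ / 4 * Real.log Y := by
    rw [← integral_sub ig ip]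
    have hb : ∀ t ∈ Ioi (0:ℝ), ‖wz k Y t * g (tP M t) - wz k Y t * (p (tP M t)).re‖ ≤
        κ / 8 * wz k Y t := by
      intro t ht
      have hw := wz_nonneg k hY0 (le_of_lt ht)
      rw [← mul_sub, norm_mul, Real.norm_eq_abs, Real.norm_eq_abs, abs_of_nonneg hw]
      have := mul_le_mul_of_nonneg_left (hdist (tP M t)) hw
      linarith
    have iw : IntegrableOn (fun t => wz k Y t) (Ioi 0) := Pool.Agent.H262R4.TM.TTW.int2 k hδ
    have h1 := norm_integral_le_of_norm_le (iw.const_mul (κ / 8))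
      ((ae_restrict_iff' measurableSet_Ioi).2 (Eventually.of_forall hb))
    rw [integral_const_mul, Real.norm_eq_abs] at h1
    refine h1.trans ?_
    nlinarith [htot'.2]
  have hC : |(∫ x, (p x).re * PT (rr M) x ∂(haarT (kk M))) - mW M g| ≤ κ / 8 := by
    have i1 : Integrable (fun x => (p x).re * PT (rr M) x) (haarT (kk M)) :=
      int_cont ((Complex.continuous_re.comp p.continuous).mul hWc)
    have i2 : Integrable (fun x => g x * PT (rr M) x) (haarT (kk M)) :=
      int_cont (g.continuous.mul hWc)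
    unfold mW
    rw [← integral_sub i1 i2]
    have hb : ∀ x, ‖(p x).re * PT (rr M) x - g x * PT (rr M) x‖ ≤ κ / 8 * PT (rr M) x := by
      intro x
      have hw := (PT_pos hr0 hr1 x).le
      rw [← sub_mul, norm_mul, Real.norm_eq_abs, Real.norm_eq_abs, abs_of_nonneg hw, abs_sub_comm]
      exact mul_le_mul_of_nonneg_right (hdist x) hw
    have h1 := norm_integral_le_of_norm_le ((int_cont hWc).const_mul (κ / 8))
      (Eventually.of_forall hb)
    rw [integral_const_mul, int_PT hr0 hr1, mul_one, Real.norm_eq_abs] at h1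
    exact h1
  set I1 := ∫ t in Ioi (0:ℝ), wz k Y t * g (tP M t)
  set I2 := ∫ t in Ioi (0:ℝ), wz k Y t * (p (tP M t)).re
  set I3 := ∫ x, (p x).re * PT (rr M) x ∂(haarT (kk M))
  have e : I1 - mW M g * Real.log Y = (I1 - I2) + ((I2 - I3 * Real.log Y) +
      (I3 - mW M g) * Real.log Y) := by ring
  have hD : |(I3 - mW M g) * Real.log Y| ≤ κ / 8 * Real.log Y := by
    rw [abs_mul, abs_of_nonneg (show 0 ≤ Real.log Y by linarith)]
    exact mul_le_mul_of_nonneg_right hC (by linarith)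
  rw [e]
  refine (abs_add_le _ _).trans ?_
  have h5 := abs_add_le (I2 - I3 * Real.log Y) ((I3 - mW M g) * Real.log Y)
  have h6 : 0 < κ * Real.log Y := by positivity
  linarith

end Pool.Agent.Q286.SB
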