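import Pool.Agent.Q286.SB.Gcd
import Pool.Agent.Q286.SB.Int
import Pool.Agent.Q286.UZ.Exc
import Pool.Agent.Helper240.ZU.A4
import Pool.Agent.Helper240.ZU.C3a

/-!
Zeta and short sums of its Dirichlet series, in mean square; the weighted mean square of the tail of
the Euler product.
-/

set_option autoImplicit false
set_option linter.all false

namespace Pool.Agent.Q286.SB

open Complex Filter Topology Set MeasureTheory ZU
open Pool.Agent.H306R2.SM (om cl Yf)
open Pool.Agent.H262R4.TM (Rng Ck)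
open Pool.Agent.W184.NZ (wz wz_int wz_nonneg)

/-- a constant times a power is at most a slightly larger power -/
lemma pow_absorb (C : ℝ) {a b : ℝ} (hab : a < b) : ∀ᶠ T : ℝ in atTop, C * T ^ a ≤ T ^ b := by
  have h := (tendsto_rpow_atTop (show 0 < b - a by linarith)).eventually_ge_atTop C
  filter_upwards [h, eventually_gt_atTop 0] with T hT hT0
  calc C * T ^ a ≤ T ^ (b - a) * T ^ a := mul_le_mul_of_nonneg_right hT (by positivity)
    _ = T ^ b := by rw [← Real.rpow_add hT0]; congr 1; ring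

/-- the same with logarithms -/
lemma pow_log_absorb (C : ℝ) (j : ℕ) {a b : ℝ} (hab : a < b) : ∀ᶠ T : ℝ in atTop,
    C * T ^ a * Real.log T ^ j ≤ T ^ b := by
  have h1 := (isLittleO_log_rpow_rpow_atTop (j : ℝ) (show 0 < (b - a) / 2 by linarith)).bound
    (show (0:ℝ) < 1 by norm_num)
  have h2 := pow_absorb |C| (show a + (b - a) / 2 < b by linarith)
  filter_upwards [h1, h2, eventually_gt_atTop 1] with T hT hT2 hT1
  have hT0 : 0 < T := by linarith
  have hL : 0 < Real.log T := Real.log_pos hT1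
  rw [Real.rpow_natCast, Real.norm_of_nonneg (by positivity), Real.norm_of_nonneg (by positivity),
    one_mul] at hT
  calc C * T ^ a * Real.log T ^ j ≤ |C| * T ^ a * T ^ ((b - a) / 2) := by
        refine mul_le_mul (mul_le_mul_of_nonneg_right (le_abs_self C) (by positivity)) hT
          (by positivity) (by positivity)
    _ = |C| * T ^ (a + (b - a) / 2) := by rw [Real.rpow_add hT0]; ring
    _ ≤ T ^ b := hT2

lemma floor_low {x : ℝ} (hx : 1 ≤ x) : x / 2 ≤ (⌊x⌋₊ : ℝ) := by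
  have h1 : x < (⌊x⌋₊ : ℝ) + 1 := Nat.lt_floor_add_one x
  have h2 : (1 : ℝ) ≤ (⌊x⌋₊ : ℝ) := by exact_mod_cast (Nat.one_le_floor_iff _).2 hx
  linarith

/-- **Zeta and a short sum.** -/
theorem zD {σ1 σ2 B : ℝ} (h1 : 1 / 2 < σ1) (h2 : σ2 < 1) (hB : 0 < B) :
    ∃ ρ : ℝ, 0 < ρ ∧ ∀ᶠ T : ℝ in atTop, ∀ s ∈ rect σ1 σ2 B,
      ∫ t in (0:ℝ)..T, ‖riemannZeta (s + t * I) - DN ⌊T ^ (1 / 20 : ℝ)⌋₊ (s + t * I)‖ ^ 2 ≤
        T ^ (1 - ρ) := by
  set κ : ℝ := σ1 - 1 / 2 with hκ
  have hκ0 : 0 < κ := by linarith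
  obtain ⟨Z, hZ0, hZ⟩ := zsum (show 1 < 1 + κ by linarith)
  set e : ℝ := 1 / 2 + 1 / (4 * σ1) with he
  have hσ10 : 0 < σ1 := by linarith
  have he1 : e < 1 := by
    have : 1 / (4 * σ1) < 1 / 2 := by
      rw [div_lt_div_iff₀ (by positivity) (by norm_num)]
      linarith
    linarith
  have he0 : 0 < e := by positivity
  have he2 : 2 * σ1 * e = 1 / 2 + σ1 := by
    rw [he]
    field_simp
    ring
  refine ⟨κ / 40, by positivity, ?_⟩
  set K1 : ℝ := 3 * Real.exp 4 * √Real.pi with hK1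
  have hK10 : 0 < K1 := by positivity
  set K2 : ℝ := 3 / (1 - σ2) ^ 2 * Real.pi with hK2
  have h12 : 0 < 1 - σ2 := by linarith
  have hK20 : 0 < K2 := by positivity
  set K3 : ℝ := 3 * Real.exp 4 * (5 * (2 * Real.pi * 4)) with hK3
  have hK30 : 0 < K3 := by positivity
  have hexp : ∀ᶠ T : ℝ in atTop, T ^ 2 * Real.exp (-(T ^ (2 - 2 * e) / 4)) ≤ 1 / T := by
    have h3 : Tendsto (fun T : ℝ => T ^ (2 - 2 * e) / 4) atTop atTop :=
      (tendsto_rpow_atTop (by linarith)).atTop_div_const (by norm_num)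
    have h4 := (isLittleO_exp_neg_mul_rpow_atTop one_pos (-(3 / (2 - 2 * e)))).bound
      (show (0:ℝ) < 1 / 4 ^ (3 / (2 - 2 * e) : ℝ) by positivity)
    have h5 := h3.eventually h4
    filter_upwards [h5, eventually_gt_atTop 1] with T hT hT1
    have hT0 : 0 < T := by linarith
    have h22 : 0 < 2 - 2 * e := by linarith
    rw [Real.norm_of_nonneg (by positivity), Real.norm_of_nonneg (by positivity)] at hT
    have h6 : (T ^ (2 - 2 * e) / 4) ^ (-(3 / (2 - 2 * e)) : ℝ) =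
        4 ^ (3 / (2 - 2 * e) : ℝ) * T ^ (-3 : ℝ) := by
      rw [Real.div_rpow (by positivity) (by norm_num), ← Real.rpow_mul hT0.le]
      have e1 : (2 - 2 * e) * -(3 / (2 - 2 * e)) = -3 := by
        rw [mul_neg, mul_div_cancel₀ _ h22.ne']
      rw [e1, Real.rpow_neg (by norm_num : (0:ℝ) ≤ 4), div_inv_eq_mul, mul_comm]
    rw [h6] at hT
    have h7 : 1 / (4:ℝ) ^ (3 / (2 - 2 * e) : ℝ) * (4 ^ (3 / (2 - 2 * e) : ℝ) * T ^ (-3 : ℝ)) =
        T ^ (-3 : ℝ) := by
      have : (4:ℝ) ^ (3 / (2 - 2 * e) : ℝ) ≠ 0 := by positivity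
      field_simp
    rw [h7, neg_one_mul] at hT
    calc T ^ 2 * Real.exp (-(T ^ (2 - 2 * e) / 4)) ≤ T ^ 2 * T ^ (-3 : ℝ) :=
          mul_le_mul_of_nonneg_left hT (by positivity)
      _ = 1 / T := by
          rw [← Real.rpow_natCast T 2, ← Real.rpow_add hT0]
          norm_num
          rw [Real.rpow_neg_one]
  filter_upwards [eventually_ge_atTop (max 1 B), hexp, eventually_gt_atTop 1,
    pow_absorb (K1 * (2 * Z) + K1 + K2 + K3) (show 1 - κ / 20 < 1 - κ / 40 by linarith)]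
    with T hTB hexp hT1 habs s hs
  have hT0 : 0 < T := by linarith
  obtain ⟨hs1, hs2, hs3⟩ := hs
  set N := ⌊T ^ (1 / 20 : ℝ)⌋₊ with hN
  set L := ⌊T ^ e⌋₊ with hL
  have he20 : (1:ℝ) / 20 ≤ e := by
    rw [he]
    have : 0 < 1 / (4 * σ1) := by positivity
    linarith
  have hNL : N ≤ L := Nat.floor_mono (Real.rpow_le_rpow_of_exponent_le hT1.le he20)
  have hTe : 1 ≤ T ^ e := Real.one_le_rpow hT1.le he0.le
  have hT20 : 1 ≤ T ^ (1 / 20 : ℝ) := Real.one_le_rpow hT1.le (by norm_num)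
  have hL1 : 1 ≤ L := (Nat.one_le_floor_iff _).2 hTe
  have hN1 : 1 ≤ N := (Nat.one_le_floor_iff _).2 hT20
  have hN0 : (0:ℝ) < N := by exact_mod_cast hN1
  have hL0 : (0:ℝ) < L := by exact_mod_cast hL1
  have hLlow := floor_low hTe
  have hNlow := floor_low hT20
  have hLup : (L : ℝ) ≤ T ^ e := Nat.floor_le (by positivity)
  have hLT : (L : ℝ) ≤ T := hLup.trans (by
    calc T ^ e ≤ T ^ (1:ℝ) := Real.rpow_le_rpow_of_exponent_le hT1.le he1.le
      _ = T := Real.rpow_one T)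
  have hz := ZU.J_a4.zm_bound σ1 σ2 s.re B T N L hNL hL1 h1 ⟨hs1, hs2⟩ h2 hB
    ((le_max_left _ _).trans hTB) ((le_max_right _ _).trans hTB)
  -- the four terms
  have t1 : ∑ n ∈ Finset.Ioc N L, (n : ℝ) ^ (-(2 * s.re)) ≤ 2 * Z * T ^ (-(κ / 20)) := by
    have hNk : (N : ℝ) ^ (-κ) ≤ 2 * T ^ (-(κ / 20)) := by
      calc (N : ℝ) ^ (-κ) ≤ (T ^ (1 / 20 : ℝ) / 2) ^ (-κ) :=
            Real.rpow_le_rpow_of_nonpos (by positivity) hNlow (by linarith)
        _ = T ^ (-(κ / 20)) * 2 ^ κ := by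
            rw [Real.div_rpow (by positivity) (by norm_num), ← Real.rpow_mul hT0.le,
              Real.rpow_neg (by norm_num : (0:ℝ) ≤ 2), div_inv_eq_mul]
            congr 2
            ring
        _ ≤ T ^ (-(κ / 20)) * 2 := by
            refine mul_le_mul_of_nonneg_left ?_ (by positivity)
            calc (2:ℝ) ^ κ ≤ 2 ^ (1:ℝ) :=
                  Real.rpow_le_rpow_of_exponent_le (by norm_num) (by linarith)
              _ = 2 := Real.rpow_one 2
        _ = 2 * T ^ (-(κ / 20)) := mul_comm _ _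
    calc ∑ n ∈ Finset.Ioc N L, (n : ℝ) ^ (-(2 * s.re)) ≤
          ∑ n ∈ Finset.Ioc N L, (N : ℝ) ^ (-κ) * (n : ℝ) ^ (-(1 + κ)) := by
          refine Finset.sum_le_sum fun n hn => ?_
          rw [Finset.mem_Ioc] at hn
          have hn1 : (1:ℝ) ≤ n := by exact_mod_cast (show 1 ≤ n by omega)
          have hn0 : (0:ℝ) < n := by linarith
          have hnN : (N : ℝ) ≤ n := by exact_mod_cast hn.1.le
          calc (n : ℝ) ^ (-(2 * s.re)) ≤ (n : ℝ) ^ (-κ + -(1 + κ)) :=
                Real.rpow_le_rpow_of_exponent_le hn1 (by linarith)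
            _ = (n : ℝ) ^ (-κ) * (n : ℝ) ^ (-(1 + κ)) := Real.rpow_add hn0 _ _
            _ ≤ (N : ℝ) ^ (-κ) * (n : ℝ) ^ (-(1 + κ)) :=
                mul_le_mul_of_nonneg_right
                  (Real.rpow_le_rpow_of_nonpos hN0 hnN (by linarith)) (by positivity)
      _ = (N : ℝ) ^ (-κ) * ∑ n ∈ Finset.Ioc N L, (n : ℝ) ^ (-(1 + κ)) := by
          rw [Finset.mul_sum]
      _ ≤ (2 * T ^ (-(κ / 20))) * Z := mul_le_mul hNk (hZ _)
          (Finset.sum_nonneg fun _ _ => by positivity) (by positivity)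
      _ = _ := by ring
  have t2 : (L : ℝ) ^ 2 * Real.exp (-(T ^ 2 / (4 * (L : ℝ) ^ 2))) ≤ T ^ (-(κ / 20)) := by
    have e1 : T ^ (2 - 2 * e) / 4 ≤ T ^ 2 / (4 * (L : ℝ) ^ 2) := by
      have e2 : T ^ (2 - 2 * e) = T ^ 2 / (T ^ e) ^ 2 := by
        rw [Real.rpow_sub hT0, ← Real.rpow_natCast (T ^ e) 2, ← Real.rpow_mul hT0.le]
        congr 1
        · norm_num
        · push_cast
          congr 1
          ring
      rw [e2, div_div, mul_comm ((T ^ e) ^ 2) 4]
      refine div_le_div_of_nonneg_left (by positivity) (by positivity) ?_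
      have := pow_le_pow_left₀ hL0.le hLup 2
      linarith
    calc (L : ℝ) ^ 2 * Real.exp (-(T ^ 2 / (4 * (L : ℝ) ^ 2))) ≤
          T ^ 2 * Real.exp (-(T ^ (2 - 2 * e) / 4)) := by
          refine mul_le_mul (pow_le_pow_left₀ hL0.le hLT 2) (Real.exp_le_exp.2 (by linarith))
            (Real.exp_pos _).le (by positivity)
      _ ≤ 1 / T := hexp
      _ = T ^ (-1 : ℝ) := by rw [Real.rpow_neg_one, one_div]
      _ ≤ T ^ (-(κ / 20)) := Real.rpow_le_rpow_of_exponent_le hT1.le (by linarith)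
  have t3 : ((L : ℝ) ^ (1 - s.re)) ^ 2 ≤ T ^ (1 - κ / 20) := by
    calc ((L : ℝ) ^ (1 - s.re)) ^ 2 ≤ (T ^ (1 - s.re)) ^ 2 :=
          pow_le_pow_left₀ (by positivity) (Real.rpow_le_rpow hL0.le hLT (by linarith)) 2
      _ = T ^ ((1 - s.re) * 2) := by
          rw [← Real.rpow_natCast, ← Real.rpow_mul hT0.le]
          norm_num
      _ ≤ T ^ (1 - κ / 20) := Real.rpow_le_rpow_of_exponent_le hT1.le (by linarith)
  have t4 : (1 + 4 * T ^ 2) * (2 * Real.pi * ((L : ℝ) ^ (-(2 * s.re)) / (2 * s.re))) ≤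
      5 * (2 * Real.pi * 4) * T ^ (1 - κ / 20) := by
    have hs0 : 1 / 2 < s.re := by linarith
    have e1 : (L : ℝ) ^ (-(2 * s.re)) ≤ 4 * T ^ (-(1 / 2 + σ1)) := by
      have hL1' : (1:ℝ) ≤ L := by exact_mod_cast hL1
      calc (L : ℝ) ^ (-(2 * s.re)) ≤ (L : ℝ) ^ (-(2 * σ1)) :=
            Real.rpow_le_rpow_of_exponent_le hL1' (by linarith)
        _ ≤ (T ^ e / 2) ^ (-(2 * σ1)) :=
            Real.rpow_le_rpow_of_nonpos (by positivity) hLlow (by linarith)
        _ = T ^ (-(1 / 2 + σ1)) * 2 ^ (2 * σ1) := by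
            rw [Real.div_rpow (by positivity) (by norm_num), ← Real.rpow_mul hT0.le,
              Real.rpow_neg (by norm_num : (0:ℝ) ≤ 2), div_inv_eq_mul]
            congr 2
            rw [← he2]
            ring
        _ ≤ T ^ (-(1 / 2 + σ1)) * 4 := by
            refine mul_le_mul_of_nonneg_left ?_ (by positivity)
            calc (2:ℝ) ^ (2 * σ1) ≤ 2 ^ (2:ℝ) :=
                  Real.rpow_le_rpow_of_exponent_le (by norm_num) (by linarith)
              _ = 4 := by norm_num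
        _ = _ := mul_comm _ _
    have e2 : (L : ℝ) ^ (-(2 * s.re)) / (2 * s.re) ≤ 4 * T ^ (-(1 / 2 + σ1)) :=
      (div_le_self (by positivity) (by linarith)).trans e1
    have e3 : 1 + 4 * T ^ 2 ≤ 5 * T ^ 2 := by nlinarith
    calc (1 + 4 * T ^ 2) * (2 * Real.pi * ((L : ℝ) ^ (-(2 * s.re)) / (2 * s.re))) ≤
          (5 * T ^ 2) * (2 * Real.pi * (4 * T ^ (-(1 / 2 + σ1)))) := by
          refine mul_le_mul e3 (mul_le_mul_of_nonneg_left e2 (by positivity)) ?_ (by positivity)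
          have : 0 ≤ s.re := by linarith
          positivity
      _ = 5 * (2 * Real.pi * 4) * (T ^ 2 * T ^ (-(1 / 2 + σ1))) := by ring
      _ = 5 * (2 * Real.pi * 4) * T ^ (2 + -(1 / 2 + σ1)) := by
          rw [Real.rpow_add hT0]
          norm_num
      _ ≤ 5 * (2 * Real.pi * 4) * T ^ (1 - κ / 20) := by
          refine mul_le_mul_of_nonneg_left ?_ (by positivity)
          exact Real.rpow_le_rpow_of_exponent_le hT1.le (by linarith)
  -- translation
  have hcont : Continuous fun t : ℝ =>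
      ‖riemannZeta ((s.re : ℂ) + t * I) - DN N ((s.re : ℂ) + t * I)‖ ^ 2 := by
    have hDc : Continuous (DN N) := ZU.J_c3.rough_mv_DN_cont N
    have hzc : Continuous fun t : ℝ => riemannZeta ((s.re : ℂ) + t * I) := by
      rw [continuous_iff_continuousAt]
      intro t
      have hne : (s.re : ℂ) + t * I ≠ 1 := by
        intro h
        have := congrArg Complex.re h
        simp at this
        linarith
      exact ContinuousAt.comp (g := riemannZeta) (f := fun t : ℝ => (s.re : ℂ) + t * I)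
        (differentiableAt_riemannZeta hne).continuousAt (by fun_prop)
    exact (hzc.sub (hDc.comp (by fun_prop))).norm.pow 2
  have hshift : ∫ t in (0:ℝ)..T, ‖riemannZeta (s + t * I) - DN N (s + t * I)‖ ^ 2 ≤
      ∫ t in (-B)..(T + B), ‖riemannZeta ((s.re : ℂ) + t * I) - DN N ((s.re : ℂ) + t * I)‖ ^ 2 := by
    have e1 : ∀ t : ℝ, s + t * I = (s.re : ℂ) + ((t + s.im : ℝ) : ℂ) * I := by
      intro t
      apply Complex.ext <;> simp
      ring
    have e2 : ∫ t in (0:ℝ)..T, ‖riemannZeta (s + t * I) - DN N (s + t * I)‖ ^ 2 =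
        ∫ t in (0 + s.im)..(T + s.im),
          ‖riemannZeta ((s.re : ℂ) + t * I) - DN N ((s.re : ℂ) + t * I)‖ ^ 2 := by
      rw [← intervalIntegral.integral_comp_add_right (fun t : ℝ =>
        ‖riemannZeta ((s.re : ℂ) + t * I) - DN N ((s.re : ℂ) + t * I)‖ ^ 2) s.im]
      refine intervalIntegral.integral_congr fun t _ => ?_
      simp only [e1 t]
    rw [e2]
    have h3 := abs_le.1 hs3
    refine intervalIntegral.integral_mono_interval (by linarith) (by linarith) (by linarith)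
      (Eventually.of_forall fun t => by positivity) (hcont.intervalIntegrable _ _)
  refine hshift.trans (hz.trans ?_)
  refine le_trans ?_ habs
  have eT : T * T ^ (-(κ / 20)) = T ^ (1 - κ / 20) := by
    nth_rw 1 [← Real.rpow_one T]
    rw [← Real.rpow_add hT0]
    congr 1
  calc 3 * Real.exp 4 * (√Real.pi * T * (∑ n ∈ Finset.Ioc N L, (n : ℝ) ^ (-(2 * s.re)) +
        (L : ℝ) ^ 2 * Real.exp (-(T ^ 2 / (4 * (L : ℝ) ^ 2))))) +
      3 * (((L : ℝ) ^ (1 - s.re)) ^ 2 / (1 - σ2) ^ 2) * Real.pi +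
      3 * Real.exp 4 * (1 + 4 * T ^ 2) * (2 * Real.pi * ((L : ℝ) ^ (-(2 * s.re)) / (2 * s.re))) ≤
      3 * Real.exp 4 * (√Real.pi * T * (2 * Z * T ^ (-(κ / 20)) + T ^ (-(κ / 20)))) +
      3 * (T ^ (1 - κ / 20) / (1 - σ2) ^ 2) * Real.pi +
      3 * Real.exp 4 * (5 * (2 * Real.pi * 4) * T ^ (1 - κ / 20)) := by
        rw [mul_assoc (3 * Real.exp 4) (1 + 4 * T ^ 2)]
        gcongr
    _ = (K1 * (2 * Z) + K1 + K2 + K3) * T ^ (1 - κ / 20) := by
        rw [← eT, hK1, hK2, hK3]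
        field_simp

end Pool.Agent.Q286.SB
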